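import Pool.Agent.Lib.MP_4d5ce1_nt.Red.Rational

set_option autoImplicit false

open NumberField IsDedekindDomain Polynomial

namespace Pool.Agent.Lib.MP_4d5ce1_nt.Red

/-- The image of the zeros of `p` under `A` are zeros of an irreducible polynomial of degree
at most that of `p`. -/
lemma exists_push (A p : ℚ[X]) (hp : Irreducible p) :
    ∃ s : ℚ[X], s.Monic ∧ Irreducible s ∧ s.natDegree ≤ p.natDegree ∧ p ∣ s.comp A := by
  have : Fact (Irreducible p) := ⟨hp⟩
  have hp0 : p ≠ 0 := hp.ne_zero
  have hfin : Module.Finite ℚ (AdjoinRoot p) := (AdjoinRoot.powerBasis hp0).finite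
  have hint : IsIntegral ℚ (aeval (AdjoinRoot.root p) A) := Algebra.IsIntegral.isIntegral _
  refine ⟨minpoly ℚ (aeval (AdjoinRoot.root p) A), minpoly.monic hint, minpoly.irreducible hint,
    ?_, ?_⟩
  · refine (minpoly.natDegree_le _).trans ?_
    rw [(AdjoinRoot.powerBasis hp0).finrank, AdjoinRoot.powerBasis_dim]
  · rw [← AdjoinRoot.mk_eq_zero, ← AdjoinRoot.aeval_eq, Polynomial.aeval_comp]
    exact minpoly.aeval _ _

/-- Sets of monic irreducible polynomials. -/
def MI (s : Finset ℚ[X]) : Prop := ∀ p ∈ s, p.Monic ∧ Irreducible p

lemma MI.separable {s : Finset ℚ[X]} (hs : MI s) : (∏ p ∈ s, p).Separable := by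
  refine Polynomial.separable_prod' ?_ ?_
  · intro p hp q hq hpq
    rcases (hs p hp).2.isCoprime_or_dvd q with h | h
    · exact h
    · exfalso
      apply hpq
      have hass : Associated p q :=
        (hs p hp).2.associated_of_dvd (hs q hq).2 h
      exact Polynomial.eq_of_monic_of_associated (hs p hp).1 (hs q hq).1 hass
  · intro p hp
    exact (hs p hp).2.separable

variable {K : Type*} [Field K] [NumberField K]

/-- Belyi's theorem, in the form in which it is needed. -/
lemma VQ_algebraic (hbase : VV (X * (X - 1) : K[X])) :
    ∀ (n : ℕ), 1 ≤ n → ∀ (k : ℕ) (s : Finset ℚ[X]), MI s → (∀ p ∈ s, p.natDegree ≤ n) →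
      (s.filter fun p => p.natDegree = n).card ≤ k → VQ K (∏ p ∈ s, p) := by
  classical
  intro n
  induction n with
  | zero => intro h; omega
  | succ n ihn =>
    intro _
    rcases Nat.eq_zero_or_pos n with hn0 | hnpos
    · -- rational points
      subst hn0
      intro k s hs hdeg _
      have hlin : ∀ p ∈ s, p = X - C (-p.coeff 0) := by
        intro p hp
        have h1 : p.natDegree = 1 := by
          have h2 := (hs p hp).2.natDegree_pos
          have h3 := hdeg p hp
          omega
        have h2 := (hs p hp).1
        rw [Polynomial.Monic, Polynomial.leadingCoeff, h1] at h2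
        conv_lhs => rw [Polynomial.eq_X_add_C_of_natDegree_le_one (le_of_eq h1)]
        rw [h2]
        simp
      have hprod : ∏ p ∈ s, p = PD (s.image fun p => -p.coeff 0) := by
        unfold PD
        rw [Finset.prod_image]
        · exact Finset.prod_congr rfl hlin
        · intro p hp q hq hpq
          have hpq' : -p.coeff 0 = -q.coeff 0 := hpq
          rw [hlin p hp, hlin q hq, hpq']
      rw [hprod]
      exact VQ_rational hbase _ _ le_rfl
    · intro k
      induction k with
      | zero =>
        intro s hs hdeg hk
        have hempty : s.filter (fun p => p.natDegree = n + 1) = ∅ :=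
          Finset.card_eq_zero.mp (by omega)
        refine ihn hnpos _ s hs ?_ le_rfl
        intro p hp
        have h1 := hdeg p hp
        have h2 : p.natDegree ≠ n + 1 := by
          intro h
          have : p ∈ s.filter (fun p => p.natDegree = n + 1) := Finset.mem_filter.mpr ⟨hp, h⟩
          rw [hempty] at this
          simp at this
        omega
      | succ k ihk =>
        intro s hs hdeg hk
        by_cases hne : (s.filter fun p => p.natDegree = n + 1).Nonempty
        swap
        · rw [Finset.not_nonempty_iff_eq_empty] at hne
          refine ihk s hs hdeg ?_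
          rw [hne]
          simp
        obtain ⟨p0, hp0⟩ := hne
        rw [Finset.mem_filter] at hp0
        obtain ⟨hp0s, hp0deg⟩ := hp0
        have hp0irr := (hs p0 hp0s).2
        have hp0m := (hs p0 hp0s).1
        choose! f hfm hfi hfd hfc using fun (p : ℚ[X]) (hp : Irreducible p) => exists_push p0 p hp
        have hder0 : derivative p0 ≠ 0 := by
          intro h
          have := Polynomial.derivative_eq_zero.mp h
          omega
        set N := (UniqueFactorizationMonoid.normalizedFactors (derivative p0)).toFinset with hN
        have hNirr : ∀ r ∈ N, Irreducible r := by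
          intro r hr
          rw [hN, Multiset.mem_toFinset] at hr
          exact UniqueFactorizationMonoid.irreducible_of_normalized_factor r hr
        have hNdeg : ∀ r ∈ N, r.natDegree ≤ n := by
          intro r hr
          rw [hN, Multiset.mem_toFinset] at hr
          have h1 := UniqueFactorizationMonoid.dvd_of_mem_normalizedFactors hr
          have h2 := Polynomial.natDegree_le_of_dvd h1 hder0
          have h3 := Polynomial.natDegree_derivative_le p0
          omega
        set s1 : Finset ℚ[X] := ((s.erase p0).image f ∪ N.image f) ∪ {X, X - 1} with hs1
        have hXirr : Irreducible (X : ℚ[X]) := Polynomial.irreducible_X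
        have hX1irr : Irreducible (X - 1 : ℚ[X]) := by
          have := Polynomial.irreducible_X_sub_C (1 : ℚ)
          simpa using this
        have hX1m : (X - 1 : ℚ[X]).Monic := by
          have := Polynomial.monic_X_sub_C (1 : ℚ)
          simpa using this
        have hX1deg : (X - 1 : ℚ[X]).natDegree = 1 := by
          have := Polynomial.natDegree_X_sub_C (1 : ℚ)
          simpa using this
        have hs1MI : MI s1 := by
          intro q hq
          rw [hs1, Finset.mem_union, Finset.mem_union] at hq
          rcases hq with (hq | hq) | hq
          · rw [Finset.mem_image] at hq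
            obtain ⟨p, hp, rfl⟩ := hq
            have hirr := (hs p (Finset.mem_of_mem_erase hp)).2
            exact ⟨hfm p hirr, hfi p hirr⟩
          · rw [Finset.mem_image] at hq
            obtain ⟨p, hp, rfl⟩ := hq
            exact ⟨hfm p (hNirr p hp), hfi p (hNirr p hp)⟩
          · rw [Finset.mem_insert, Finset.mem_singleton] at hq
            rcases hq with rfl | rfl
            · exact ⟨Polynomial.monic_X, hXirr⟩
            · exact ⟨hX1m, hX1irr⟩
        have hs1deg : ∀ q ∈ s1, q.natDegree ≤ n + 1 := by
          intro q hq
          rw [hs1, Finset.mem_union, Finset.mem_union] at hq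
          rcases hq with (hq | hq) | hq
          · rw [Finset.mem_image] at hq
            obtain ⟨p, hp, rfl⟩ := hq
            have hps := Finset.mem_of_mem_erase hp
            exact (hfd p (hs p hps).2).trans (hdeg p hps)
          · rw [Finset.mem_image] at hq
            obtain ⟨p, hp, rfl⟩ := hq
            have := hfd p (hNirr p hp)
            have := hNdeg p hp
            omega
          · rw [Finset.mem_insert, Finset.mem_singleton] at hq
            rcases hq with rfl | rfl
            · rw [Polynomial.natDegree_X]
              omega
            · rw [hX1deg]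
              omega
        have hs1card : (s1.filter fun p => p.natDegree = n + 1).card ≤ k := by
          have hsub : (s1.filter fun p => p.natDegree = n + 1) ⊆
              ((s.filter fun p => p.natDegree = n + 1).erase p0).image f := by
            intro q hq
            rw [Finset.mem_filter] at hq
            obtain ⟨hq, hqd⟩ := hq
            rw [hs1, Finset.mem_union, Finset.mem_union] at hq
            rcases hq with (hq | hq) | hq
            · rw [Finset.mem_image] at hq
              obtain ⟨p, hp, rfl⟩ := hq
              have hps := Finset.mem_of_mem_erase hp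
              rw [Finset.mem_image]
              refine ⟨p, ?_, rfl⟩
              rw [Finset.mem_erase, Finset.mem_filter]
              refine ⟨(Finset.mem_erase.mp hp).1, hps, ?_⟩
              have h1 := hfd p (hs p hps).2
              have h2 := hdeg p hps
              omega
            · exfalso
              rw [Finset.mem_image] at hq
              obtain ⟨p, hp, rfl⟩ := hq
              have := hfd p (hNirr p hp)
              have := hNdeg p hp
              omega
            · exfalso
              rw [Finset.mem_insert, Finset.mem_singleton] at hq
              rcases hq with rfl | rfl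
              · rw [Polynomial.natDegree_X] at hqd
                omega
              · rw [hX1deg] at hqd
                omega
          refine (Finset.card_le_card hsub).trans (Finset.card_image_le.trans ?_)
          rw [Finset.card_erase_of_mem (Finset.mem_filter.mpr ⟨hp0s, hp0deg⟩)]
          omega
        have hV := ihk s1 hs1MI hs1deg hs1card
        have hs1sep := hs1MI.separable
        have hXs1 : X ∈ s1 := by
          rw [hs1, Finset.mem_union]
          right
          simp
        have hX1s1 : X - 1 ∈ s1 := by
          rw [hs1, Finset.mem_union]
          right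
          simp
        have hs1two : 2 ≤ (∏ p ∈ s1, p).natDegree := by
          rw [Polynomial.natDegree_prod_of_monic _ _ fun i hi => (hs1MI i hi).1]
          have hne : (X : ℚ[X]) ≠ X - 1 := by
            intro h
            have := congrArg (Polynomial.eval 0) h
            simp at this
          have hsub : ({X, X - 1} : Finset ℚ[X]) ⊆ s1 := by
            intro q hq
            rw [Finset.mem_insert, Finset.mem_singleton] at hq
            rcases hq with rfl | rfl
            · exact hXs1
            · exact hX1s1
          refine le_trans ?_ (Finset.sum_le_sum_of_subset hsub)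
          rw [Finset.sum_pair hne, Polynomial.natDegree_X, hX1deg]
        -- values
        have hval : ∀ (q : ℚ[X]) (β : AlgebraicClosure K), (∃ t ∈ s1, q ∣ t.comp p0) →
            aeval β q = 0 → aeval (aeval β p0) (∏ p ∈ s1, p) = 0 := by
          rintro q β ⟨t, ht, hqt⟩ hq
          rw [map_prod]
          refine Finset.prod_eq_zero ht ?_
          rw [← Polynomial.aeval_comp]
          obtain ⟨c, hc⟩ := hqt
          rw [hc, map_mul, hq, zero_mul]
        refine VQ.pull (A := p0) hV hs1sep hs1two (by omega) ?_ hs.separable ?_
        · intro β hβ
          have hprod := UniqueFactorizationMonoid.prod_normalizedFactors_eq hder0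
          -- some normalized factor vanishes at β
          have hex : ∃ r ∈ N, aeval β r = 0 := by
            have h1 : aeval β (UniqueFactorizationMonoid.normalizedFactors
                (derivative p0)).prod = 0 := by
              have hass := UniqueFactorizationMonoid.prod_normalizedFactors hder0
              obtain ⟨c, hc⟩ := hass.symm
              rw [← hc, map_mul, hβ, zero_mul]
            rw [map_multiset_prod, Multiset.prod_eq_zero_iff, Multiset.mem_map] at h1
            obtain ⟨r, hr, hr0⟩ := h1
            exact ⟨r, by rw [hN, Multiset.mem_toFinset]; exact hr, hr0⟩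
          obtain ⟨r, hr, hr0⟩ := hex
          refine hval r β ⟨f r, ?_, hfc r (hNirr r hr)⟩ hr0
          rw [hs1, Finset.mem_union, Finset.mem_union]
          exact Or.inl (Or.inr (Finset.mem_image_of_mem f hr))
        · intro β hβ
          rw [map_prod, Finset.prod_eq_zero_iff] at hβ
          obtain ⟨p, hp, hp0'⟩ := hβ
          by_cases hpp : p = p0
          · refine hval p β ⟨X, hXs1, ?_⟩ hp0'
            rw [hpp, Polynomial.X_comp]
          · refine hval p β ⟨f p, ?_, hfc p (hs p hp).2⟩ hp0'
            rw [hs1, Finset.mem_union, Finset.mem_union]
            exact Or.inl (Or.inl (Finset.mem_image_of_mem f (Finset.mem_erase.mpr ⟨hpp, hp⟩)))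

/-- The inequality for any finite set of points of `K` and the point at infinity. -/
lemma VV_points (hbase : VV (X * (X - 1) : K[X])) {ι : Type*} (I : Finset ι) (β : ι → K)
    (hinj : ∀ i ∈ I, ∀ j ∈ I, β i = β j → i = j) : VV (∏ i ∈ I, (X - C (β i))) := by
  classical
  set s : Finset ℚ[X] := I.image fun i => minpoly ℚ (β i) with hs
  have hint : ∀ i, IsIntegral ℚ (β i) := fun i => Algebra.IsIntegral.isIntegral _
  have hMI : MI s := by
    intro p hp
    rw [hs, Finset.mem_image] at hp
    obtain ⟨i, _, rfl⟩ := hp
    exact ⟨minpoly.monic (hint i), minpoly.irreducible (hint i)⟩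
  have hV : VQ K (∏ p ∈ s, p) := by
    refine VQ_algebraic hbase (s.sup natDegree + 1) (by omega) _ s hMI ?_ le_rfl
    intro p hp
    have : p.natDegree ≤ s.sup natDegree := Finset.le_sup (f := natDegree) hp
    omega
  have hne : (∏ p ∈ s, p) ≠ 0 := hMI.separable.ne_zero
  refine VV.of_dvd (P := (∏ p ∈ s, p).map (algebraMap ℚ K)) ?_ ?_ hV
  · rwa [Ne, Polynomial.map_eq_zero]
  · refine Finset.prod_dvd_of_coprime ?_ ?_
    · intro i hi j hj hij
      refine Polynomial.isCoprime_X_sub_C_of_isUnit_sub ?_
      rw [isUnit_iff_ne_zero, sub_ne_zero]
      exact fun h => hij (hinj i hi j hj h)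
    · intro i hi
      rw [Polynomial.dvd_iff_isRoot, Polynomial.IsRoot.def, Polynomial.eval_map_algebraMap,
        map_prod]
      refine Finset.prod_eq_zero (i := minpoly ℚ (β i)) ?_ (minpoly.aeval _ _)
      rw [hs, Finset.mem_image]
      exact ⟨i, hi, rfl⟩

end Pool.Agent.Lib.MP_4d5ce1_nt.Red
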