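import Mathlib

set_option autoImplicit false

open Filter Topology

namespace Pool.Agent.Lib.MP_4d5ce1_nt.Red

/-- The open condition on projective coordinates. -/
def condSet {ι : Type*} (η : ℝ) (m : ℕ) : Set (ι → ℂ × ℂ) :=
  {p | ∀ i, ‖(p i).1 ^ m‖ < η * ‖(p i).2 ^ m‖ ∨ ‖(p i).2 ^ m‖ < η * ‖(p i).1 ^ m‖ ∨
    ‖(p i).1 ^ m - (p i).2 ^ m‖ < η * ‖(p i).2 ^ m‖}

lemma condSet_isOpen {ι : Type*} [Finite ι] (η : ℝ) (m : ℕ) :
    IsOpen (condSet (ι := ι) η m) := by
  have : condSet (ι := ι) η m = ⋂ i, ({p | ‖(p i).1 ^ m‖ < η * ‖(p i).2 ^ m‖} ∪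
      ({p | ‖(p i).2 ^ m‖ < η * ‖(p i).1 ^ m‖} ∪
        {p | ‖(p i).1 ^ m - (p i).2 ^ m‖ < η * ‖(p i).2 ^ m‖})) := by
    ext p
    simp only [condSet, Set.mem_ofPred_eq, Set.mem_iInter, Set.mem_union]
  rw [this]
  refine isOpen_iInter_of_finite fun i => ?_
  refine IsOpen.union ?_ (IsOpen.union ?_ ?_)
  · exact isOpen_lt (by fun_prop) (by fun_prop)
  · exact isOpen_lt (by fun_prop) (by fun_prop)
  · exact isOpen_lt (by fun_prop) (by fun_prop)

lemma exists_mem_condSet {ι : Type*} [Finite ι] {η : ℝ} (hη : 0 < η) (p : ι → ℂ × ℂ)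
    (hp : ∀ i, ‖p i‖ = 1) : ∃ m, 1 ≤ m ∧ p ∈ condSet η m := by
  classical
  have := Fintype.ofFinite ι
  -- the unit complex numbers
  have hex : ∀ i, ∃ ζ : Circle, ‖(p i).1 / (p i).2‖ = 1 → (ζ : ℂ) = (p i).1 / (p i).2 := by
    intro i
    by_cases h : ‖(p i).1 / (p i).2‖ = 1
    · exact ⟨⟨(p i).1 / (p i).2, mem_sphere_zero_iff_norm.mpr h⟩, fun _ => rfl⟩
    · exact ⟨1, fun h' => absurd h' h⟩
  choose ζ hζ' using hex
  have hclust := mapClusterPt_one_atTop_pow ζ
  have hnhds : {x : ι → Circle | ∀ i, ‖((x i : Circle) : ℂ) - 1‖ < η} ∈ 𝓝 (1 : ι → Circle) := by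
    have hopen : IsOpen {x : ι → Circle | ∀ i, ‖((x i : Circle) : ℂ) - 1‖ < η} := by
      have : {x : ι → Circle | ∀ i, ‖((x i : Circle) : ℂ) - 1‖ < η} =
          ⋂ i, {x : ι → Circle | ‖((x i : Circle) : ℂ) - 1‖ < η} := by
        ext x
        simp
      rw [this]
      refine isOpen_iInter_of_finite fun i => isOpen_lt (by fun_prop) (by fun_prop)
    refine hopen.mem_nhds ?_
    intro i
    simpa using hη
  have hfreq := hclust.frequently hnhds
  -- the eventual conditions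
  have hev : ∀ᶠ m : ℕ in atTop, ∀ i, ‖(p i).1‖ ≠ ‖(p i).2‖ →
      (‖(p i).1 ^ m‖ < η * ‖(p i).2 ^ m‖ ∨ ‖(p i).2 ^ m‖ < η * ‖(p i).1 ^ m‖) := by
    rw [eventually_all]
    intro i
    have key : ∀ a b : ℝ, 0 ≤ a → a < b → ∀ᶠ m : ℕ in atTop, a ^ m < η * b ^ m := by
      intro a b ha hab
      have hb : 0 < b := lt_of_le_of_lt ha hab
      have h1 : Tendsto (fun m : ℕ => (a / b) ^ m) atTop (𝓝 0) :=
        tendsto_pow_atTop_nhds_zero_of_lt_one (by positivity) ((div_lt_one hb).mpr hab)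
      filter_upwards [h1.eventually (gt_mem_nhds hη)] with m hm
      rw [div_pow, div_lt_iff₀ (pow_pos hb m)] at hm
      exact hm
    rcases lt_trichotomy ‖(p i).1‖ ‖(p i).2‖ with h | h | h
    · filter_upwards [key _ _ (norm_nonneg _) h] with m hm _
      left
      rw [norm_pow, norm_pow]
      exact hm
    · exact Eventually.of_forall fun m hne => absurd h hne
    · filter_upwards [key _ _ (norm_nonneg _) h] with m hm _
      right
      rw [norm_pow, norm_pow]
      exact hm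
  obtain ⟨m, hm1, hm2, hm3⟩ := (hfreq.and_eventually (hev.and (eventually_ge_atTop 1))).exists
  refine ⟨m, hm3, ?_⟩
  intro i
  by_cases hne : ‖(p i).1‖ = ‖(p i).2‖
  · right; right
    have h2 : ‖(p i).2‖ = 1 := by
      have := hp i
      rw [Prod.norm_def, hne, max_self] at this
      exact this
    have h2' : (p i).2 ≠ 0 := by
      intro h0
      rw [h0, norm_zero] at h2
      exact zero_ne_one h2
    have hq : ‖(p i).1 / (p i).2‖ = 1 := by
      rw [norm_div, hne, h2, div_one]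
    have hζ : ((ζ i : Circle) : ℂ) = (p i).1 / (p i).2 := hζ' i hq
    have := hm1 i
    simp only [Pi.pow_apply, Circle.coe_pow, hζ] at this
    have e : (p i).1 ^ m - (p i).2 ^ m = (((p i).1 / (p i).2) ^ m - 1) * (p i).2 ^ m := by
      rw [div_pow, sub_mul, div_mul_cancel₀ _ (pow_ne_zero m h2'), one_mul]
    rw [e, norm_mul]
    refine mul_lt_mul_of_pos_right this ?_
    rw [norm_pow, h2, one_pow]
    exact one_pos
  · rcases hm2 i hne with h | h
    · left; exact h
    · right; left; exact h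

/-- A bounded power of any tuple of complex numbers is close to `0, 1` or `∞` in every
coordinate. -/
lemma arch_close (ι : Type*) [Finite ι] {η : ℝ} (hη : 0 < η) :
    ∃ M : ℕ, ∀ z : ι → ℂ, ∃ m, 1 ≤ m ∧ m ≤ M ∧
      ∀ i, ‖z i ^ m‖ < η ∨ η⁻¹ < ‖z i ^ m‖ ∨ ‖z i ^ m - 1‖ < η := by
  classical
  have := Fintype.ofFinite ι
  have hcomp : IsCompact (Set.pi Set.univ fun _ : ι => Metric.sphere (0 : ℂ × ℂ) 1) :=
    isCompact_univ_pi fun _ => isCompact_sphere _ _
  obtain ⟨t, ht⟩ := hcomp.elim_finite_subcover (fun m : ℕ => condSet (ι := ι) η (m + 1))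
    (fun m => condSet_isOpen η (m + 1)) (by
      intro p hp
      have hp' : ∀ i, ‖p i‖ = 1 := by
        intro i
        have := hp i (Set.mem_univ i)
        simpa using this
      obtain ⟨m, hm1, hm⟩ := exists_mem_condSet hη p hp'
      rw [Set.mem_iUnion]
      refine ⟨m - 1, ?_⟩
      rw [Nat.sub_add_cancel hm1]
      exact hm)
  refine ⟨t.sup id + 1, ?_⟩
  intro z
  let c : ι → ℝ := fun i => (max ‖z i‖ 1)⁻¹
  have hc : ∀ i, 0 < c i := fun i =>
    inv_pos.mpr (lt_of_lt_of_le one_pos (le_max_right _ _))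
  let p : ι → ℂ × ℂ := fun i => (((c i : ℝ) : ℂ) * z i, ((c i : ℝ) : ℂ))
  have hp : p ∈ Set.pi Set.univ fun _ : ι => Metric.sphere (0 : ℂ × ℂ) 1 := by
    intro i _
    rw [mem_sphere_zero_iff_norm, Prod.norm_def]
    simp only [p, norm_mul, Complex.norm_real, Real.norm_eq_abs, abs_of_pos (hc i)]
    have hm : 0 < max ‖z i‖ 1 := lt_of_lt_of_le one_pos (le_max_right _ _)
    have : max (c i * ‖z i‖) (c i) = c i * max ‖z i‖ 1 := by
      rw [mul_max_of_nonneg _ _ (hc i).le, mul_one]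
    rw [this]
    exact inv_mul_cancel₀ hm.ne'
  have hmem := ht hp
  rw [Set.mem_iUnion₂] at hmem
  obtain ⟨m, hmt, hm⟩ := hmem
  refine ⟨m + 1, by omega, ?_, ?_⟩
  · have : id m ≤ t.sup id := Finset.le_sup hmt
    simp only [id] at this
    omega
  · intro i
    have h := hm i
    simp only [p, mul_pow, norm_mul, norm_pow, Complex.norm_real, Real.norm_eq_abs,
      abs_of_pos (hc i)] at h
    have hcp : 0 < c i ^ (m + 1) := pow_pos (hc i) _
    rcases h with h | h | h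
    · left
      rw [norm_pow]
      have : c i ^ (m + 1) * ‖z i‖ ^ (m + 1) < c i ^ (m + 1) * η := by linarith
      exact lt_of_mul_lt_mul_left this hcp.le
    · right; left
      rw [norm_pow]
      have : c i ^ (m + 1) * 1 < c i ^ (m + 1) * (η * ‖z i‖ ^ (m + 1)) := by
        calc c i ^ (m + 1) * 1 = c i ^ (m + 1) := mul_one _
          _ < η * (c i ^ (m + 1) * ‖z i‖ ^ (m + 1)) := h
          _ = _ := by ring
      have h2 := lt_of_mul_lt_mul_left this hcp.le
      rw [inv_lt_iff_one_lt_mul₀ hη, mul_comm]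
      exact h2
    · right; right
      have e : ((c i : ℝ) : ℂ) ^ (m + 1) * z i ^ (m + 1) - ((c i : ℝ) : ℂ) ^ (m + 1) =
          ((c i : ℝ) : ℂ) ^ (m + 1) * (z i ^ (m + 1) - 1) := by ring
      rw [e, norm_mul, norm_pow, Complex.norm_real, Real.norm_eq_abs, abs_of_pos (hc i)] at h
      have : c i ^ (m + 1) * ‖z i ^ (m + 1) - 1‖ < c i ^ (m + 1) * η := by linarith
      exact lt_of_mul_lt_mul_left this hcp.le

end Pool.Agent.Lib.MP_4d5ce1_nt.Red
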