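import Pool.Agent.Lib.MP_4d5ce1_nt.Basic

set_option autoImplicit false

open NumberField IsDedekindDomain

namespace Pool.Agent.Lib.MP_4d5ce1_nt.Red

variable {K : Type*} [Field K] [NumberField K]

lemma fa_lt_one {v : HeightOneSpectrum (𝓞 K)} {x : K} (h : fa v x < 1) :
    fa v x ≤ (nv v)⁻¹ := by
  by_cases hx : x = 0
  · subst hx
    rw [fa_zero]
    exact inv_nonneg.mpr (nv_pos v).le
  rw [fa_eq v hx] at h ⊢
  have h1 : 1 ≤ ordv v x := by
    by_contra hcon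
    have : 1 ≤ nv v ^ (-ordv v x) := one_le_zpow₀ (one_lt_nv v).le (by omega)
    linarith
  calc nv v ^ (-ordv v x) ≤ nv v ^ (-1 : ℤ) :=
        zpow_le_zpow_right₀ (one_lt_nv v).le (by omega)
    _ = (nv v)⁻¹ := zpow_neg_one _

lemma one_lt_fa {v : HeightOneSpectrum (𝓞 K)} {x : K} (h : 1 < fa v x) : nv v ≤ fa v x := by
  have hx : x ≠ 0 := by
    rintro rfl
    rw [fa_zero] at h
    linarith
  have h2 : fa v x⁻¹ < 1 := by
    rw [fa_inv]
    exact inv_lt_one_of_one_lt₀ h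
  have h3 := fa_lt_one h2
  rw [fa_inv] at h3
  exact (inv_le_inv₀ (by linarith) (nv_pos v)).mp h3

lemma fa_int (v : HeightOneSpectrum (𝓞 K)) (a : 𝓞 K) : fa v (a : K) ≤ 1 := by
  unfold fa
  rw [FinitePlace.mk_apply]
  exact FinitePlace.norm_le_one K v a

lemma fa_int_lt (v : HeightOneSpectrum (𝓞 K)) (a : 𝓞 K) :
    fa v (a : K) < 1 ↔ a ∈ v.asIdeal := by
  unfold fa
  rw [FinitePlace.mk_apply]
  exact FinitePlace.norm_lt_one_iff_mem K v a

/-- The norm as a natural number. -/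
noncomputable def nn (v : HeightOneSpectrum (𝓞 K)) : ℕ := Ideal.absNorm v.asIdeal

lemma nn_cast (v : HeightOneSpectrum (𝓞 K)) : (nn v : ℝ) = nv v := rfl

lemma two_le_nn (v : HeightOneSpectrum (𝓞 K)) : 2 ≤ nn v := by
  have := two_le_nv v
  rw [← nn_cast] at this
  exact_mod_cast this

lemma fa_nn_lt (v : HeightOneSpectrum (𝓞 K)) : fa v ((nn v : ℕ) : K) < 1 := by
  have h := (fa_int_lt v ((nn v : ℕ) : 𝓞 K)).mpr (Ideal.absNorm_mem v.asIdeal)
  simpa using h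

/-- Fermat for integers of `K`. -/
lemma pow_sub_one_mem (v : HeightOneSpectrum (𝓞 K)) (a : 𝓞 K) (ha : a ∉ v.asIdeal) :
    a ^ (nn v - 1) - 1 ∈ v.asIdeal := by
  have hmax : v.asIdeal.IsMaximal := v.isMaximal
  have hfin : Finite (𝓞 K ⧸ v.asIdeal) := by
    apply Ideal.finiteQuotientOfFreeOfNeBot
    exact v.ne_bot
  let _ : Field (𝓞 K ⧸ v.asIdeal) := Ideal.Quotient.field v.asIdeal
  let _ : Fintype (𝓞 K ⧸ v.asIdeal) := Fintype.ofFinite _
  have hcard : Fintype.card (𝓞 K ⧸ v.asIdeal) = nn v := by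
    unfold nn
    rw [Ideal.absNorm_apply, Submodule.cardQuot_apply, Nat.card_eq_fintype_card]
  have hne : (Ideal.Quotient.mk v.asIdeal a) ≠ 0 := by
    rw [Ne, Ideal.Quotient.eq_zero_iff_mem]
    exact ha
  have h := FiniteField.pow_card_sub_one_eq_one _ hne
  rw [hcard] at h
  rw [← Ideal.Quotient.eq_zero_iff_mem, map_sub, map_pow, map_one, sub_eq_zero]
  exact h

/-- Fermat for `v`-adic units of `K`. -/
lemma fermat (v : HeightOneSpectrum (𝓞 K)) {y : K} (hy : fa v y = 1) :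
    fa v (y ^ (nn v - 1) - 1) < 1 := by
  have hy0 : y ≠ 0 := by
    rintro rfl
    rw [fa_zero] at hy
    exact zero_ne_one hy
  have hval : v.valuation K y ≤ 1 := by
    have h := (fa_eq_one_iff v hy0).mp hy
    unfold ordv at h
    have hne : v.valuation K y ≠ 0 := (Valuation.ne_zero_iff _).mpr hy0
    have h2 : WithZero.log (v.valuation K y) = 0 := by omega
    rw [← WithZero.log_le_log hne one_ne_zero, h2, WithZero.log_one]
  obtain ⟨n, d, hnd⟩ := v.exists_primeCompl_mul_eq_of_integer y hval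
  have hd : (d : 𝓞 K) ∉ v.asIdeal := d.2
  have hd1 : fa v ((d : 𝓞 K) : K) = 1 := by
    apply le_antisymm (fa_int v _)
    by_contra hcon
    exact hd ((fa_int_lt v _).mp (not_le.mp hcon))
  have hd0 : ((d : 𝓞 K) : K) ≠ 0 := by
    intro h0
    rw [h0, fa_zero] at hd1
    exact zero_ne_one hd1
  have hn1 : fa v (n : K) = 1 := by
    have : (n : K) = y * ((d : 𝓞 K) : K) := hnd.symm
    rw [this, fa_mul, hy, hd1, one_mul]
  have hn : n ∉ v.asIdeal := by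
    intro hmem
    have := (fa_int_lt v n).mpr hmem
    linarith
  have hyeq : y = (n : K) / ((d : 𝓞 K) : K) := by
    rw [eq_div_iff hd0]
    exact hnd
  have e : y ^ (nn v - 1) - 1 =
      (((n ^ (nn v - 1) - 1 : 𝓞 K) : K) - (((d : 𝓞 K) ^ (nn v - 1) - 1 : 𝓞 K) : K)) /
        ((d : 𝓞 K) : K) ^ (nn v - 1) := by
    rw [hyeq, div_pow]
    push_cast
    field_simp
    ring
  rw [e, fa_div, fa_pow, hd1, one_pow, div_one]
  refine lt_of_le_of_lt (fa_sub_le _ _ _) (max_lt ?_ ?_)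
  · exact (fa_int_lt v _).mpr (pow_sub_one_mem v n hn)
  · exact (fa_int_lt v _).mpr (pow_sub_one_mem v _ hd)

lemma fa_geom_le (v : HeightOneSpectrum (𝓞 K)) {x : K} (hx : fa v x ≤ 1) (m : ℕ) :
    fa v (∑ i ∈ Finset.range m, x ^ i) ≤ 1 := by
  refine fa_sum_le v _ _ 1 zero_le_one ?_
  intro i _
  rw [fa_pow]
  exact pow_le_one₀ (fa_nonneg _ _) hx

lemma fa_pow_sub_one_le (v : HeightOneSpectrum (𝓞 K)) {x : K} (hx : fa v x ≤ 1) (m : ℕ) :
    fa v (x ^ m - 1) ≤ fa v (x - 1) := by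
  rw [← geom_sum_mul, fa_mul]
  exact mul_le_of_le_one_left (fa_nonneg _ _) (fa_geom_le v hx m)

lemma fa_le_one_of_sub {v : HeightOneSpectrum (𝓞 K)} {x : K} (h : fa v (x - 1) < 1) :
    fa v x ≤ 1 := by
  have : x = (x - 1) + 1 := by ring
  rw [this]
  refine (fa_add_le _ _ _).trans (max_le h.le ?_)
  rw [fa_one]

lemma improve (v : HeightOneSpectrum (𝓞 K)) {x : K} (h : fa v (x - 1) < 1) :
    fa v (x ^ (nn v) - 1) ≤ (nv v)⁻¹ * fa v (x - 1) := by
  have hx := fa_le_one_of_sub h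
  rw [← geom_sum_mul, fa_mul]
  refine mul_le_mul_of_nonneg_right ?_ (fa_nonneg _ _)
  have e : ∑ i ∈ Finset.range (nn v), x ^ i =
      ∑ i ∈ Finset.range (nn v), (x ^ i - 1) + ((nn v : ℕ) : K) := by
    rw [Finset.sum_sub_distrib]
    simp
  rw [e]
  refine (fa_add_le _ _ _).trans (max_le ?_ (fa_lt_one (fa_nn_lt v)))
  refine fa_sum_le v _ _ _ (inv_nonneg.mpr (nv_pos v).le) ?_
  intro i _
  exact (fa_pow_sub_one_le v hx i).trans (fa_lt_one h)

lemma iter (v : HeightOneSpectrum (𝓞 K)) {x : K} (h : fa v (x - 1) < 1) (j : ℕ) :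
    fa v (x ^ (nn v ^ j) - 1) ≤ (nv v)⁻¹ ^ (j + 1) := by
  have hn0 : (0:ℝ) ≤ (nv v)⁻¹ := inv_nonneg.mpr (nv_pos v).le
  have hn1 : (nv v)⁻¹ < 1 := inv_lt_one_of_one_lt₀ (one_lt_nv v)
  induction j with
  | zero =>
    rw [pow_zero, pow_one, zero_add, pow_one]
    exact fa_lt_one h
  | succ j ih =>
    have hlt : fa v (x ^ (nn v ^ j) - 1) < 1 :=
      lt_of_le_of_lt ih (pow_lt_one₀ hn0 hn1 (by omega))
    have := improve v hlt
    rw [← pow_mul, ← pow_succ] at this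
    refine this.trans ?_
    calc (nv v)⁻¹ * fa v (x ^ (nn v ^ j) - 1) ≤ (nv v)⁻¹ * (nv v)⁻¹ ^ (j + 1) :=
          mul_le_mul_of_nonneg_left ih hn0
      _ = _ := by ring

/-- Powers of elements of `K` at finitely many finite places. -/
lemma fin_close {T : Set (HeightOneSpectrum (𝓞 K))} (hT : T.Finite) {η : ℝ} (hη : 0 < η) :
    ∃ E : ℕ, 1 ≤ E ∧ ∀ y : K, y ≠ 0 → ∀ m, 1 ≤ m → ∀ v ∈ T,
      fa v (y ^ (E * m)) < η ∨ η⁻¹ < fa v (y ^ (E * m)) ∨ fa v (y ^ (E * m) - 1) < η := by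
  classical
  -- choose j
  obtain ⟨j, hj⟩ := exists_pow_lt_of_lt_one hη (show ((2:ℝ)⁻¹) < 1 by norm_num)
  let F := hT.toFinset
  let e : HeightOneSpectrum (𝓞 K) → ℕ := fun v => (nn v - 1) * nn v ^ j
  have he : ∀ v, 1 ≤ e v := by
    intro v
    have := two_le_nn v
    have h1 : 1 ≤ nn v - 1 := by omega
    have h2 : 1 ≤ nn v ^ j := Nat.one_le_pow _ _ (by omega)
    exact Nat.one_le_iff_ne_zero.mpr (Nat.mul_ne_zero (by omega) (by omega))
  have hE : 1 ≤ ∏ v ∈ F, e v := Finset.one_le_prod' fun v _ => he v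
  refine ⟨(∏ v ∈ F, e v) * (j + 1), Nat.one_le_iff_ne_zero.mpr
    (Nat.mul_ne_zero (by omega) (by omega)), ?_⟩
  intro y hy m hm v hv
  have hvF : v ∈ F := hT.mem_toFinset.mpr hv
  set N := (∏ v ∈ F, e v) * (j + 1) * m with hN
  have hNj : j ≤ N := by
    have h1 : j + 1 ≤ (∏ v ∈ F, e v) * (j + 1) := Nat.le_mul_of_pos_left _ (by omega)
    have h2 : (∏ v ∈ F, e v) * (j + 1) ≤ N := Nat.le_mul_of_pos_right _ (by omega)
    omega
  have hinv : (nv v)⁻¹ ≤ (2:ℝ)⁻¹ := (inv_le_inv₀ (nv_pos v) (by norm_num)).mpr (two_le_nv v)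
  have hinv0 : (0:ℝ) ≤ (nv v)⁻¹ := inv_nonneg.mpr (nv_pos v).le
  have hsmall : (nv v)⁻¹ ^ N < η := by
    calc (nv v)⁻¹ ^ N ≤ ((2:ℝ)⁻¹) ^ N := pow_le_pow_left₀ hinv0 hinv _
      _ ≤ ((2:ℝ)⁻¹) ^ j := pow_le_pow_of_le_one (by norm_num) (by norm_num) hNj
      _ < η := hj
  rcases lt_trichotomy (fa v y) 1 with h | h | h
  · left
    rw [fa_pow]
    exact lt_of_le_of_lt (pow_le_pow_left₀ (fa_nonneg _ _) (fa_lt_one h) _) hsmall
  · right; right
    have hdvd : e v ∣ N := by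
      rw [hN]
      exact Dvd.dvd.mul_right (Dvd.dvd.mul_right (Finset.dvd_prod_of_mem _ hvF) _) _
    obtain ⟨r, hr⟩ := hdvd
    rw [hr, pow_mul]
    have h1 : fa v (y ^ e v) ≤ 1 := by
      rw [fa_pow, h, one_pow]
    refine lt_of_le_of_lt (fa_pow_sub_one_le v h1 r) ?_
    have h2 := iter v (fermat v h) j
    rw [← pow_mul] at h2
    refine lt_of_le_of_lt h2 ?_
    calc (nv v)⁻¹ ^ (j + 1) ≤ ((2:ℝ)⁻¹) ^ (j + 1) := pow_le_pow_left₀ hinv0 hinv _
      _ ≤ ((2:ℝ)⁻¹) ^ j := pow_le_pow_of_le_one (by norm_num) (by norm_num) (by omega)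
      _ < η := hj
  · right; left
    rw [fa_pow]
    have h1 := one_lt_fa h
    have h2 : η⁻¹ < (nv v) ^ N := by
      rw [inv_pow] at hsmall
      rw [inv_lt_comm₀ hη (pow_pos (nv_pos v) _)]
      exact hsmall
    exact lt_of_lt_of_le h2 (pow_le_pow_left₀ (nv_pos v).le h1 _)

end Pool.Agent.Lib.MP_4d5ce1_nt.Red
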