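import Pool.Agent.Lib.MP_4d5ce1_nt.Red.Count
import Pool.Agent.Lib.MP_4d5ce1_nt.Red.ArchClose
import Pool.Agent.Lib.MP_4d5ce1_nt.Red.FinClose

set_option autoImplicit false

open NumberField IsDedekindDomain Polynomial

namespace Pool.Agent.Lib.MP_4d5ce1_nt.Red

variable {K : Type*} [Field K] [NumberField K]

/-- `z` is close to `0`, `1` or `∞` at every infinite place and at every place of `T`. -/
def NC (η : ℝ) (T : Set (HeightOneSpectrum (𝓞 K))) (z : K) : Prop :=
  (∀ w : InfinitePlace K, w z < η ∨ η⁻¹ < w z ∨ w (z - 1) < η) ∧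
    ∀ v ∈ T, fa v z < η ∨ η⁻¹ < fa v z ∨ fa v (z - 1) < η

/-- `z` is close to `0` at every infinite place and at every place of `T`. -/
def N0 (δ : ℝ) (T : Set (HeightOneSpectrum (𝓞 K))) (z : K) : Prop :=
  (∀ w : InfinitePlace K, w z < δ) ∧ ∀ v ∈ T, fa v z < δ

lemma close_power {T : Set (HeightOneSpectrum (𝓞 K))} (hT : T.Finite) {η : ℝ} (hη : 0 < η) :
    ∃ M : ℕ, ∀ y : K, y ≠ 0 → ∃ k, 1 ≤ k ∧ k ≤ M ∧ NC η T (y ^ k) := by
  obtain ⟨E, hE, hfin⟩ := fin_close hT hη
  obtain ⟨M, hM⟩ := arch_close (InfinitePlace K) hη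
  refine ⟨E * M, fun y hy => ?_⟩
  obtain ⟨m, hm1, hmM, hm⟩ := hM fun w => w.embedding (y ^ E)
  refine ⟨E * m, Nat.one_le_iff_ne_zero.mpr (Nat.mul_ne_zero (by omega) (by omega)),
    Nat.mul_le_mul_left _ hmM, ?_, fun v hv => hfin y hy m hm1 v hv⟩
  intro w
  have h := hm w
  have e1 : ‖w.embedding (y ^ E) ^ m‖ = w (y ^ (E * m)) := by
    rw [← map_pow, ← pow_mul, InfinitePlace.norm_embedding_eq]
  have e2 : ‖w.embedding (y ^ E) ^ m - 1‖ = w (y ^ (E * m) - 1) := by
    rw [← InfinitePlace.norm_embedding_eq, map_sub, map_one, ← map_pow, ← pow_mul]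
  rw [e1, e2] at h
  exact h

section AbsVal

variable {F : Type*} [Field F]

lemma abv_eval_le (a : AbsoluteValue F ℝ) (P : F[X]) {z : F} (hz : a z ≤ 1) :
    a (P.eval z) ≤ 1 + ∑ i ∈ Finset.range (P.natDegree + 1), a (P.coeff i) := by
  rw [Polynomial.eval_eq_sum_range]
  refine (AbsoluteValue.sum_le a _ _).trans ?_
  have : ∑ i ∈ Finset.range (P.natDegree + 1), a (P.coeff i * z ^ i) ≤
      ∑ i ∈ Finset.range (P.natDegree + 1), a (P.coeff i) := by
    refine Finset.sum_le_sum fun i _ => ?_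
    rw [map_mul, map_pow]
    exact mul_le_of_le_one_right (a.nonneg _) (pow_le_one₀ (a.nonneg _) hz)
  linarith

lemma near0_poly (a : AbsoluteValue F ℝ) (A B : F[X]) (hA : A.eval 0 = 0) (hB : B.eval 0 ≠ 0)
    {δ : ℝ} (hδ : 0 < δ) : ∃ η > 0, ∀ z : F, a z < η → a (A.eval z / B.eval z) < δ := by
  set L1 : ℝ := 1 + ∑ i ∈ Finset.range (A.divX.natDegree + 1), a (A.divX.coeff i) with hL1
  set L2 : ℝ := 1 + ∑ i ∈ Finset.range (B.divX.natDegree + 1), a (B.divX.coeff i) with hL2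
  have hL1p : 1 ≤ L1 := by
    have : 0 ≤ ∑ i ∈ Finset.range (A.divX.natDegree + 1), a (A.divX.coeff i) :=
      Finset.sum_nonneg fun i _ => a.nonneg _
    linarith
  have hL2p : 1 ≤ L2 := by
    have : 0 ≤ ∑ i ∈ Finset.range (B.divX.natDegree + 1), a (B.divX.coeff i) :=
      Finset.sum_nonneg fun i _ => a.nonneg _
    linarith
  have hA0 : A.coeff 0 = 0 := by rw [Polynomial.coeff_zero_eq_eval_zero, hA]
  have hB0 : B.coeff 0 ≠ 0 := by rw [Polynomial.coeff_zero_eq_eval_zero]; exact hB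
  set b := a (B.coeff 0) with hb
  have hbp : 0 < b := a.pos hB0
  refine ⟨min 1 (min (b / (2 * L2)) (δ * b / (2 * L1))),
    lt_min one_pos (lt_min (by positivity) (by positivity)), ?_⟩
  intro z hz
  have hz1 : a z < 1 := lt_of_lt_of_le hz (min_le_left _ _)
  have hz2 : a z < b / (2 * L2) :=
    lt_of_lt_of_le hz ((min_le_right _ _).trans (min_le_left _ _))
  have hz3 : a z < δ * b / (2 * L1) :=
    lt_of_lt_of_le hz ((min_le_right _ _).trans (min_le_right _ _))
  have eA : A.eval z = A.divX.eval z * z := by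
    conv_lhs => rw [← Polynomial.divX_mul_X_add A]
    simp [hA0]
  have eB : B.eval z = B.divX.eval z * z + B.coeff 0 := by
    conv_lhs => rw [← Polynomial.divX_mul_X_add B]
    simp
  have h1 : a (A.eval z) ≤ L1 * a z := by
    rw [eA, map_mul]
    exact mul_le_mul_of_nonneg_right (abv_eval_le a _ hz1.le) (a.nonneg _)
  have h2 : b - L2 * a z ≤ a (B.eval z) := by
    have h3 : B.coeff 0 = B.eval z - B.divX.eval z * z := by rw [eB]; ring
    have h4 : b ≤ a (B.eval z) + a (B.divX.eval z * z) := by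
      rw [hb]
      conv_lhs => rw [h3]
      exact a.sub_le_add _ _
    have h5 : a (B.divX.eval z * z) ≤ L2 * a z := by
      rw [map_mul]
      exact mul_le_mul_of_nonneg_right (abv_eval_le a _ hz1.le) (a.nonneg _)
    linarith
  have h6 : L2 * a z < b / 2 := by
    calc L2 * a z < L2 * (b / (2 * L2)) := mul_lt_mul_of_pos_left hz2 (by linarith)
      _ = b / 2 := by field_simp
  have h7 : L1 * a z < δ * b / 2 := by
    calc L1 * a z < L1 * (δ * b / (2 * L1)) := mul_lt_mul_of_pos_left hz3 (by linarith)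
      _ = δ * b / 2 := by field_simp
  have h8 : b / 2 < a (B.eval z) := by linarith
  rw [map_div₀, div_lt_iff₀ (by linarith)]
  nlinarith

/-- Numerator of the map of degree four sending `0, 1, ∞` to `0`. -/
noncomputable def tA : F[X] := 16 * X * (1 - X)

/-- Denominator of the map of degree four sending `0, 1, ∞` to `0`. -/
noncomputable def tB : F[X] := (1 + 4 * X - 4 * X ^ 2) ^ 2

lemma near0_tau [CharZero F] (a : AbsoluteValue F ℝ) {δ : ℝ} (hδ : 0 < δ) :
    ∃ η > 0, ∀ z : F, (a z < η ∨ η⁻¹ < a z ∨ a (z - 1) < η) →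
      a ((tA : F[X]).eval z / (tB : F[X]).eval z) < δ := by
  obtain ⟨η1, h1, H1⟩ := near0_poly a (tA : F[X]) tB (by simp [tA]) (by simp [tB]) hδ
  obtain ⟨η2, h2, H2⟩ := near0_poly a (16 * X ^ 2 * (X - 1) : F[X]) ((X ^ 2 + 4 * X - 4) ^ 2)
    (by simp) (by simp) hδ
  refine ⟨min η1 η2, lt_min h1 h2, ?_⟩
  rintro z (h | h | h)
  · exact H1 z (lt_of_lt_of_le h (min_le_left _ _))
  · have hz0 : z ≠ 0 := by
      rintro rfl
      rw [map_zero] at h
      have : 0 < (min η1 η2)⁻¹ := inv_pos.mpr (lt_min h1 h2)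
      linarith
    have hinv : a z⁻¹ < min η1 η2 := by
      rw [map_inv₀]
      rw [inv_lt_comm₀ (a.pos hz0) (lt_min h1 h2)]
      exact h
    have := H2 z⁻¹ (lt_of_lt_of_le hinv (min_le_right _ _))
    have e : (tA : F[X]).eval z / (tB : F[X]).eval z =
        (16 * X ^ 2 * (X - 1) : F[X]).eval z⁻¹ / ((X ^ 2 + 4 * X - 4) ^ 2 : F[X]).eval z⁻¹ := by
      have e1 : (16 * X ^ 2 * (X - 1) : F[X]).eval z⁻¹ = (tA : F[X]).eval z * (z⁻¹) ^ 4 := by
        simp [tA]
        field_simp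
      have e2 : ((X ^ 2 + 4 * X - 4) ^ 2 : F[X]).eval z⁻¹ = (tB : F[X]).eval z * (z⁻¹) ^ 4 := by
        simp [tB]
        field_simp
      rw [e1, e2, mul_div_mul_right _ _ (pow_ne_zero 4 (inv_ne_zero hz0))]
    rw [e]
    exact this
  · have h' : a (1 - z) < min η1 η2 := by
      rw [a.map_sub]
      exact h
    have := H1 (1 - z) (lt_of_lt_of_le h' (min_le_left _ _))
    have e : (tA : F[X]).eval z / (tB : F[X]).eval z =
        (tA : F[X]).eval (1 - z) / (tB : F[X]).eval (1 - z) := by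
      have e1 : (tA : F[X]).eval z = (tA : F[X]).eval (1 - z) := by
        simp [tA]
        ring
      have e2 : (tB : F[X]).eval z = (tB : F[X]).eval (1 - z) := by
        simp [tB]
        ring
      rw [e1, e2]
    rw [e]
    exact this

end AbsVal

lemma exists_pos_le {ι : Type*} (s : Finset ι) (f : ι → ℝ) (hf : ∀ i ∈ s, 0 < f i) :
    ∃ η > 0, ∀ i ∈ s, η ≤ f i := by
  classical
  induction s using Finset.induction_on with
  | empty => exact ⟨1, one_pos, by simp⟩
  | insert a s ha ih =>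
    obtain ⟨η, hη, h⟩ := ih fun i hi => hf i (Finset.mem_insert_of_mem hi)
    refine ⟨min η (f a), lt_min hη (hf a (Finset.mem_insert_self _ _)), ?_⟩
    intro i hi
    rcases Finset.mem_insert.mp hi with rfl | hi
    · exact min_le_right _ _
    · exact (min_le_left _ _).trans (h i hi)

lemma near0_all {T : Set (HeightOneSpectrum (𝓞 K))} (hT : T.Finite) (A B : K[X])
    (hA : A.eval 0 = 0) (hB : B.eval 0 ≠ 0) {δ : ℝ} (hδ : 0 < δ) :
    ∃ η > 0, ∀ z : K, N0 η T z → N0 δ T (A.eval z / B.eval z) := by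
  classical
  choose f hf Hf using fun w : InfinitePlace K => near0_poly w.1 A B hA hB hδ
  choose g hg Hg using fun v : HeightOneSpectrum (𝓞 K) =>
    near0_poly (FinitePlace.mk v).1 A B hA hB hδ
  obtain ⟨η1, h1, H1⟩ := exists_pos_le Finset.univ f fun i _ => hf i
  obtain ⟨η2, h2, H2⟩ := exists_pos_le hT.toFinset g fun i _ => hg i
  refine ⟨min η1 η2, lt_min h1 h2, ?_⟩
  rintro z ⟨hz1, hz2⟩
  constructor
  · intro w
    exact Hf w z (lt_of_lt_of_le (hz1 w) ((min_le_left _ _).trans (H1 w (Finset.mem_univ _))))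
  · intro v hv
    exact Hg v z (lt_of_lt_of_le (hz2 v hv)
      ((min_le_right _ _).trans (H2 v (hT.mem_toFinset.mpr hv))))

lemma nc_mono_aux {r s η η' : ℝ} (hη : 0 < η) (hle : η ≤ η')
    (h : r < η ∨ η⁻¹ < r ∨ s < η) : r < η' ∨ η'⁻¹ < r ∨ s < η' := by
  rcases h with h | h | h
  · left; linarith
  · right; left
    exact lt_of_le_of_lt ((inv_le_inv₀ (by linarith) hη).mpr hle) h
  · right; right; linarith

lemma tau_all {T : Set (HeightOneSpectrum (𝓞 K))} (hT : T.Finite) {δ : ℝ} (hδ : 0 < δ) :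
    ∃ η > 0, ∀ z : K, NC η T z → N0 δ T ((tA : K[X]).eval z / (tB : K[X]).eval z) := by
  classical
  choose f hf Hf using fun w : InfinitePlace K => near0_tau w.1 hδ
  choose g hg Hg using fun v : HeightOneSpectrum (𝓞 K) => near0_tau (FinitePlace.mk v).1 hδ
  obtain ⟨η1, h1, H1⟩ := exists_pos_le Finset.univ f fun i _ => hf i
  obtain ⟨η2, h2, H2⟩ := exists_pos_le hT.toFinset g fun i _ => hg i
  refine ⟨min η1 η2, lt_min h1 h2, ?_⟩
  rintro z ⟨hz1, hz2⟩
  constructor
  · intro w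
    exact Hf w z (nc_mono_aux (lt_min h1 h2)
      ((min_le_left _ _).trans (H1 w (Finset.mem_univ _))) (hz1 w))
  · intro v hv
    exact Hg v z (nc_mono_aux (lt_min h1 h2)
      ((min_le_right _ _).trans (H2 v (hT.mem_toFinset.mpr hv))) (hz2 v hv))

omit [NumberField K] in
/-- The power maps are good. -/
lemma good_pow (n : ℕ) (hn : 1 ≤ n) : Good (X ^ n : K[X]) 1 n := by
  have hgeom : (X - 1 : K[X]) * ∑ i ∈ Finset.range n, X ^ i = X ^ n - 1 := by
    rw [mul_comm, geom_sum_mul]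
  refine ⟨hn, isCoprime_one_right, by simp, ∑ i ∈ Finset.range n, X ^ i, (X ^ n - 1) ^ (n - 1),
    n, ?_, ?_, ?_⟩
  · refine (Polynomial.natDegree_sum_le_of_forall_le _ _ ?_)
    intro i hi
    rw [Polynomial.natDegree_X_pow]
    have := Finset.mem_range.mp hi
    omega
  · rw [mul_assoc X, hgeom, mul_pow, mul_one, mul_assoc]
    congr 1
    rw [← pow_succ', Nat.sub_add_cancel hn]
  · rw [mul_assoc X, hgeom, mul_one]
    exact mul_dvd_mul (dvd_pow_self X (by omega)) dvd_rfl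

/-- The map of degree four is good. -/
lemma good_tau : Good (tA : K[X]) tB 4 := by
  have hdA : (tA : K[X]).natDegree ≤ 2 := by
    unfold tA
    compute_degree
  have hdB : (tB : K[X]).natDegree = 4 := by
    unfold tB
    rw [Polynomial.natDegree_pow]
    have : (1 + 4 * X - 4 * X ^ 2 : K[X]).natDegree = 2 := by
      compute_degree!
    rw [this]
  refine ⟨by norm_num, ?_, ?_, (1 + 4 * X - 4 * X ^ 2) * (1 - 2 * X),
    - C (1 / 16) * (X - X ^ 2) ^ 3 * (1 + 4 * X - 4 * X ^ 2) ^ 2, 4, ?_, ?_, ?_⟩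
  · refine ⟨- C (1 / 16) * (8 + 16 * (X - X ^ 2)), 1, ?_⟩
    unfold tA tB
    have h16 : (16 : K[X]) = C 16 := rfl
    have : (C (1 / 16 : K)) * (16 : K[X]) = 1 := by
      rw [h16, ← C_mul]
      norm_num
    linear_combination (-(8 + 16 * (X - X ^ 2)) * (X * (1 - X))) * this
  · rw [hdB]
    omega
  · refine (Polynomial.natDegree_mul_le).trans ?_
    have h1 : (1 + 4 * X - 4 * X ^ 2 : K[X]).natDegree ≤ 2 := by compute_degree
    have h2 : (1 - 2 * X : K[X]).natDegree ≤ 1 := by compute_degree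
    omega
  · unfold tA tB
    have h16 : (16 : K[X]) = C 16 := rfl
    have : (C (1 / 16 : K)) * (16 : K[X]) = 1 := by
      rw [h16, ← C_mul]
      norm_num
    linear_combination (-(X * (1 - X)) * (1 + 4 * X - 4 * X ^ 2) ^ 2 * (1 - 2 * X) ^ 4 * (X - X ^ 2) ^ 3 *
      (1 + 4 * X - 4 * X ^ 2) ^ 2) * this
  · unfold tA tB
    refine ⟨16 * (1 + 4 * X - 4 * X ^ 2) * (1 - 2 * X) ^ 3, ?_⟩
    ring

/-- The reduction theorem. -/
theorem reduction {T : Set (HeightOneSpectrum (𝓞 K))} (hT : T.Finite) {δ : ℝ} (hδ : 0 < δ)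
    {A B : K[X]} {n : ℕ} (hgood : Good A B n)
    (hyp : ∀ ε : ℝ, 0 < ε →
      Holds ε {x : K | ∃ z, B.eval z ≠ 0 ∧ x = A.eval z / B.eval z ∧ N0 δ T z})
    (ε : ℝ) (hε : 0 < ε) : Holds ε (Set.univ : Set K) := by
  obtain ⟨η2, hη2, H2⟩ := tau_all hT hδ
  obtain ⟨M, hM⟩ := close_power hT hη2
  have hn : (1:ℝ) ≤ n := by exact_mod_cast hgood.pos
  have hM0 : (0:ℝ) ≤ M := Nat.cast_nonneg _
  set D : ℝ := 4 * n * (M + 1) with hD
  have hDpos : 0 < D := by positivity
  set ε' : ℝ := min ε 1 / D with hε'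
  have hmin : 0 < min ε 1 := lt_min hε one_pos
  have hε'pos : 0 < ε' := div_pos hmin hDpos
  have hDε' : D * ε' = min ε 1 := by rw [hε']; field_simp
  have hD4n : 4 * n ≤ D := by
    rw [hD]
    nlinarith
  have hb3 : 4 * (n * ε') ≤ min ε 1 := by
    rw [← hDε']
    nlinarith
  have hb2 : n * ε' ≤ 1 := by
    have := min_le_right ε 1
    nlinarith
  have hb1 : ε' ≤ 1 := by nlinarith
  have s1 := hgood.transfer hε'pos.le hb1 (hyp ε' hε'pos)
  have s1' : Holds (n * ε') {z : K | N0 δ T z} := by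
    refine s1.mono le_rfl ?_
    intro z hz _ hBz _
    exact ⟨z, hBz, rfl, hz⟩
  have s2 := (good_tau (K := K)).transfer (by positivity) hb2 s1'
  have s2' : Holds (4 * (n * ε')) {z : K | NC η2 T z} := by
    refine s2.mono (by norm_num) ?_
    intro z hz _ _ _
    exact H2 z hz
  have hb3' : 4 * (n * ε') ≤ 1 := hb3.trans (min_le_right _ _)
  have s3 : ∀ k ∈ Finset.Icc 1 M, Holds ε {y : K | NC η2 T (y ^ k)} := by
    intro k hk
    rw [Finset.mem_Icc] at hk
    have := (good_pow (K := K) k hk.1).transfer (by positivity) hb3' s2'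
    refine this.mono ?_ ?_
    · have hkM : (k : ℝ) ≤ M + 1 := by
        have : (k : ℝ) ≤ M := by exact_mod_cast hk.2
        linarith
      calc (k : ℝ) * (4 * (n * ε')) ≤ (M + 1) * (4 * (n * ε')) :=
            mul_le_mul_of_nonneg_right hkM (by positivity)
        _ = D * ε' := by rw [hD]; ring
        _ = min ε 1 := hDε'
        _ ≤ ε := min_le_left _ _
    · intro y hy _ _ _
      simpa using hy
  obtain ⟨C, hC⟩ := Holds.biUnion (Finset.Icc 1 M) (fun k => {y : K | NC η2 T (y ^ k)}) s3 hε.le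
  refine ⟨C, fun x _ hx0 hx1 => hC x ?_ hx0 hx1⟩
  obtain ⟨k, hk1, hkM, hk⟩ := hM x hx0
  rw [Set.mem_iUnion₂]
  exact ⟨k, Finset.mem_Icc.mpr ⟨hk1, hkM⟩, hk⟩

end Pool.Agent.Lib.MP_4d5ce1_nt.Red
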