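import Mathlib

set_option autoImplicit false

open Polynomial

namespace Pool.Agent.Lib.MP_4d5ce1_nt.Red

variable {F : Type*} [Field F] [CharZero F]

/-- If all critical points of `A` lie over the zeros of the separable polynomial `P`, then
`P ∘ A` is divisible by `A'` and the quotient is the product of the distinct zeros. -/
lemma belyi_lemma (P A : F[X]) (hP : P.Separable) (hA : 1 ≤ A.natDegree)
    (hcrit : ∀ β : AlgebraicClosure F, aeval β (derivative A) = 0 → aeval β (P.comp A) = 0) :
    ∃ W : F[X], P.comp A = derivative A * W ∧ P.comp A ∣ W ^ (P.comp A).natDegree ∧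
      ∀ Q : F[X], Q.Separable →
        (∀ β : AlgebraicClosure F, aeval β Q = 0 → aeval β (P.comp A) = 0) → Q ∣ W := by
  classical
  set Om := AlgebraicClosure F
  set φ := algebraMap F Om
  have hP0 : P ≠ 0 := hP.ne_zero
  have hPi0 : P.comp A ≠ 0 := by
    intro h
    rw [Polynomial.comp_eq_zero_iff] at h
    rcases h with h | ⟨_, h⟩
    · exact hP0 h
    · rw [h, natDegree_C] at hA
      omega
  have hD0 : derivative A ≠ 0 := by
    intro h
    have := Polynomial.derivative_eq_zero.mp h
    omega
  have hPi0' : (P.comp A).map φ ≠ 0 := by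
    rwa [Ne, Polynomial.map_eq_zero]
  have hD0' : (derivative A).map φ ≠ 0 := by
    rwa [Ne, Polynomial.map_eq_zero]
  have rootiff : ∀ (f : F[X]) (β : Om), (f.map φ).IsRoot β ↔ aeval β f = 0 := by
    intro f β
    rw [Polynomial.IsRoot.def, Polynomial.eval_map_algebraMap]
  -- the multiplicities
  have hmult : ∀ β : Om, aeval β (P.comp A) = 0 →
      rootMultiplicity β ((P.comp A).map φ) =
        rootMultiplicity β ((derivative A).map φ) + 1 := by
    intro β hβ
    have hroot : ((P.comp A).map φ).IsRoot β := (rootiff _ _).mpr hβ
    have h1 := Polynomial.derivative_rootMultiplicity_of_root hroot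
    have hpos : 0 < rootMultiplicity β ((P.comp A).map φ) :=
      (Polynomial.rootMultiplicity_pos hPi0').mpr hroot
    have hder : derivative ((P.comp A).map φ) =
        (derivative A).map φ * ((derivative P).comp A).map φ := by
      rw [Polynomial.derivative_map, Polynomial.derivative_comp, Polynomial.map_mul]
    have hne : ¬ (((derivative P).comp A).map φ).IsRoot β := by
      intro hr
      rw [rootiff] at hr
      obtain ⟨a, b, hab⟩ := hP
      have := congrArg (fun f : F[X] => aeval β (f.comp A)) hab
      simp only [Polynomial.add_comp, Polynomial.mul_comp, map_add, map_mul, hβ, hr, mul_zero,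
        add_zero, Polynomial.one_comp, map_one] at this
      exact zero_ne_one this
    have hne0 : ((derivative P).comp A).map φ ≠ 0 := by
      intro h0
      apply hne
      rw [h0]
      simp
    rw [hder, Polynomial.rootMultiplicity_mul (mul_ne_zero hD0' hne0),
      Polynomial.rootMultiplicity_eq_zero hne, add_zero] at h1
    omega
  have hDdvd : derivative A ∣ P.comp A := by
    rw [← Polynomial.map_dvd_map' φ]
    refine (IsAlgClosed.splits _).dvd_of_roots_le_roots hD0' ?_
    rw [Multiset.le_iff_count]
    intro β
    rw [count_roots, count_roots]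
    by_cases hβ : aeval β (P.comp A) = 0
    · rw [hmult β hβ]
      omega
    · have : ¬ ((derivative A).map φ).IsRoot β := by
        rw [rootiff]
        exact fun h => hβ (hcrit β h)
      rw [Polynomial.rootMultiplicity_eq_zero this]
      omega
  obtain ⟨W, hW⟩ := hDdvd
  have hW0 : W ≠ 0 := by
    rintro rfl
    rw [mul_zero] at hW
    exact hPi0 hW
  have hW0' : W.map φ ≠ 0 := by
    rwa [Ne, Polynomial.map_eq_zero]
  have hmulW : ∀ β : Om, rootMultiplicity β ((P.comp A).map φ) =
      rootMultiplicity β ((derivative A).map φ) + rootMultiplicity β (W.map φ) := by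
    intro β
    rw [hW, Polynomial.map_mul, Polynomial.rootMultiplicity_mul (mul_ne_zero hD0' hW0')]
  have hWone : ∀ β : Om, aeval β (P.comp A) = 0 → rootMultiplicity β (W.map φ) = 1 := by
    intro β hβ
    have h1 := hmult β hβ
    have h2 := hmulW β
    omega
  refine ⟨W, hW, ?_, ?_⟩
  · rw [← Polynomial.map_dvd_map' φ, Polynomial.map_pow]
    refine (IsAlgClosed.splits _).dvd_of_roots_le_roots hPi0' ?_
    rw [Multiset.le_iff_count]
    intro β
    rw [Polynomial.roots_pow, Multiset.count_nsmul, count_roots, count_roots]
    by_cases hβ : aeval β (P.comp A) = 0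
    · rw [hWone β hβ, mul_one, ← count_roots]
      refine (Multiset.count_le_card _ _).trans ?_
      refine (Polynomial.card_roots' _).trans ?_
      rw [Polynomial.natDegree_map]
    · have : ¬ ((P.comp A).map φ).IsRoot β := by
        rw [rootiff]
        exact hβ
      rw [Polynomial.rootMultiplicity_eq_zero this]
      omega
  · intro Q hQ hroots
    rw [← Polynomial.map_dvd_map' φ]
    have hQ0 : Q.map φ ≠ 0 := by
      rw [Ne, Polynomial.map_eq_zero]
      exact hQ.ne_zero
    refine (IsAlgClosed.splits _).dvd_of_roots_le_roots hQ0 ?_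
    rw [Multiset.le_iff_count]
    intro β
    rw [count_roots, count_roots]
    by_cases hβ : aeval β Q = 0
    · rw [hWone β (hroots β hβ)]
      exact Polynomial.rootMultiplicity_le_one_of_separable (hQ.map) β
    · have : ¬ (Q.map φ).IsRoot β := by
        rw [rootiff]
        exact hβ
      rw [Polynomial.rootMultiplicity_eq_zero this]
      omega

end Pool.Agent.Lib.MP_4d5ce1_nt.Red
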