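import Pool.Agent.Lib.MP_4d5ce1_nt.Red.Pull

set_option autoImplicit false

open NumberField IsDedekindDomain Polynomial

namespace Pool.Agent.Lib.MP_4d5ce1_nt.Red

variable {K : Type*} [Field K] [NumberField K]

/-- The primes at which `z` meets a zero of `P` or the point at infinity. -/
def clP (P : K[X]) (z : K) : Set (HeightOneSpectrum (𝓞 K)) :=
  {v | 1 < fa v z ∨ fa v (P.eval z) < 1}

lemma finite_one_lt_fa (z : K) : {v : HeightOneSpectrum (𝓞 K) | 1 < fa v z}.Finite := by
  by_cases hz : z = 0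
  · subst hz
    convert Set.finite_empty
    ext v
    simp
  · exact (finite_fa_ne_one hz).subset fun v hv => ne_of_gt hv

lemma clP_finite (P : K[X]) {z : K} (hP : P.eval z ≠ 0) : (clP P z).Finite := by
  refine ((finite_one_lt_fa z).union (finite_fa_ne_one hP)).subset ?_
  rintro v (hv | hv)
  · exact Or.inl hv
  · exact Or.inr (ne_of_lt hv)

lemma cl_eq_clP {z : K} : cl z = clP (X * (X - 1)) z := by
  ext v
  simp only [cl, clP, Set.mem_ofPred_eq, eval_mul, eval_X, eval_sub, eval_one, fa_mul]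
  rw [fa_sub_comm v 1 z]
  constructor
  · intro h
    by_contra hcon
    push Not at hcon
    obtain ⟨h1, h2⟩ := hcon
    apply h
    have h3 : fa v (z - 1) ≤ 1 := (fa_sub_le v z 1).trans (max_le h1 (by rw [fa_one]))
    have p1 := fa_nonneg v z
    have p2 := fa_nonneg v (z - 1)
    constructor
    · apply le_antisymm h1
      nlinarith
    · apply le_antisymm h3
      nlinarith
  · rintro (h | h) ⟨h1, h2⟩
    · linarith
    · rw [h1, h2] at h; linarith

/-- The primes counted for a value of a rational function. -/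
lemma count_pull (A B P G T : K[X]) (m g : ℕ) (hg : G.natDegree ≤ g)
    (hR : (P * G) ^ m = A * B * (A - B) * T) :
    ∃ C : ℝ, ∀ z : K, A.eval z ≠ 0 → B.eval z ≠ 0 → A.eval z ≠ B.eval z →
      P.eval z ≠ 0 → G.eval z ≠ 0 →
      wt (cl (A.eval z / B.eval z)) ≤ wt (clP P z) + g * lh z + C := by
  classical
  set bad : Set (HeightOneSpectrum (𝓞 K)) :=
    {v | Mv A v ≠ 1} ∪ {v | Mv B v ≠ 1} ∪ {v | Mv T v ≠ 1} ∪ {v | Mv P v ≠ 1} ∪ {v | Mv G v ≠ 1}
    with hbad
  have hbadfin : bad.Finite :=
    ((((finite_Mv A).union (finite_Mv B)).union (finite_Mv T)).union (finite_Mv P)).union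
      (finite_Mv G)
  refine ⟨wt bad + cP G, ?_⟩
  intro z hA hB hAB hP hG
  obtain ⟨hGfin, hGw⟩ := wt_small_le G hg z hG
  have hsub : cl (A.eval z / B.eval z) ⊆
      bad ∪ (clP P z ∪ {v : HeightOneSpectrum (𝓞 K) | fa v (G.eval z) < 1}) := by
    intro v hv
    by_contra hcon
    simp only [Set.mem_union, not_or] at hcon
    obtain ⟨hb, hcP, hcG⟩ := hcon
    simp only [hbad, Set.mem_union, Set.mem_ofPred_eq, not_or, not_not] at hb
    obtain ⟨⟨⟨⟨bA, bB⟩, bT⟩, bP⟩, bG⟩ := hb
    simp only [clP, Set.mem_ofPred_eq, not_or, not_lt] at hcP hcG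
    obtain ⟨hz1, hP1⟩ := hcP
    have hmax : max (fa v z) 1 = 1 := max_eq_right hz1
    have ev : ∀ Q : K[X], Mv Q v = 1 → fa v (Q.eval z) ≤ 1 := by
      intro Q hQ
      have := eval_le Q v z le_rfl
      rw [hmax, hQ, one_pow, mul_one] at this
      exact this
    have eA := ev A bA
    have eB := ev B bB
    have eT := ev T bT
    have eAB : fa v (A.eval z - B.eval z) ≤ 1 := (fa_sub_le _ _ _).trans (max_le eA eB)
    have hRz : fa v (P.eval z * G.eval z) ^ m =
        fa v (A.eval z) * fa v (B.eval z) * fa v (A.eval z - B.eval z) * fa v (T.eval z) := by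
      have := congrArg (Polynomial.eval z) hR
      simp only [eval_pow, eval_mul, eval_sub] at this
      rw [← fa_pow, this, fa_mul, fa_mul, fa_mul]
    have hlow : 1 ≤ fa v (P.eval z * G.eval z) ^ m := by
      apply one_le_pow₀
      rw [fa_mul]
      exact one_le_mul_of_one_le_of_one_le hP1 hcG
    rw [hRz] at hlow
    have nA := fa_nonneg v (A.eval z)
    have nB := fa_nonneg v (B.eval z)
    have nAB := fa_nonneg v (A.eval z - B.eval z)
    have nT := fa_nonneg v (T.eval z)
    have q1 : fa v (A.eval z) * fa v (B.eval z) ≤ 1 := mul_le_one₀ eA nB eB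
    have q2 : fa v (A.eval z) * fa v (B.eval z) * fa v (A.eval z - B.eval z) ≤ 1 :=
      mul_le_one₀ q1 nAB eAB
    have q3 : 1 ≤ fa v (A.eval z) * fa v (B.eval z) * fa v (A.eval z - B.eval z) := by
      refine hlow.trans (mul_le_of_le_one_right (by positivity) eT)
    have q4 : 1 ≤ fa v (A.eval z) * fa v (B.eval z) :=
      q3.trans (mul_le_of_le_one_right (by positivity) eAB)
    have q5 : fa v (A.eval z) = 1 := le_antisymm eA (q4.trans (mul_le_of_le_one_right nA eB))
    have q6 : fa v (B.eval z) = 1 := by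
      rw [q5, one_mul] at q4
      exact le_antisymm eB q4
    have q7 : fa v (A.eval z - B.eval z) = 1 := by
      rw [q5, q6, one_mul, one_mul] at q3
      exact le_antisymm eAB q3
    apply hv
    constructor
    · rw [fa_div, q5, q6, div_one]
    · have : 1 - A.eval z / B.eval z = -((A.eval z - B.eval z) / B.eval z) := by
        field_simp
        ring
      rw [this, fa_neg, fa_div, q7, q6, div_one]
  have hPfin := clP_finite P hP
  have hfin2 := hPfin.union hGfin
  have h1 := wt_mono (hbadfin.union hfin2) hsub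
  have h2 := wt_union_le hbadfin hfin2
  have h3 := wt_union_le hPfin hGfin
  linarith

/-- A rational function `A / B` of degree `n`, unramified outside `{0, 1, ∞}`, for which
`0, 1, ∞` lie over `{0, 1, ∞}`; `X (X - 1) G` is the product of the finite points over
`{0, 1, ∞}`. -/
structure Good (A B : K[X]) (n : ℕ) : Prop where
  pos : 1 ≤ n
  cop : IsCoprime A B
  deg : max A.natDegree B.natDegree = n
  rad : ∃ (G T : K[X]) (m : ℕ), G.natDegree ≤ n - 1 ∧
    (X * (X - 1) * G) ^ m = A * B * (A - B) * T ∧ X * (X - 1) * G ∣ A * B * (A - B)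

/-- The inequality of the conjecture, with coefficient `1 - ε`, for the points of a set. -/
def Holds (ε : ℝ) (s : Set K) : Prop :=
  ∃ C : ℝ, ∀ x ∈ s, x ≠ 0 → x ≠ 1 → (1 - ε) * lh x ≤ wt (cl x) + C

lemma Holds.mono {ε ε' : ℝ} {s t : Set K} (h : Holds ε s) (hε : ε ≤ ε') (hst : t ⊆ s) :
    Holds ε' t := by
  obtain ⟨C, hC⟩ := h
  refine ⟨C, fun x hx h0 h1 => ?_⟩
  have := hC x (hst hx) h0 h1
  have h2 := lh_nonneg x
  nlinarith

lemma Holds.union {ε : ℝ} {s t : Set K} (hs : Holds ε s) (ht : Holds ε t) : Holds ε (s ∪ t) := by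
  obtain ⟨C, hC⟩ := hs
  obtain ⟨D, hD⟩ := ht
  refine ⟨max C D, fun x hx h0 h1 => ?_⟩
  rcases hx with hx | hx
  · have := hC x hx h0 h1
    have := le_max_left C D
    linarith
  · have := hD x hx h0 h1
    have := le_max_right C D
    linarith

lemma Holds.finite {ε : ℝ} (hε : 0 ≤ ε) {s : Set K} (hs : s.Finite) : Holds ε s := by
  classical
  refine ⟨∑ x ∈ hs.toFinset, lh x, fun x hx _ _ => ?_⟩
  have h1 : lh x ≤ ∑ x ∈ hs.toFinset, lh x :=
    Finset.single_le_sum (f := fun x => lh x) (fun i _ => lh_nonneg i)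
      (hs.mem_toFinset.mpr hx)
  have h2 := lh_nonneg x
  have h3 := wt_nonneg (cl x)
  nlinarith

lemma Holds.biUnion {ε : ℝ} {ι : Type*} (I : Finset ι) (s : ι → Set K)
    (h : ∀ i ∈ I, Holds ε (s i)) (hε : 0 ≤ ε) : Holds ε (⋃ i ∈ I, s i) := by
  classical
  induction I using Finset.induction_on with
  | empty => simpa using Holds.finite (K := K) hε Set.finite_empty
  | insert a I ha ih =>
    rw [Finset.set_biUnion_insert]
    exact (h a (Finset.mem_insert_self _ _)).union
      (ih fun i hi => h i (Finset.mem_insert_of_mem hi))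

/-- Transfer of the inequality along a good map. -/
lemma Good.transfer {A B : K[X]} {n : ℕ} (hgood : Good A B n) {ε : ℝ} (hε0 : 0 ≤ ε)
    (hε1 : ε ≤ 1) {s : Set K} (hs : Holds ε s) :
    Holds (n * ε) {z : K | A.eval z ≠ 0 → B.eval z ≠ 0 → A.eval z ≠ B.eval z →
      A.eval z / B.eval z ∈ s} := by
  classical
  obtain ⟨G, T, m, hG, hRm, hdvd⟩ := hgood.rad
  have hn := hgood.pos
  obtain ⟨C1, hC1⟩ := height_lower A B hgood.cop n hn hgood.deg
  obtain ⟨C2, hC2⟩ := count_pull A B (X * (X - 1)) G T m (n - 1) hG hRm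
  obtain ⟨C3, hC3⟩ := hs
  have hnε : (0:ℝ) ≤ n * ε := by positivity
  -- the generic part
  have hgen : Holds (n * ε) {z : K | (A.eval z ≠ 0 ∧ B.eval z ≠ 0 ∧ A.eval z ≠ B.eval z) ∧
      A.eval z / B.eval z ∈ s} := by
    refine ⟨C3 + C2 + |C1|, fun z hz h0 h1 => ?_⟩
    obtain ⟨⟨hA, hB, hAB⟩, hmem⟩ := hz
    have hRz : (A * B * (A - B)).eval z ≠ 0 := by
      simp only [eval_mul, eval_sub]
      exact mul_ne_zero (mul_ne_zero hA hB) (sub_ne_zero.mpr hAB)
    have hPGz : (X * (X - 1) * G).eval z ≠ 0 := by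
      intro h
      apply hRz
      obtain ⟨Q, hQ⟩ := hdvd
      rw [hQ, eval_mul, h, zero_mul]
    rw [eval_mul] at hPGz
    have hPz := left_ne_zero_of_mul hPGz
    have hGz := right_ne_zero_of_mul hPGz
    have hx0 : A.eval z / B.eval z ≠ 0 := div_ne_zero hA hB
    have hx1 : A.eval z / B.eval z ≠ 1 := by
      rw [Ne, div_eq_one_iff_eq hB]
      exact hAB
    have e1 := hC1 z hB
    have e2 := hC2 z hA hB hAB hPz hGz
    have e3 := hC3 _ hmem hx0 hx1
    rw [← cl_eq_clP] at e2
    have hcast : ((n - 1 : ℕ) : ℝ) = (n : ℝ) - 1 := by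
      rw [Nat.cast_sub hn, Nat.cast_one]
    rw [hcast] at e2
    have h4 : (1 - ε) * (n * lh z) ≤ (1 - ε) * (lh (A.eval z / B.eval z) + C1) :=
      mul_le_mul_of_nonneg_left e1 (by linarith)
    have h5 : (1 - ε) * C1 ≤ |C1| := by
      calc (1 - ε) * C1 ≤ (1 - ε) * |C1| :=
            mul_le_mul_of_nonneg_left (le_abs_self _) (by linarith)
        _ ≤ 1 * |C1| := mul_le_mul_of_nonneg_right (by linarith) (abs_nonneg _)
        _ = |C1| := one_mul _
    nlinarith
  -- exceptional part
  have hne : A * B * (A - B) ≠ 0 := by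
    intro h0
    have hA0 : A ≠ 0 ∧ B ≠ 0 ∧ A ≠ B := by
      have hdeg := hgood.deg
      refine ⟨?_, ?_, ?_⟩
      · rintro rfl
        have := hgood.cop
        rw [isCoprime_zero_left] at this
        have h1 := Polynomial.natDegree_eq_zero_of_isUnit this
        simp [h1] at hdeg
        omega
      · rintro rfl
        have := hgood.cop
        rw [isCoprime_zero_right] at this
        have h1 := Polynomial.natDegree_eq_zero_of_isUnit this
        simp [h1] at hdeg
        omega
      · rintro rfl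
        have := hgood.cop
        rw [isCoprime_self] at this
        have h1 := Polynomial.natDegree_eq_zero_of_isUnit this
        simp [h1] at hdeg
        omega
    exact mul_ne_zero (mul_ne_zero hA0.1 hA0.2.1) (sub_ne_zero.mpr hA0.2.2) h0
  have hexc : {z : K | (A * B * (A - B)).eval z = 0}.Finite := by
    refine ((A * B * (A - B)).roots.toFinset.finite_toSet).subset ?_
    intro z hz
    simp only [Finset.mem_coe, Multiset.mem_toFinset]
    rw [Polynomial.mem_roots hne]
    exact hz
  refine (hgen.union (Holds.finite hnε hexc)).mono le_rfl ?_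
  intro z hz
  by_cases h : (A * B * (A - B)).eval z = 0
  · exact Or.inr h
  · left
    simp only [eval_mul, eval_sub] at h
    have hA : A.eval z ≠ 0 := left_ne_zero_of_mul (left_ne_zero_of_mul h)
    have hB : B.eval z ≠ 0 := right_ne_zero_of_mul (left_ne_zero_of_mul h)
    have hAB : A.eval z ≠ B.eval z := sub_ne_zero.mp (right_ne_zero_of_mul h)
    exact ⟨⟨hA, hB, hAB⟩, hz hA hB hAB⟩

end Pool.Agent.Lib.MP_4d5ce1_nt.Red
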