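import Pool.Agent.Lib.MP_4d5ce1_nt.Red.Final

set_option autoImplicit false

open NumberField IsDedekindDomain Polynomial

namespace Pool.Agent.Lib.MP_4d5ce1_nt.Red

variable {K : Type*} [Field K] [NumberField K]

/-- The hypotheses on the rational function hold for `1 - (1 - X) ^ N`. -/
example (N : ℕ) (hN : 1 ≤ N) :
    IsCoprime (1 - (1 - X) ^ N : K[X]) 1 ∧
    1 ≤ max (1 - (1 - X) ^ N : K[X]).natDegree (1 : K[X]).natDegree ∧
    (∀ β : AlgebraicClosure K,
      aeval β (derivative (1 - (1 - X) ^ N : K[X]) * 1 - (1 - (1 - X) ^ N) * derivative 1) = 0 →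
        aeval β ((1 - (1 - X) ^ N : K[X]) * 1 * ((1 - (1 - X) ^ N) - 1)) = 0) ∧
    (1 - (1 - X) ^ N : K[X]).eval 0 = 0 ∧
    ((1 - (1 - X) ^ N : K[X]) * 1 * ((1 - (1 - X) ^ N) - 1)).eval 1 = 0 ∧
    ((1 - (1 - X) ^ N : K[X]) * 1 * ((1 - (1 - X) ^ N) - 1)).natDegree <
      3 * max (1 - (1 - X) ^ N : K[X]).natDegree (1 : K[X]).natDegree := by
  have h1X : (1 - X : K[X]).natDegree = 1 := by compute_degree!
  have hpow : ((1 - X) ^ N : K[X]).natDegree = N := by
    rw [Polynomial.natDegree_pow, h1X, mul_one]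
  have hdeg : (1 - (1 - X) ^ N : K[X]).natDegree = N := by
    rw [Polynomial.natDegree_sub_eq_right_of_natDegree_lt, hpow]
    rw [natDegree_one, hpow]
    omega
  refine ⟨isCoprime_one_right, ?_, ?_, by simp, ?_, ?_⟩
  · rw [hdeg]
    omega
  · intro β hβ
    simp only [derivative_sub, derivative_one, derivative_pow, derivative_X, mul_one, mul_zero,
      sub_zero, zero_sub, map_neg, map_mul, map_pow, map_sub, map_one, aeval_X, map_natCast,
      neg_mul_neg, neg_eq_zero, mul_neg, neg_neg, mul_eq_zero] at hβ ⊢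
    have hN0 : ((N : ℕ) : AlgebraicClosure K) ≠ 0 := Nat.cast_ne_zero.mpr (by omega)
    rcases hβ with h | h
    · exact absurd h (by simpa using hN0)
    · right
      have := eq_zero_of_pow_eq_zero h
      rw [this, zero_pow (by omega)]
      ring
  · simp [zero_pow (show N ≠ 0 by omega)]
  · have e : ((1 - (1 - X) ^ N) - 1 : K[X]) = -((1 - X) ^ N) := by ring
    rw [e, mul_one]
    refine lt_of_le_of_lt Polynomial.natDegree_mul_le ?_
    rw [Polynomial.natDegree_neg, hdeg, hpow]
    have : N ≤ max N (1 : K[X]).natDegree := le_max_left _ _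
    omega

end Pool.Agent.Lib.MP_4d5ce1_nt.Red
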