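import Pool.Agent.Lib.MP_4d5ce1_nt.Red.Count

set_option autoImplicit false

open Polynomial

namespace Pool.Agent.Lib.MP_4d5ce1_nt.Red

section Mult

variable {E : Type*} [Field E] [CharZero E]

lemma wron_mult (f g : E[X]) (β : E) (hf0 : f ≠ 0) (hf : f.IsRoot β) (hg : ¬ g.IsRoot β) :
    derivative f * g - f * derivative g ≠ 0 ∧
      rootMultiplicity β f = rootMultiplicity β (derivative f * g - f * derivative g) + 1 := by
  obtain ⟨u, hu, hunr⟩ := Polynomial.exists_eq_pow_rootMultiplicity_mul_and_not_dvd f hf0 β
  set e := rootMultiplicity β f with he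
  have hepos : 0 < e := (Polynomial.rootMultiplicity_pos hf0).mpr hf
  obtain ⟨e', he'⟩ : ∃ e', e = e' + 1 := ⟨e - 1, by omega⟩
  set b : E[X] := (e : E[X]) * u * g + (X - C β) * (derivative u * g - u * derivative g) with hb
  have hfac : derivative f * g - f * derivative g = (X - C β) ^ e' * b := by
    rw [hu, hb, he']
    simp only [derivative_mul, derivative_pow, derivative_sub, derivative_X, derivative_C,
      Nat.add_sub_cancel, sub_zero, mul_one, map_natCast]
    push_cast
    ring
  have hbr : ¬ b.IsRoot β := by
    rw [Polynomial.IsRoot.def, hb]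
    simp only [eval_add, eval_mul, eval_natCast, eval_sub, eval_X, eval_C, sub_self, zero_mul,
      add_zero]
    have h1 : u.eval β ≠ 0 := by
      intro h
      exact hunr (Polynomial.dvd_iff_isRoot.mpr h)
    have h2 : g.eval β ≠ 0 := hg
    have h3 : (e : E) ≠ 0 := Nat.cast_ne_zero.mpr (by omega)
    exact mul_ne_zero (mul_ne_zero h3 h1) h2
  have hb0 : b ≠ 0 := by
    intro h
    apply hbr
    rw [h]
    simp
  have hne : (X - C β) ^ e' * b ≠ 0 :=
    mul_ne_zero (pow_ne_zero _ (Polynomial.X_sub_C_ne_zero β)) hb0
  rw [hfac]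
  refine ⟨hne, ?_⟩
  rw [Polynomial.rootMultiplicity_mul hne, Polynomial.rootMultiplicity_X_sub_C_pow,
    Polynomial.rootMultiplicity_eq_zero hbr, he']

lemma natDegree_wron (f g : E[X]) (hf : f ≠ 0) (hg : g ≠ 0) (hne : f.natDegree ≠ g.natDegree) :
    f.natDegree + g.natDegree ≤ (derivative f * g - f * derivative g).natDegree + 1 := by
  set a := f.natDegree with ha
  set b := g.natDegree with hb
  have hcoef1 : (derivative f * g).coeff (a + b - 1) = a * (f.leadingCoeff * g.leadingCoeff) := by
    rcases Nat.eq_zero_or_pos a with h | h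
    · have : derivative f = 0 := Polynomial.derivative_eq_zero.mpr (by omega)
      rw [this, h]
      simp
    · have e1 : a + b - 1 = (a - 1) + b := by omega
      rw [e1, Polynomial.coeff_mul_add_eq_of_natDegree_le
        (by rw [Polynomial.natDegree_derivative]) (le_of_eq hb.symm), Polynomial.coeff_derivative,
        Nat.sub_add_cancel h]
      have : ((a - 1 : ℕ) : E) + 1 = a := by
        rw [Nat.cast_sub h, Nat.cast_one]
        ring
      rw [this]
      rw [Polynomial.leadingCoeff, Polynomial.leadingCoeff, ← ha, ← hb]
      ring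
  have hcoef2 : (f * derivative g).coeff (a + b - 1) = b * (f.leadingCoeff * g.leadingCoeff) := by
    rcases Nat.eq_zero_or_pos b with h | h
    · have : derivative g = 0 := Polynomial.derivative_eq_zero.mpr (by omega)
      rw [this, h]
      simp
    · have e1 : a + b - 1 = a + (b - 1) := by omega
      rw [e1, Polynomial.coeff_mul_add_eq_of_natDegree_le (le_of_eq ha.symm)
        (by rw [Polynomial.natDegree_derivative]), Polynomial.coeff_derivative,
        Nat.sub_add_cancel h]
      have : ((b - 1 : ℕ) : E) + 1 = b := by
        rw [Nat.cast_sub h, Nat.cast_one]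
        ring
      rw [this]
      rw [Polynomial.leadingCoeff, Polynomial.leadingCoeff, ← ha, ← hb]
      ring
  have hc : (derivative f * g - f * derivative g).coeff (a + b - 1) ≠ 0 := by
    rw [Polynomial.coeff_sub, hcoef1, hcoef2, ← sub_mul]
    refine mul_ne_zero ?_ (mul_ne_zero (Polynomial.leadingCoeff_ne_zero.mpr hf)
      (Polynomial.leadingCoeff_ne_zero.mpr hg))
    rw [sub_ne_zero]
    exact fun h => hne (Nat.cast_injective h)
  have := Polynomial.le_natDegree_of_ne_zero hc
  omega

end Mult

variable {F : Type*} [Field F] [CharZero F]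

/-- The product of the distinct points of a Belyi map over `0, 1, ∞`. -/
lemma belyi_rat (A B : F[X]) (hco : IsCoprime A B) (hdeg : 1 ≤ max A.natDegree B.natDegree)
    (hcrit : ∀ β : AlgebraicClosure F,
      aeval β (derivative A * B - A * derivative B) = 0 → aeval β (A * B * (A - B)) = 0)
    (hinf : (A * B * (A - B)).natDegree < 3 * max A.natDegree B.natDegree) :
    ∃ W : F[X], A * B * (A - B) = (derivative A * B - A * derivative B) * W ∧
      A * B * (A - B) ≠ 0 ∧
      W.natDegree ≤ max A.natDegree B.natDegree + 1 ∧
      A * B * (A - B) ∣ W ^ (A * B * (A - B)).natDegree ∧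
      ∀ Q : F[X], Q.Separable →
        (∀ β : AlgebraicClosure F, aeval β Q = 0 → aeval β (A * B * (A - B)) = 0) → Q ∣ W := by
  classical
  set Om := AlgebraicClosure F
  set φ := algebraMap F Om
  set D := derivative A * B - A * derivative B with hD
  have hA0 : A ≠ 0 := by
    rintro rfl
    rw [isCoprime_zero_left] at hco
    have h1 := Polynomial.natDegree_eq_zero_of_isUnit hco
    simp [h1] at hdeg
  have hB0 : B ≠ 0 := by
    rintro rfl
    rw [isCoprime_zero_right] at hco
    have h1 := Polynomial.natDegree_eq_zero_of_isUnit hco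
    simp [h1] at hdeg
  have hAB0 : A - B ≠ 0 := by
    intro h
    rw [sub_eq_zero] at h
    subst h
    rw [isCoprime_self] at hco
    have h1 := Polynomial.natDegree_eq_zero_of_isUnit hco
    simp [h1] at hdeg
  have hR0 : A * B * (A - B) ≠ 0 := mul_ne_zero (mul_ne_zero hA0 hB0) hAB0
  have hDdeg : (A * B * (A - B)).natDegree ≤ D.natDegree + (max A.natDegree B.natDegree + 1) := by
    rw [Polynomial.natDegree_mul (mul_ne_zero hA0 hB0) hAB0, Polynomial.natDegree_mul hA0 hB0]
      at hinf ⊢
    rcases lt_trichotomy A.natDegree B.natDegree with h | h | h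
    · have h1 := natDegree_wron A B hA0 hB0 h.ne
      rw [← hD] at h1
      have h2 : (A - B).natDegree ≤ B.natDegree := by
        refine (Polynomial.natDegree_sub_le _ _).trans ?_
        omega
      rw [max_eq_right h.le]
      omega
    · have h2 : (A - B).natDegree ≤ B.natDegree := by
        refine (Polynomial.natDegree_sub_le _ _).trans ?_
        omega
      rw [h, max_self] at hinf ⊢
      have h3 : (A - B).natDegree < B.natDegree := by omega
      have h1 := natDegree_wron (A - B) B hAB0 hB0 h3.ne
      have e : derivative (A - B) * B - (A - B) * derivative B = D := by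
        rw [hD, derivative_sub]
        ring
      rw [e] at h1
      omega
    · have h1 := natDegree_wron A B hA0 hB0 h.ne'
      rw [← hD] at h1
      have h2 : (A - B).natDegree ≤ A.natDegree := by
        refine (Polynomial.natDegree_sub_le _ _).trans ?_
        omega
      rw [max_eq_left h.le]
      omega
  have hR0' : (A * B * (A - B)).map φ ≠ 0 := by
    rwa [Ne, Polynomial.map_eq_zero]
  have hA0' : A.map φ ≠ 0 := by rwa [Ne, Polynomial.map_eq_zero]
  have hB0' : B.map φ ≠ 0 := by rwa [Ne, Polynomial.map_eq_zero]
  have hAB0' : (A - B).map φ ≠ 0 := by rwa [Ne, Polynomial.map_eq_zero]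
  have rootiff : ∀ (f : F[X]) (β : Om), (f.map φ).IsRoot β ↔ aeval β f = 0 := by
    intro f β
    rw [Polynomial.IsRoot.def, Polynomial.eval_map_algebraMap]
  have hDmap : D.map φ = derivative (A.map φ) * B.map φ - A.map φ * derivative (B.map φ) := by
    rw [hD, Polynomial.map_sub, Polynomial.map_mul, Polynomial.map_mul, Polynomial.derivative_map,
      Polynomial.derivative_map]
  have hRmul : ∀ β : Om, rootMultiplicity β ((A * B * (A - B)).map φ) =
      rootMultiplicity β (A.map φ) + rootMultiplicity β (B.map φ) +
        rootMultiplicity β ((A - B).map φ) := by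
    intro β
    rw [Polynomial.map_mul, Polynomial.map_mul] at hR0' ⊢
    rw [Polynomial.rootMultiplicity_mul hR0',
      Polynomial.rootMultiplicity_mul (mul_ne_zero hA0' hB0')]
  have hcoev : ∀ β : Om, aeval β A = 0 → aeval β B = 0 → False := by
    intro β h1 h2
    obtain ⟨u, v, huv⟩ := hco
    have := congrArg (fun f : F[X] => aeval β f) huv
    simp only [map_add, map_mul, h1, h2, mul_zero, add_zero, map_one] at this
    exact zero_ne_one this
  -- the multiplicities
  have hmult : ∀ β : Om, aeval β (A * B * (A - B)) = 0 →
      D.map φ ≠ 0 ∧ rootMultiplicity β ((A * B * (A - B)).map φ) =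
        rootMultiplicity β (D.map φ) + 1 := by
    intro β hβ
    rw [map_mul, map_mul, mul_eq_zero, mul_eq_zero] at hβ
    rcases hβ with (h | h) | h
    · -- zero of A
      have hB : ¬ (B.map φ).IsRoot β := by
        rw [rootiff]
        exact fun h' => hcoev β h h'
      have hAB : ¬ ((A - B).map φ).IsRoot β := by
        rw [rootiff, map_sub, h, zero_sub, neg_eq_zero]
        exact fun h' => hcoev β h h'
      have h1 := wron_mult (A.map φ) (B.map φ) β hA0' ((rootiff _ _).mpr h) hB
      rw [← hDmap] at h1
      refine ⟨h1.1, ?_⟩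
      rw [hRmul, Polynomial.rootMultiplicity_eq_zero hB, Polynomial.rootMultiplicity_eq_zero hAB,
        h1.2]
    · -- zero of B
      have hA : ¬ (A.map φ).IsRoot β := by
        rw [rootiff]
        exact fun h' => hcoev β h' h
      have hAB : ¬ ((A - B).map φ).IsRoot β := by
        rw [rootiff, map_sub, h, sub_zero]
        exact fun h' => hcoev β h' h
      have h1 := wron_mult (B.map φ) (A.map φ) β hB0' ((rootiff _ _).mpr h) hA
      have e : derivative (B.map φ) * A.map φ - B.map φ * derivative (A.map φ) = -(D.map φ) := by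
        rw [hDmap]
        ring
      rw [e, neg_ne_zero] at h1
      refine ⟨h1.1, ?_⟩
      have e2 : rootMultiplicity β (-(D.map φ)) = rootMultiplicity β (D.map φ) := by
        rw [← count_roots, ← count_roots, Polynomial.roots_neg]
      rw [hRmul, Polynomial.rootMultiplicity_eq_zero hA, Polynomial.rootMultiplicity_eq_zero hAB,
        h1.2, e2]
      omega
    · -- zero of A - B
      rw [map_sub, sub_eq_zero] at h
      have hA : ¬ (A.map φ).IsRoot β := by
        rw [rootiff]
        exact fun h' => hcoev β h' (h ▸ h')
      have hB : ¬ (B.map φ).IsRoot β := by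
        rw [rootiff]
        exact fun h' => hcoev β (h.symm ▸ h') h'
      have hr : ((A - B).map φ).IsRoot β := by
        rw [rootiff, map_sub, h, sub_self]
      have h1 := wron_mult ((A - B).map φ) (B.map φ) β hAB0' hr hB
      have e : derivative ((A - B).map φ) * B.map φ - (A - B).map φ * derivative (B.map φ) =
          D.map φ := by
        rw [hDmap, Polynomial.map_sub, derivative_sub]
        ring
      rw [e] at h1
      refine ⟨h1.1, ?_⟩
      rw [hRmul, Polynomial.rootMultiplicity_eq_zero hA, Polynomial.rootMultiplicity_eq_zero hB,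
        h1.2]
      omega
  have hD0 : D ≠ 0 := by
    intro h
    rw [h, natDegree_zero] at hDdeg
    -- there is a root of the product
    have hpos : ((A * B * (A - B)).map φ).degree ≠ 0 := by
      rw [Polynomial.degree_map]
      intro h0
      have h1 : (A * B * (A - B)).natDegree = 0 := Polynomial.natDegree_eq_of_degree_eq_some h0
      rw [Polynomial.natDegree_mul (mul_ne_zero hA0 hB0) hAB0, Polynomial.natDegree_mul hA0 hB0]
        at h1
      omega
    obtain ⟨β, hβ⟩ := IsAlgClosed.exists_root _ hpos
    have := (hmult β ((rootiff _ _).mp hβ)).1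
    rw [h, Polynomial.map_zero] at this
    exact this rfl
  have hD0' : D.map φ ≠ 0 := by rwa [Ne, Polynomial.map_eq_zero]
  have hDdvd : D ∣ A * B * (A - B) := by
    rw [← Polynomial.map_dvd_map' φ]
    refine (IsAlgClosed.splits _).dvd_of_roots_le_roots hD0' ?_
    rw [Multiset.le_iff_count]
    intro β
    rw [count_roots, count_roots]
    by_cases hβ : aeval β (A * B * (A - B)) = 0
    · rw [(hmult β hβ).2]
      omega
    · have : ¬ (D.map φ).IsRoot β := by
        rw [rootiff]
        exact fun h => hβ (hcrit β h)
      rw [Polynomial.rootMultiplicity_eq_zero this]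
      omega
  obtain ⟨W, hW⟩ := hDdvd
  have hW0 : W ≠ 0 := by
    rintro rfl
    rw [mul_zero] at hW
    exact hR0 hW
  have hW0' : W.map φ ≠ 0 := by
    rwa [Ne, Polynomial.map_eq_zero]
  have hmulW : ∀ β : Om, rootMultiplicity β ((A * B * (A - B)).map φ) =
      rootMultiplicity β (D.map φ) + rootMultiplicity β (W.map φ) := by
    intro β
    rw [hW, Polynomial.map_mul, Polynomial.rootMultiplicity_mul (mul_ne_zero hD0' hW0')]
  have hWone : ∀ β : Om, aeval β (A * B * (A - B)) = 0 → rootMultiplicity β (W.map φ) = 1 := by
    intro β hβ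
    have h1 := (hmult β hβ).2
    have h2 := hmulW β
    omega
  refine ⟨W, hW, hR0, ?_, ?_, ?_⟩
  · have h1 := congrArg natDegree hW
    rw [Polynomial.natDegree_mul hD0 hW0] at h1
    omega
  · rw [← Polynomial.map_dvd_map' φ, Polynomial.map_pow]
    refine (IsAlgClosed.splits _).dvd_of_roots_le_roots hR0' ?_
    rw [Multiset.le_iff_count]
    intro β
    rw [Polynomial.roots_pow, Multiset.count_nsmul, count_roots, count_roots]
    by_cases hβ : aeval β (A * B * (A - B)) = 0
    · rw [hWone β hβ, mul_one, ← count_roots]
      refine (Multiset.count_le_card _ _).trans ?_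
      refine (Polynomial.card_roots' _).trans ?_
      rw [Polynomial.natDegree_map]
    · have : ¬ ((A * B * (A - B)).map φ).IsRoot β := by
        rw [rootiff]
        exact hβ
      rw [Polynomial.rootMultiplicity_eq_zero this]
      omega
  · intro Q hQ hroots
    rw [← Polynomial.map_dvd_map' φ]
    have hQ0 : Q.map φ ≠ 0 := by
      rw [Ne, Polynomial.map_eq_zero]
      exact hQ.ne_zero
    refine (IsAlgClosed.splits _).dvd_of_roots_le_roots hQ0 ?_
    rw [Multiset.le_iff_count]
    intro β
    rw [count_roots, count_roots]
    by_cases hβ : aeval β Q = 0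
    · rw [hWone β (hroots β hβ)]
      exact Polynomial.rootMultiplicity_le_one_of_separable (hQ.map) β
    · have : ¬ (Q.map φ).IsRoot β := by
        rw [rootiff]
        exact hβ
      rw [Polynomial.rootMultiplicity_eq_zero this]
      omega

end Pool.Agent.Lib.MP_4d5ce1_nt.Red
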