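import Pool.Agent.Lib.MP_4d5ce1_nt.Red.Assemble
import Pool.Agent.Lib.MP_4d5ce1_nt.Red.Algebraic
import Pool.Agent.Lib.MP_4d5ce1_nt.Red.Wron
import Pool.Agent.Lib.MP_4d5ce1_nt.Pair
import Pool.Agent.Lib.MP_4d5ce1_nt.Defs

set_option autoImplicit false

open NumberField IsDedekindDomain Polynomial

namespace Pool.Agent.Lib.MP_4d5ce1_nt.Red

variable {K : Type*} [Field K] [NumberField K]

lemma good_of_belyi (A B : K[X]) (hco : IsCoprime A B) (hdeg : 1 ≤ max A.natDegree B.natDegree)
    (hcrit : ∀ β : AlgebraicClosure K,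
      aeval β (derivative A * B - A * derivative B) = 0 → aeval β (A * B * (A - B)) = 0)
    (hinf : (A * B * (A - B)).natDegree < 3 * max A.natDegree B.natDegree)
    (h0 : (A * B * (A - B)).eval 0 = 0) (h1 : (A * B * (A - B)).eval 1 = 0) :
    Good A B (max A.natDegree B.natDegree) := by
  obtain ⟨W, hW, hR0, hWdeg, hRW, hQ⟩ := belyi_rat A B hco hdeg hcrit hinf
  have hXX : (X * (X - 1) : K[X]).Separable := by
    classical
    have : (X * (X - 1) : K[X]) = ∏ i ∈ ({0, 1} : Finset K), (X - C i) := by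
      rw [Finset.prod_pair (zero_ne_one)]
      simp
    rw [this, Polynomial.separable_prod_X_sub_C_iff']
    intro x _ y _ h
    exact h
  have hdvd : X * (X - 1) ∣ W := by
    refine hQ _ hXX ?_
    intro β hβ
    simp only [map_mul, aeval_X, map_sub, map_one, mul_eq_zero] at hβ
    have key : ∀ c : K, (A * B * (A - B)).eval c = 0 →
        aeval (algebraMap K (AlgebraicClosure K) c) (A * B * (A - B)) = 0 := by
      intro c hc
      rw [Polynomial.aeval_algebraMap_apply_eq_algebraMap_eval, hc, map_zero]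
    rcases hβ with h | h
    · have := key 0 h0
      rw [map_zero] at this
      rw [h]
      exact this
    · have := key 1 h1
      rw [map_one] at this
      rw [sub_eq_zero.mp h]
      exact this
  obtain ⟨G, hG⟩ := hdvd
  obtain ⟨T, hT⟩ := hRW
  have hW0 : W ≠ 0 := by
    rintro rfl
    rw [mul_zero] at hW
    exact hR0 hW
  have hXX0 : (X * (X - 1) : K[X]) ≠ 0 := hXX.ne_zero
  have hG0 : G ≠ 0 := by
    rintro rfl
    rw [mul_zero] at hG
    exact hW0 hG
  have hdegXX : (X * (X - 1) : K[X]).natDegree = 2 := by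
    have : (X * (X - 1) : K[X]) = X ^ 2 - X := by ring
    rw [this]
    compute_degree!
  refine ⟨hdeg, hco, rfl, G, T, (A * B * (A - B)).natDegree, ?_, ?_, ?_⟩
  · have := congrArg natDegree hG
    rw [Polynomial.natDegree_mul hXX0 hG0, hdegXX] at this
    omega
  · rw [← hG]
    exact hT
  · rw [← hG, hW]
    exact Dvd.intro_left _ rfl

lemma finrank_pos' : (0:ℝ) < Module.finrank ℚ K := by
  exact_mod_cast Module.finrank_pos

lemma hh_pair_one (z : K) : hh (z, (1 : K)) = lh z := by
  unfold hh lh sz szi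
  simp only [fa_one, map_one]

lemma ht_eq_hh (x : K × K) : ht x = hh x / (Module.finrank ℚ K : ℝ) := rfl

/-- The local summand of `trunc`. -/
noncomputable def loc {q : ℕ} (α : Fin q → K × K) (x : K × K) (v : HeightOneSpectrum (𝓞 K)) : ℝ :=
  ∑ l : Fin q, min (lamf v (α l) x / (Module.finrank ℚ K : ℝ))
      (Real.log (nv v) / (Module.finrank ℚ K : ℝ))

lemma trunc_eq {q : ℕ} (S : Set (HeightOneSpectrum (𝓞 K))) (α : Fin q → K × K) (x : K × K) :
    trunc S α x = ∑ᶠ (v : HeightOneSpectrum (𝓞 K)) (_ : v ∉ S), loc α x v := rfl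

lemma loc_nonneg {q : ℕ} (α : Fin q → K × K) {x : K × K} (hx : ∀ l, wedge x (α l) ≠ 0)
    (v : HeightOneSpectrum (𝓞 K)) : 0 ≤ loc α x v := by
  unfold loc
  refine Finset.sum_nonneg fun l _ => le_min ?_ ?_
  · exact div_nonneg (lamf_nonneg v (hx l)) finrank_pos'.le
  · exact div_nonneg (log_nv_pos v).le finrank_pos'.le

lemma trunc_nonneg {q : ℕ} (S : Set (HeightOneSpectrum (𝓞 K))) (α : Fin q → K × K) {x : K × K}
    (hx : ∀ l, wedge x (α l) ≠ 0) : 0 ≤ trunc S α x := by
  rw [trunc_eq]
  exact finsum_nonneg fun v => finsum_nonneg fun _ => loc_nonneg α hx v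

lemma loc_support {q : ℕ} (α : Fin q → K × K) {x : K × K} (hx : ∀ l, wedge x (α l) ≠ 0) :
    {v : HeightOneSpectrum (𝓞 K) | loc α x v ≠ 0}.Finite := by
  refine (Set.finite_iUnion fun l => finite_ef_ne_zero (hx l)).subset ?_
  intro v hv
  by_contra hcon
  simp only [Set.mem_iUnion, not_exists, Set.mem_ofPred_eq, not_not] at hcon
  apply hv
  unfold loc
  refine Finset.sum_eq_zero fun l _ => ?_
  rw [lamf_eq v (hx l), hcon l, Nat.cast_zero, zero_mul, zero_div]
  exact min_eq_left (div_nonneg (log_nv_pos v).le finrank_pos'.le)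

/-- Lower bound for the truncated sum. -/
lemma wt_le_trunc {q : ℕ} {S : Set (HeightOneSpectrum (𝓞 K))} (α : Fin q → K × K) {x : K × K}
    (hx : ∀ l, wedge x (α l) ≠ 0) {s : Set (HeightOneSpectrum (𝓞 K))} (hs : s.Finite)
    (hsS : ∀ v ∈ s, v ∉ S) (hef : ∀ v ∈ s, ∃ l, ef v (α l) x ≠ 0) :
    wt s ≤ (Module.finrank ℚ K : ℝ) * trunc S α x := by
  classical
  have hd := finrank_pos' (K := K)
  rw [trunc_eq]
  set g : HeightOneSpectrum (𝓞 K) → ℝ := fun v => ∑ᶠ (_ : v ∉ S), loc α x v with hg
  have hg0 : ∀ v, 0 ≤ g v := fun v => finsum_nonneg fun _ => loc_nonneg α hx v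
  have hgsupp : Function.support g ⊆ ((loc_support α hx).toFinset ∪ hs.toFinset : Finset _) := by
    intro v hv
    rw [Finset.coe_union]
    left
    rw [Set.Finite.coe_toFinset]
    intro h0
    apply hv
    show ∑ᶠ (_ : v ∉ S), loc α x v = 0
    rw [h0]
    simp
  have hge : ∀ v ∈ hs.toFinset, Real.log (nv v) / (Module.finrank ℚ K : ℝ) ≤ g v := by
    intro v hv
    rw [Set.Finite.mem_toFinset] at hv
    have hvS := hsS v hv
    have e : g v = loc α x v := by
      show ∑ᶠ (_ : v ∉ S), loc α x v = _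
      rw [finsum_eq_if, if_pos hvS]
    rw [e]
    obtain ⟨l, hl⟩ := hef v hv
    have h2 : Real.log (nv v) / (Module.finrank ℚ K : ℝ) ≤
        min (lamf v (α l) x / (Module.finrank ℚ K : ℝ))
          (Real.log (nv v) / (Module.finrank ℚ K : ℝ)) := by
      apply le_min _ le_rfl
      rw [lamf_eq v (hx _)]
      apply div_le_div_of_nonneg_right _ hd.le
      have h3 : (1:ℝ) ≤ (ef v (α l) x : ℝ) := by
        exact_mod_cast Nat.one_le_iff_ne_zero.mpr hl
      have h4 := log_nv_pos v
      nlinarith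
    refine h2.trans ?_
    unfold loc
    refine Finset.single_le_sum (f := fun l => min (lamf v (α l) x / (Module.finrank ℚ K : ℝ))
          (Real.log (nv v) / (Module.finrank ℚ K : ℝ))) (fun l _ => le_min ?_ ?_)
          (Finset.mem_univ l)
    · exact div_nonneg (lamf_nonneg v (hx l)) hd.le
    · exact div_nonneg (log_nv_pos v).le hd.le
  rw [finsum_eq_sum_of_support_subset _ hgsupp, wt_eq_sum hs]
  have h5 : ∑ v ∈ hs.toFinset, Real.log (nv v) / (Module.finrank ℚ K : ℝ) ≤
      ∑ v ∈ (loc_support α hx).toFinset ∪ hs.toFinset, g v :=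
    (Finset.sum_le_sum hge).trans
      (Finset.sum_le_sum_of_subset_of_nonneg Finset.subset_union_right fun v _ _ => hg0 v)
  rw [← Finset.sum_div, div_le_iff₀ hd] at h5
  linarith

/-- The three points `0, 1, ∞`. -/
def cusps (K : Type*) [Field K] : Fin 3 → K × K := ![(0, 1), (1, 1), (1, 0)]

/-- Upper bound for the truncated sum for three points. -/
lemma trunc_cusps_le {x : K} (h0 : x ≠ 0) (h1 : x ≠ 1) :
    (Module.finrank ℚ K : ℝ) * trunc ∅ (cusps K) (x, 1) ≤ wt (cl x) := by
  classical
  have hd := finrank_pos' (K := K)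
  have hx : ∀ l, wedge (x, (1 : K)) (cusps K l) ≠ 0 := by
    intro l
    fin_cases l
    · simpa [wedge, cusps] using h0
    · simpa [wedge, cusps, sub_eq_zero] using h1
    · simp [wedge, cusps]
  have w0 : wedge (x, (1 : K)) (cusps K 0) = x := by simp [wedge, cusps]
  have w1 : wedge (x, (1 : K)) (cusps K 1) = x - 1 := by simp [wedge, cusps]
  have w2 : wedge (x, (1 : K)) (cusps K 2) = -1 := by simp [wedge, cusps]
  have s0 : ∀ v : HeightOneSpectrum (𝓞 K), sz v (cusps K 0) = 1 := by
    intro v; simp [sz, cusps]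
  have s1 : ∀ v : HeightOneSpectrum (𝓞 K), sz v (cusps K 1) = 1 := by
    intro v; simp [sz, cusps]
  have s2 : ∀ v : HeightOneSpectrum (𝓞 K), sz v (cusps K 2) = 1 := by
    intro v; simp [sz, cusps]
  have sx : ∀ v : HeightOneSpectrum (𝓞 K), sz v (x, (1 : K)) = max (fa v x) 1 := by
    intro v; simp [sz]
  have l0 : ∀ v : HeightOneSpectrum (𝓞 K), lamf v (cusps K 0) (x, 1) =
      Real.log (max (fa v x) 1 / fa v x) := by
    intro v; unfold lamf; rw [s0, sx, w0, mul_one]
  have l1 : ∀ v : HeightOneSpectrum (𝓞 K), lamf v (cusps K 1) (x, 1) =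
      Real.log (max (fa v x) 1 / fa v (x - 1)) := by
    intro v; unfold lamf; rw [s1, sx, w1, mul_one]
  have l2 : ∀ v : HeightOneSpectrum (𝓞 K), lamf v (cusps K 2) (x, 1) =
      Real.log (max (fa v x) 1) := by
    intro v; unfold lamf; rw [s2, sx, w2, mul_one, fa_neg, fa_one, div_one]
  have hloc : ∀ v : HeightOneSpectrum (𝓞 K), loc (cusps K) (x, 1) v =
      min (lamf v (cusps K 0) (x, 1) / (Module.finrank ℚ K : ℝ))
        (Real.log (nv v) / (Module.finrank ℚ K : ℝ)) +
      min (lamf v (cusps K 1) (x, 1) / (Module.finrank ℚ K : ℝ))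
        (Real.log (nv v) / (Module.finrank ℚ K : ℝ)) +
      min (lamf v (cusps K 2) (x, 1) / (Module.finrank ℚ K : ℝ))
        (Real.log (nv v) / (Module.finrank ℚ K : ℝ)) := by
    intro v
    unfold loc
    rw [Fin.sum_univ_three]
  have hle : ∀ v : HeightOneSpectrum (𝓞 K), loc (cusps K) (x, 1) v ≤
      if v ∈ cl x then Real.log (nv v) / (Module.finrank ℚ K : ℝ) else 0 := by
    intro v
    have hnn := div_nonneg (log_nv_pos v).le hd.le
    have hmin0 : min ((0:ℝ) / (Module.finrank ℚ K : ℝ))
        (Real.log (nv v) / (Module.finrank ℚ K : ℝ)) = 0 := by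
      rw [zero_div]
      exact min_eq_left hnn
    rw [hloc]
    rcases lt_trichotomy (fa v x) 1 with h | h | h
    · -- close to 0
      have hmem : v ∈ cl x := fun hc => absurd hc.1 h.ne
      have e1 : fa v (x - 1) = 1 := by
        have := fa_add_eq_right v (x := x) (y := -1) (by rw [fa_neg, fa_one]; exact h)
        rw [fa_neg, fa_one, ← sub_eq_add_neg] at this
        exact this
      have m1 : max (fa v x) 1 = 1 := max_eq_right h.le
      rw [if_pos hmem, l1, l2, m1, e1, div_one, Real.log_one, hmin0]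
      have := min_le_right (lamf v (cusps K 0) (x, 1) / (Module.finrank ℚ K : ℝ))
        (Real.log (nv v) / (Module.finrank ℚ K : ℝ))
      linarith
    · have m1 : max (fa v x) 1 = 1 := by rw [h, max_self]
      rw [l0, l2, m1, h, div_one, Real.log_one, hmin0, zero_add, add_zero]
      by_cases hmem : v ∈ cl x
      · rw [if_pos hmem]
        exact min_le_right _ _
      · rw [if_neg hmem]
        have hmem' : fa v x = 1 ∧ fa v (1 - x) = 1 := by
          by_contra hc
          exact hmem hc
        rw [l1, m1, fa_sub_comm, hmem'.2, div_one, Real.log_one, hmin0]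
    · -- close to ∞
      have hmem : v ∈ cl x := fun hc => absurd hc.1 h.ne'
      have e1 : fa v (x - 1) = fa v x := by
        have := fa_add_eq_right v (x := -1) (y := x) (by rw [fa_neg, fa_one]; exact h)
        rw [neg_add_eq_sub] at this
        exact this
      have m1 : max (fa v x) 1 = fa v x := max_eq_left h.le
      have hx0 : fa v x ≠ 0 := by linarith
      rw [if_pos hmem, l0, l1, m1, e1, div_self hx0, Real.log_one, hmin0]
      have := min_le_right (lamf v (cusps K 2) (x, 1) / (Module.finrank ℚ K : ℝ))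
        (Real.log (nv v) / (Module.finrank ℚ K : ℝ))
      linarith
  have hclfin := cl_finite h0 h1
  rw [trunc_eq, wt_eq_sum hclfin]
  set g : HeightOneSpectrum (𝓞 K) → ℝ := fun v =>
    ∑ᶠ (_ : v ∉ (∅ : Set (HeightOneSpectrum (𝓞 K)))), loc (cusps K) (x, 1) v with hg
  have hgeq : ∀ v, g v = loc (cusps K) (x, 1) v := by
    intro v
    show ∑ᶠ (_ : v ∉ (∅ : Set (HeightOneSpectrum (𝓞 K)))), loc (cusps K) (x, 1) v = _
    rw [finsum_eq_if, if_pos (Set.notMem_empty v)]
  have hsupp : Function.support g ⊆ (hclfin.toFinset : Set _) := by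
    intro v hv
    rw [Set.Finite.coe_toFinset]
    by_contra hc
    apply hv
    rw [hgeq]
    have h2 := hle v
    rw [if_neg hc] at h2
    exact le_antisymm h2 (loc_nonneg _ hx v)
  rw [finsum_eq_sum_of_support_subset _ hsupp, Finset.mul_sum]
  refine Finset.sum_le_sum fun v hv => ?_
  rw [Set.Finite.mem_toFinset] at hv
  have h2 := hle v
  rw [if_pos hv] at h2
  rw [hgeq, mul_comm]
  exact (le_div_iff₀ hd).mp h2

/-- The height in terms of a coordinate. -/
lemma hh_le_lh {a b : K × K} (hab : wedge a b ≠ 0) : ∃ C : ℝ, ∀ x : K × K, wedge x b ≠ 0 →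
    hh x ≤ lh (wedge x a / wedge x b) + C := by
  classical
  have ha0 := wedge_left_ne hab
  have hb0 := wedge_right_ne hab
  -- constants
  set c : HeightOneSpectrum (𝓞 K) → ℝ := fun v => max (sz v a) 1 * max (sz v b) 1 with hc
  set cw : InfinitePlace K → ℝ := fun w => 2 * (max (szi w a) 1 * max (szi w b) 1) with hcw
  have hcge : ∀ v, 1 ≤ c v := fun v =>
    one_le_mul_of_one_le_of_one_le (le_max_right _ _) (le_max_right _ _)
  have hcsupp : (Function.support fun v => Real.log (c v)).Finite := by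
    refine ((finite_sz_ne_one ha0).union (finite_sz_ne_one hb0)).subset ?_
    intro v hv
    by_contra hcon
    simp only [Set.mem_union, Set.mem_ofPred_eq, not_or, not_not] at hcon
    apply hv
    simp [hc, hcon.1, hcon.2]
  refine ⟨∑ w : InfinitePlace K, (w.mult : ℝ) * Real.log (cw w) +
    ∑ᶠ v : HeightOneSpectrum (𝓞 K), Real.log (c v), ?_⟩
  intro x hxb
  have hx0 := wedge_left_ne hxb
  set z := wedge x a / wedge x b with hz
  have hpf1 := product_formula hab
  have hpf2 := product_formula hxb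
  obtain ⟨F, hF⟩ : ∃ F : Finset (HeightOneSpectrum (𝓞 K)),
      F = ((finite_log_fa hab).union ((finite_log_fa hxb).union ((finite_log z).union
        (hcsupp.union (finite_sz_ne_one hx0))))).toFinset := ⟨_, rfl⟩
  have s1 : ∑ᶠ v : HeightOneSpectrum (𝓞 K), Real.log (fa v (wedge a b)) =
      ∑ v ∈ F, Real.log (fa v (wedge a b)) := by
    refine finsum_eq_sum_of_support_subset _ ?_
    intro v hv
    rw [hF, Set.Finite.coe_toFinset]
    exact Or.inl hv
  have s2 : ∑ᶠ v : HeightOneSpectrum (𝓞 K), Real.log (fa v (wedge x b)) =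
      ∑ v ∈ F, Real.log (fa v (wedge x b)) := by
    refine finsum_eq_sum_of_support_subset _ ?_
    intro v hv
    rw [hF, Set.Finite.coe_toFinset]
    exact Or.inr (Or.inl hv)
  have s3 : ∑ᶠ v : HeightOneSpectrum (𝓞 K), Real.log (max (fa v z) 1) =
      ∑ v ∈ F, Real.log (max (fa v z) 1) := by
    refine finsum_eq_sum_of_support_subset _ ?_
    intro v hv
    rw [hF, Set.Finite.coe_toFinset]
    exact Or.inr (Or.inr (Or.inl hv))
  have s4 : ∑ᶠ v : HeightOneSpectrum (𝓞 K), Real.log (c v) = ∑ v ∈ F, Real.log (c v) := by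
    refine finsum_eq_sum_of_support_subset _ ?_
    intro v hv
    rw [hF, Set.Finite.coe_toFinset]
    exact Or.inr (Or.inr (Or.inr (Or.inl hv)))
  have s5 : ∑ᶠ v : HeightOneSpectrum (𝓞 K), Real.log (sz v x) = ∑ v ∈ F, Real.log (sz v x) := by
    refine finsum_eq_sum_of_support_subset _ ?_
    intro v hv
    rw [hF, Set.Finite.coe_toFinset]
    refine Or.inr (Or.inr (Or.inr (Or.inr ?_)))
    intro h
    apply hv
    show Real.log (sz v x) = 0
    rw [h, Real.log_one]
  rw [s1] at hpf1
  rw [s2] at hpf2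
  unfold hh lh
  rw [s3, s4, s5]
  have tfin : ∀ v ∈ F, Real.log (sz v x) + Real.log (fa v (wedge a b)) ≤
      Real.log (max (fa v z) 1) + Real.log (fa v (wedge x b)) + Real.log (c v) := by
    intro v _
    have p1 := sz_pos v hx0
    have p2 := fa_pos v hab
    have p3 : (0:ℝ) < max (fa v z) 1 := lt_of_lt_of_le one_pos (le_max_right _ _)
    have p4 := fa_pos v hxb
    have p5 : 0 < c v := lt_of_lt_of_le one_pos (hcge v)
    rw [← Real.log_mul p1.ne' p2.ne', ← Real.log_mul p3.ne' p4.ne',
      ← Real.log_mul (by positivity) p5.ne']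
    refine Real.log_le_log (by positivity) ?_
    have h3 := fa_three v a b x
    have e1 : fa v (wedge a x) = fa v (wedge x a) := by
      have : wedge a x = - wedge x a := by unfold wedge; ring
      rw [this, fa_neg]
    have e2 : fa v (wedge b x) = fa v (wedge x b) := by
      have : wedge b x = - wedge x b := by unfold wedge; ring
      rw [this, fa_neg]
    rw [e1, e2] at h3
    have e3 : max (fa v z) 1 * fa v (wedge x b) = max (fa v (wedge x a)) (fa v (wedge x b)) := by
      rw [max_mul_of_nonneg _ _ p4.le, hz, fa_div, div_mul_cancel₀ _ p4.ne', one_mul]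
    rw [e3, mul_comm]
    refine h3.trans (max_le ?_ ?_)
    · refine mul_le_mul (le_max_left _ _) ?_ (sz_nonneg v b) ?_
      · calc sz v b ≤ max (sz v b) 1 := le_max_left _ _
          _ ≤ c v := le_mul_of_one_le_left (by positivity) (le_max_right _ _)
      · exact (fa_nonneg _ _).trans (le_max_left _ _)
    · refine mul_le_mul (le_max_right _ _) ?_ (sz_nonneg v a) ?_
      · calc sz v a ≤ max (sz v a) 1 := le_max_left _ _
          _ ≤ c v := le_mul_of_one_le_right (by positivity) (le_max_right _ _)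
      · exact (fa_nonneg _ _).trans (le_max_left _ _)
  have tinf : ∀ w : InfinitePlace K, (w.mult : ℝ) * Real.log (szi w x) +
      (w.mult : ℝ) * Real.log (w (wedge a b)) ≤
      (w.mult : ℝ) * Real.log (max (w z) 1) + (w.mult : ℝ) * Real.log (w (wedge x b)) +
        (w.mult : ℝ) * Real.log (cw w) := by
    intro w
    have p1 := szi_pos w hx0
    have p2 : 0 < w (wedge a b) := InfinitePlace.pos_iff.mpr hab
    have p3 : (0:ℝ) < max (w z) 1 := lt_of_lt_of_le one_pos (le_max_right _ _)
    have p4 : 0 < w (wedge x b) := InfinitePlace.pos_iff.mpr hxb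
    have p5 : 0 < cw w := by
      have h1 : (0:ℝ) < max (szi w a) 1 := lt_of_lt_of_le one_pos (le_max_right _ _)
      have h2 : (0:ℝ) < max (szi w b) 1 := lt_of_lt_of_le one_pos (le_max_right _ _)
      positivity
    have key : Real.log (szi w x) + Real.log (w (wedge a b)) ≤
        Real.log (max (w z) 1) + Real.log (w (wedge x b)) + Real.log (cw w) := by
      rw [← Real.log_mul p1.ne' p2.ne', ← Real.log_mul p3.ne' p4.ne',
        ← Real.log_mul (by positivity) p5.ne']
      refine Real.log_le_log (by positivity) ?_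
      have h3 := w_three w a b x
      have e1 : w (wedge a x) = w (wedge x a) := by
        have : wedge a x = - wedge x a := by unfold wedge; ring
        rw [this]
        exact w.1.map_neg _
      have e2 : w (wedge b x) = w (wedge x b) := by
        have : wedge b x = - wedge x b := by unfold wedge; ring
        rw [this]
        exact w.1.map_neg _
      rw [e1, e2] at h3
      have e3 : max (w z) 1 * w (wedge x b) = max (w (wedge x a)) (w (wedge x b)) := by
        rw [max_mul_of_nonneg _ _ p4.le, hz, map_div₀, div_mul_cancel₀ _ p4.ne', one_mul]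
      rw [e3, mul_comm]
      have hA : szi w b ≤ max (szi w a) 1 * max (szi w b) 1 := by
        calc szi w b ≤ max (szi w b) 1 := le_max_left _ _
          _ ≤ _ := le_mul_of_one_le_left (by positivity) (le_max_right _ _)
      have hB : szi w a ≤ max (szi w a) 1 * max (szi w b) 1 := by
        calc szi w a ≤ max (szi w a) 1 := le_max_left _ _
          _ ≤ _ := le_mul_of_one_le_right (by positivity) (le_max_right _ _)
      have hM0 : 0 ≤ max (w (wedge x a)) (w (wedge x b)) :=
        (apply_nonneg w _).trans (le_max_left _ _)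
      have g1 : w (wedge x a) * szi w b ≤
          max (w (wedge x a)) (w (wedge x b)) * (max (szi w a) 1 * max (szi w b) 1) :=
        mul_le_mul (le_max_left _ _) hA (szi_nonneg w b) hM0
      have g2 : w (wedge x b) * szi w a ≤
          max (w (wedge x a)) (w (wedge x b)) * (max (szi w a) 1 * max (szi w b) 1) :=
        mul_le_mul (le_max_right _ _) hB (szi_nonneg w a) hM0
      show w (wedge a b) * szi w x ≤ max (w (wedge x a)) (w (wedge x b)) *
        (2 * (max (szi w a) 1 * max (szi w b) 1))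
      linarith
    have h2 : (0:ℝ) ≤ (w.mult : ℝ) := Nat.cast_nonneg _
    nlinarith [mul_le_mul_of_nonneg_left key h2]
  have r1 := Finset.sum_le_sum tfin
  have r2 := Finset.sum_le_sum (s := Finset.univ) fun w _ => tinf w
  simp only [Finset.sum_add_distrib] at r1 r2
  linarith

/-- The full conjecture over `K` follows from the case of three points. -/
theorem q_one (hbase : VV (X * (X - 1) : K[X])) (S : Set (HeightOneSpectrum (𝓞 K)))
    (hS : S.Finite) (q : ℕ) (α : Fin q → K × K)
    (hα : ∀ i j, i ≠ j → wedge (α i) (α j) ≠ 0) (ε : ℝ) (hε : 0 < ε) :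
    ∃ C : ℝ, ∀ x : K × K, x ≠ 0 → (∀ l, wedge x (α l) ≠ 0) →
      ((q : ℝ) - 2 - ε) * ht x ≤ trunc S α x + C := by
  classical
  have hd := finrank_pos' (K := K)
  rcases le_or_gt ((q : ℝ) - 2 - ε) 0 with hneg | hpos
  · refine ⟨0, fun x hx hxl => ?_⟩
    have h1 := trunc_nonneg S α hxl
    have h2 : 0 ≤ ht x := by
      rw [ht_eq_hh]
      exact div_nonneg (hh_nonneg hx) hd.le
    nlinarith
  have hq3 : 2 < q := by
    have : (2:ℝ) < q := by linarith
    exact_mod_cast this
  obtain ⟨n, rfl⟩ : ∃ n, q = n + 2 := ⟨q - 2, by omega⟩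
  set a0 := α 0 with ha0
  set a1 := α 1 with ha1
  have h01 : (1 : Fin (n + 2)) ≠ 0 := by
    intro h
    have := congrArg Fin.val h
    simp at this
  have hw10 : wedge a1 a0 ≠ 0 := hα 1 0 h01
  set I : Finset (Fin (n + 2)) := Finset.univ.erase 0 with hI
  have hIcard : I.card = n + 1 := by
    rw [hI, Finset.card_erase_of_mem (Finset.mem_univ _), Finset.card_univ, Fintype.card_fin]
    omega
  have hIne : ∀ l ∈ I, wedge (α l) a0 ≠ 0 := by
    intro l hl
    exact hα l 0 (Finset.mem_erase.mp hl).1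
  set β : Fin (n + 2) → K := fun l => wedge (α l) a1 / wedge (α l) a0 with hβ
  -- the difference formula
  have hdiff : ∀ x y : K × K, wedge x a0 ≠ 0 → wedge y a0 ≠ 0 →
      wedge x a1 / wedge x a0 - wedge y a1 / wedge y a0 =
        wedge x y * wedge a1 a0 / (wedge x a0 * wedge y a0) := by
    intro x y hx hy
    rw [div_sub_div _ _ hx hy, ← plucker x y a1 a0]
  have hβinj : ∀ i ∈ I, ∀ j ∈ I, β i = β j → i = j := by
    intro i hi j hj hij
    by_contra hne
    have h1 := hdiff (α i) (α j) (hIne i hi) (hIne j hj)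
    have h2 : wedge (α i) a1 / wedge (α i) a0 - wedge (α j) a1 / wedge (α j) a0 = 0 :=
      sub_eq_zero.mpr hij
    rw [h2] at h1
    have h3 : wedge (α i) (α j) * wedge a1 a0 / (wedge (α i) a0 * wedge (α j) a0) ≠ 0 :=
      div_ne_zero (mul_ne_zero (hα i j hne) hw10) (mul_ne_zero (hIne i hi) (hIne j hj))
    exact h3 h1.symm
  set P : K[X] := ∏ i ∈ I, (X - C (β i)) with hP
  have hPdeg : P.natDegree = n + 1 := by
    rw [hP, Polynomial.natDegree_prod_of_monic _ _ fun i _ => Polynomial.monic_X_sub_C _]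
    simp [hIcard]
  have hV : VV P := VV_points hbase I β hβinj
  obtain ⟨C1, hC1⟩ := hV ε hε
  obtain ⟨C2, hC2⟩ := hh_le_lh hw10
  -- bad primes
  set bad : Set (HeightOneSpectrum (𝓞 K)) := S ∪ (⋃ l : Fin (n + 2), {v | sz v (α l) ≠ 1}) ∪
    (⋃ l ∈ I, {v | fa v (wedge (α l) a0) ≠ 1}) ∪ {v | fa v (wedge a1 a0) ≠ 1} with hbad
  have hαne : ∀ l, α l ≠ 0 := by
    intro l
    by_cases hl : l = 0
    · subst hl
      exact wedge_right_ne hw10
    · exact wedge_left_ne (hα l 0 hl)
  have hbadfin : bad.Finite := by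
    refine ((hS.union (Set.finite_iUnion fun l => finite_sz_ne_one (hαne l))).union
      (Set.Finite.biUnion (Finset.finite_toSet I) fun l hl => ?_)).union (finite_fa_ne_one hw10)
    exact finite_fa_ne_one (hIne l hl)
  set κ : ℝ := (((n + 2 : ℕ) : ℝ) - 2 - ε) with hκ
  refine ⟨(κ * |C2| + |C1| + wt bad) / (Module.finrank ℚ K : ℝ), fun x hx hxl => ?_⟩
  have hx0 : wedge x a0 ≠ 0 := hxl 0
  set z := wedge x a1 / wedge x a0 with hz
  have hzβ : ∀ l ∈ I, z - β l = wedge x (α l) * wedge a1 a0 / (wedge x a0 * wedge (α l) a0) :=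
    fun l hl => hdiff x (α l) hx0 (hIne l hl)
  have hPz : P.eval z = ∏ l ∈ I, (z - β l) := by
    rw [hP, Polynomial.eval_prod]
    simp
  have hPz0 : P.eval z ≠ 0 := by
    rw [hPz]
    refine Finset.prod_ne_zero_iff.mpr fun l hl => ?_
    rw [hzβ l hl]
    exact div_ne_zero (mul_ne_zero (hxl l) hw10) (mul_ne_zero hx0 (hIne l hl))
  have e1 := hC1 z hPz0
  have e2 := hC2 x hx0
  have hclfin := clP_finite P hPz0
  -- the primes outside bad
  have hout : ∀ v ∈ clP P z \ bad, ∃ l, ef v (α l) x ≠ 0 := by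
    rintro v ⟨hv, hvb⟩
    by_contra hcon
    push Not at hcon
    simp only [hbad, Set.mem_union, Set.mem_iUnion, Set.mem_ofPred_eq, not_or, not_exists,
      not_not] at hvb
    obtain ⟨⟨⟨_, hsz⟩, hwI⟩, hw⟩ := hvb
    have hfw : ∀ l, fa v (wedge x (α l)) = sz v x := by
      intro l
      rw [fa_wedge_eq v (hxl l), hcon l, hsz l, pow_zero, inv_one, mul_one, mul_one]
    have hsx := sz_pos v hx
    rcases hv with hv | hv
    · rw [hz, fa_div, hfw 1, hfw 0, div_self hsx.ne'] at hv
      exact lt_irrefl _ hv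
    · rw [hPz] at hv
      have hprod : fa v (∏ l ∈ I, (z - β l)) = ∏ l ∈ I, fa v (z - β l) := by
        unfold fa
        exact map_prod _ _ _
      rw [hprod, Finset.prod_eq_one] at hv
      · exact lt_irrefl _ hv
      · intro l hl
        rw [hzβ l hl, fa_div, fa_mul, fa_mul, hfw l, hw, mul_one]
        rw [hwI l hl, mul_one, hfw 0, div_self hsx.ne']
  have hsub : clP P z ⊆ bad ∪ (clP P z \ bad) := by
    intro v hv
    by_cases hb : v ∈ bad
    · exact Or.inl hb
    · exact Or.inr ⟨hv, hb⟩
  have hdfin : (clP P z \ bad).Finite := hclfin.subset Set.sdiff_subset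
  have e3 := wt_mono (hbadfin.union hdfin) hsub
  have e4 := wt_union_le hbadfin hdfin
  have e5 := wt_le_trunc (S := S) α hxl hdfin (fun v hv hvS => hv.2 (by
    simp only [hbad, Set.mem_union]
    exact Or.inl (Or.inl (Or.inl hvS)))) hout
  rw [hPdeg] at e1
  have e6 : κ * hh x ≤ κ * lh z + κ * |C2| := by
    rw [← mul_add]
    refine mul_le_mul_of_nonneg_left ?_ hpos.le
    have := le_abs_self C2
    linarith
  have e7 : κ * lh z ≤ wt (clP P z) + |C1| := by
    have h8 := le_abs_self C1
    have h9 : (((n + 1 : ℕ) : ℝ) - 1 - ε) = κ := by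
      rw [hκ]
      push_cast
      ring
    rw [h9] at e1
    linarith
  rw [ht_eq_hh, ← mul_div_assoc, div_le_iff₀ hd, add_mul, div_mul_cancel₀ _ hd.ne']
  have : trunc S α x * (Module.finrank ℚ K : ℝ) = (Module.finrank ℚ K : ℝ) * trunc S α x :=
    mul_comm _ _
  rw [this]
  linarith

end Pool.Agent.Lib.MP_4d5ce1_nt.Red
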