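import Pool.Agent.Lib.MP_4d5ce1_nt.Basic
import Pool.Agent.Lib.MP_4d5ce1_nt.Defs

set_option autoImplicit false

open NumberField IsDedekindDomain Polynomial

namespace Pool.Agent.Lib.MP_4d5ce1_nt.Red

variable {K : Type*} [Field K] [NumberField K]

/-- `[K : ℚ]` times the height of the point `[z : 1]`. -/
noncomputable def lh (z : K) : ℝ :=
  ∑ w : InfinitePlace K, (w.mult : ℝ) * Real.log (max (w z) 1) +
    ∑ᶠ v : HeightOneSpectrum (𝓞 K), Real.log (max (fa v z) 1)

/-- The weight of a set of primes. -/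
noncomputable def wt (s : Set (HeightOneSpectrum (𝓞 K))) : ℝ := ∑ᶠ v ∈ s, Real.log (nv v)

/-- The primes at which `x` is congruent to one of `0, 1, ∞`. -/
def cl (x : K) : Set (HeightOneSpectrum (𝓞 K)) := {v | ¬ (fa v x = 1 ∧ fa v (1 - x) = 1)}

lemma cl_finite {x : K} (h0 : x ≠ 0) (h1 : x ≠ 1) : (cl x).Finite := by
  have h1' : (1 : K) - x ≠ 0 := sub_ne_zero.mpr (Ne.symm h1)
  refine ((finite_fa_ne_one h0).union (finite_fa_ne_one h1')).subset ?_
  intro v hv
  simp only [cl, Set.mem_ofPred_eq, not_and_or] at hv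
  exact hv

lemma wt_eq_sum {s : Set (HeightOneSpectrum (𝓞 K))} (hs : s.Finite) :
    wt s = ∑ v ∈ hs.toFinset, Real.log (nv v) := by
  unfold wt
  rw [finsum_mem_eq_finite_toFinset_sum _ hs]

lemma wt_nonneg (s : Set (HeightOneSpectrum (𝓞 K))) : 0 ≤ wt s := by
  unfold wt
  refine finsum_nonneg fun v => finsum_nonneg fun _ => (log_nv_pos v).le

lemma wt_mono {s t : Set (HeightOneSpectrum (𝓞 K))} (ht : t.Finite) (h : s ⊆ t) :
    wt s ≤ wt t := by
  rw [wt_eq_sum ht, wt_eq_sum (ht.subset h)]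
  refine Finset.sum_le_sum_of_subset_of_nonneg ?_ fun v _ _ => (log_nv_pos v).le
  intro v hv
  simp only [Set.Finite.mem_toFinset] at hv ⊢
  exact h hv

lemma wt_union_le {s t : Set (HeightOneSpectrum (𝓞 K))} (hs : s.Finite) (ht : t.Finite) :
    wt (s ∪ t) ≤ wt s + wt t := by
  classical
  rw [wt_eq_sum ht, wt_eq_sum hs, wt_eq_sum (hs.union ht)]
  have : (hs.union ht).toFinset = hs.toFinset ∪ ht.toFinset := by
    ext v; simp
  rw [this, ← Finset.sum_union_inter]
  have : 0 ≤ ∑ x ∈ hs.toFinset ∩ ht.toFinset, Real.log (nv x) :=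
    Finset.sum_nonneg fun v _ => (log_nv_pos v).le
  linarith

lemma finite_log (z : K) :
    (Function.support fun v : HeightOneSpectrum (𝓞 K) => Real.log (max (fa v z) 1)).Finite := by
  by_cases hz : z = 0
  · subst hz
    convert Set.finite_empty
    ext v
    simp
  · refine (finite_fa_ne_one hz).subset ?_
    intro v hv h
    apply hv
    simp [h]

lemma log_max_nonneg (a : ℝ) : 0 ≤ Real.log (max a 1) := Real.log_nonneg (le_max_right _ _)

lemma lh_nonneg (z : K) : 0 ≤ lh z := by
  unfold lh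
  refine add_nonneg (Finset.sum_nonneg fun w _ => mul_nonneg (Nat.cast_nonneg _) (log_max_nonneg _))
    (finsum_nonneg fun v => log_max_nonneg _)

/-- A bound for the coefficients at a finite place. -/
noncomputable def Mv (P : K[X]) (v : HeightOneSpectrum (𝓞 K)) : ℝ :=
  ∏ i ∈ P.support, max (fa v (P.coeff i)) 1

lemma one_le_Mv (P : K[X]) (v : HeightOneSpectrum (𝓞 K)) : 1 ≤ Mv P v := by
  unfold Mv
  exact Finset.one_le_prod fun i _ => le_max_right _ _

lemma Mv_pos (P : K[X]) (v : HeightOneSpectrum (𝓞 K)) : 0 < Mv P v :=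
  lt_of_lt_of_le one_pos (one_le_Mv P v)

lemma coeff_le_Mv (P : K[X]) (v : HeightOneSpectrum (𝓞 K)) (i : ℕ) :
    fa v (P.coeff i) ≤ Mv P v := by
  classical
  by_cases hi : i ∈ P.support
  · unfold Mv
    rw [← Finset.mul_prod_erase _ _ hi]
    have h1 : 1 ≤ ∏ x ∈ P.support.erase i, max (fa v (P.coeff x)) 1 :=
      Finset.one_le_prod fun i _ => le_max_right _ _
    have h2 : 0 ≤ max (fa v (P.coeff i)) 1 := le_trans zero_le_one (le_max_right _ _)
    calc fa v (P.coeff i) ≤ max (fa v (P.coeff i)) 1 * 1 := by rw [mul_one]; exact le_max_left _ _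
      _ ≤ _ := mul_le_mul_of_nonneg_left h1 h2
  · rw [Polynomial.notMem_support_iff] at hi
    rw [hi, fa_zero]
    exact (Mv_pos P v).le

lemma eval_le (P : K[X]) (v : HeightOneSpectrum (𝓞 K)) (z : K) {g : ℕ} (hg : P.natDegree ≤ g) :
    fa v (P.eval z) ≤ Mv P v * max (fa v z) 1 ^ g := by
  rw [Polynomial.eval_eq_sum_range]
  have hm : 1 ≤ max (fa v z) 1 := le_max_right _ _
  refine fa_sum_le v _ _ _ (mul_nonneg (Mv_pos P v).le (by positivity)) ?_
  intro i hi
  rw [fa_mul, fa_pow]
  refine mul_le_mul (coeff_le_Mv P v i) ?_ (pow_nonneg (fa_nonneg _ _) _) (Mv_pos P v).le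
  calc fa v z ^ i ≤ max (fa v z) 1 ^ i := pow_le_pow_left₀ (fa_nonneg _ _) (le_max_left _ _) _
    _ ≤ _ := pow_le_pow_right₀ hm (by
        have := Finset.mem_range.mp hi
        omega)

lemma finite_Mv (P : K[X]) : {v : HeightOneSpectrum (𝓞 K) | Mv P v ≠ 1}.Finite := by
  have : {v : HeightOneSpectrum (𝓞 K) | Mv P v ≠ 1} ⊆
      ⋃ i ∈ P.support, {v | fa v (P.coeff i) ≠ 1} := by
    intro v hv
    by_contra hcon
    apply hv
    unfold Mv
    apply Finset.prod_eq_one
    intro i hi
    have : fa v (P.coeff i) = 1 := by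
      by_contra hne
      exact hcon (Set.mem_biUnion hi hne)
    simp [this]
  refine Set.Finite.subset ?_ this
  refine Set.Finite.biUnion (Finset.finite_toSet _) fun i hi => ?_
  exact finite_fa_ne_one (Polynomial.mem_support_iff.mp hi)

/-- A bound for the coefficients at an infinite place. -/
noncomputable def Lw (P : K[X]) (w : InfinitePlace K) : ℝ :=
  1 + ∑ i ∈ Finset.range (P.natDegree + 1), w (P.coeff i)

omit [NumberField K] in
lemma one_le_Lw (P : K[X]) (w : InfinitePlace K) : 1 ≤ Lw P w := by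
  unfold Lw
  have : 0 ≤ ∑ i ∈ Finset.range (P.natDegree + 1), w (P.coeff i) :=
    Finset.sum_nonneg fun i _ => apply_nonneg _ _
  linarith

omit [NumberField K] in
lemma eval_le_arch (P : K[X]) (w : InfinitePlace K) (z : K) {g : ℕ} (hg : P.natDegree ≤ g) :
    w (P.eval z) ≤ Lw P w * max (w z) 1 ^ g := by
  rw [Polynomial.eval_eq_sum_range]
  have hm : 1 ≤ max (w z) 1 := le_max_right _ _
  have h1 : w (∑ i ∈ Finset.range (P.natDegree + 1), P.coeff i * z ^ i) ≤
      ∑ i ∈ Finset.range (P.natDegree + 1), w (P.coeff i * z ^ i) :=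
    AbsoluteValue.sum_le w.1 _ _
  refine h1.trans ?_
  have h2 : ∀ i ∈ Finset.range (P.natDegree + 1), w (P.coeff i * z ^ i) ≤
      w (P.coeff i) * max (w z) 1 ^ g := by
    intro i hi
    rw [map_mul, map_pow]
    refine mul_le_mul_of_nonneg_left ?_ (apply_nonneg _ _)
    calc (w z) ^ i ≤ max (w z) 1 ^ i := pow_le_pow_left₀ (apply_nonneg _ _) (le_max_left _ _) _
      _ ≤ _ := pow_le_pow_right₀ hm (by
        have := Finset.mem_range.mp hi
        omega)
  refine (Finset.sum_le_sum h2).trans ?_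
  rw [← Finset.sum_mul]
  refine mul_le_mul_of_nonneg_right ?_ (by positivity)
  unfold Lw
  linarith

/-- The constant attached to a polynomial. -/
noncomputable def cP (P : K[X]) : ℝ :=
  ∑ w : InfinitePlace K, (w.mult : ℝ) * Real.log (Lw P w) +
    ∑ᶠ v : HeightOneSpectrum (𝓞 K), Real.log (Mv P v)

lemma finite_log_Mv (P : K[X]) :
    (Function.support fun v : HeightOneSpectrum (𝓞 K) => Real.log (Mv P v)).Finite := by
  refine (finite_Mv P).subset ?_
  intro v hv h
  apply hv
  simp [h]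

lemma finite_log_fa {x : K} (hx : x ≠ 0) :
    (Function.support fun v : HeightOneSpectrum (𝓞 K) => Real.log (fa v x)).Finite := by
  refine (finite_fa_ne_one hx).subset ?_
  intro v hv h
  apply hv
  simp [h]

/-- A prime at which a value of a polynomial at an integral point is small costs height. -/
lemma wt_small_le (G : K[X]) {g : ℕ} (hg : G.natDegree ≤ g) (z : K) (hz : G.eval z ≠ 0) :
    {v : HeightOneSpectrum (𝓞 K) | fa v (G.eval z) < 1}.Finite ∧
    wt {v : HeightOneSpectrum (𝓞 K) | fa v (G.eval z) < 1} ≤ g * lh z + cP G := by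
  classical
  have hfin : {v : HeightOneSpectrum (𝓞 K) | fa v (G.eval z) < 1}.Finite :=
    (finite_fa_ne_one hz).subset fun v hv => ne_of_lt hv
  refine ⟨hfin, ?_⟩
  -- a big finite set
  obtain ⟨F, hF⟩ : ∃ F : Finset (HeightOneSpectrum (𝓞 K)),
      (↑((finite_log_fa hz).union ((finite_log z).union (finite_log_Mv G))).toFinset :
        Set (HeightOneSpectrum (𝓞 K))) ⊆ F ∧ hfin.toFinset ⊆ F := by
    refine ⟨((finite_log_fa hz).union ((finite_log z).union (finite_log_Mv G))).toFinset ∪
      hfin.toFinset, ?_, Finset.subset_union_right⟩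
    intro v hv
    simp only [Finset.coe_union]
    exact Or.inl hv
  obtain ⟨hF1, hF2⟩ := hF
  have e1 : ∑ᶠ v : HeightOneSpectrum (𝓞 K), Real.log (fa v (G.eval z)) =
      ∑ v ∈ F, Real.log (fa v (G.eval z)) := by
    refine finsum_eq_sum_of_support_subset _ ?_
    intro v hv
    apply hF1
    simp only [Set.Finite.coe_toFinset]
    exact Or.inl hv
  have e2 : ∑ᶠ v : HeightOneSpectrum (𝓞 K), Real.log (max (fa v z) 1) =
      ∑ v ∈ F, Real.log (max (fa v z) 1) := by
    refine finsum_eq_sum_of_support_subset _ ?_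
    intro v hv
    apply hF1
    simp only [Set.Finite.coe_toFinset]
    exact Or.inr (Or.inl hv)
  have e3 : ∑ᶠ v : HeightOneSpectrum (𝓞 K), Real.log (Mv G v) =
      ∑ v ∈ F, Real.log (Mv G v) := by
    refine finsum_eq_sum_of_support_subset _ ?_
    intro v hv
    apply hF1
    simp only [Set.Finite.coe_toFinset]
    exact Or.inr (Or.inr hv)
  have hpf := product_formula hz
  rw [e1] at hpf
  unfold lh cP
  rw [e2, e3, wt_eq_sum hfin]
  -- archimedean part
  have harch : ∑ w : InfinitePlace K, (w.mult : ℝ) * Real.log (w (G.eval z)) ≤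
      ∑ w : InfinitePlace K, ((w.mult : ℝ) * Real.log (Lw G w) +
        g * ((w.mult : ℝ) * Real.log (max (w z) 1))) := by
    refine Finset.sum_le_sum fun w _ => ?_
    have hpos : 0 < w (G.eval z) := InfinitePlace.pos_iff.mpr hz
    have h1 : Real.log (w (G.eval z)) ≤ Real.log (Lw G w) + g * Real.log (max (w z) 1) := by
      have hL : 0 < Lw G w := lt_of_lt_of_le one_pos (one_le_Lw G w)
      have hm : 0 < max (w z) 1 := lt_of_lt_of_le one_pos (le_max_right _ _)
      rw [← Real.log_pow, ← Real.log_mul hL.ne' (pow_pos hm _).ne']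
      exact Real.log_le_log hpos (eval_le_arch G w z hg)
    have h2 : (0:ℝ) ≤ (w.mult : ℝ) := Nat.cast_nonneg _
    nlinarith [mul_le_mul_of_nonneg_left h1 h2]
  have hsplit : ∑ v ∈ F, Real.log (fa v (G.eval z)) =
      ∑ v ∈ hfin.toFinset, Real.log (fa v (G.eval z)) +
        ∑ v ∈ F \ hfin.toFinset, Real.log (fa v (G.eval z)) := by
    rw [add_comm, Finset.sum_sdiff hF2]
  have hsmall : ∑ v ∈ hfin.toFinset, Real.log (nv v) ≤
      - ∑ v ∈ hfin.toFinset, Real.log (fa v (G.eval z)) := by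
    rw [← Finset.sum_neg_distrib]
    refine Finset.sum_le_sum fun v hv => ?_
    have hv' : fa v (G.eval z) < 1 := by simpa using hv
    rw [log_fa v hz]
    have h1 : 1 ≤ ordv v (G.eval z) := by
      by_contra hcon
      have : ordv v (G.eval z) ≤ 0 := by omega
      have h2 : 1 ≤ fa v (G.eval z) := by
        rw [fa_eq v hz]
        exact one_le_zpow₀ (one_lt_nv v).le (by omega)
      linarith
    have h2 : (1:ℝ) ≤ (ordv v (G.eval z) : ℝ) := by exact_mod_cast h1
    nlinarith [log_nv_pos v]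
  have hbig : ∑ v ∈ F \ hfin.toFinset, Real.log (fa v (G.eval z)) ≤
      ∑ v ∈ F, (Real.log (Mv G v) + g * Real.log (max (fa v z) 1)) := by
    refine (Finset.sum_le_sum (g := fun v => Real.log (Mv G v) + g * Real.log (max (fa v z) 1))
      ?_).trans ?_
    · intro v _
      have hM := Mv_pos G v
      have hm : 0 < max (fa v z) 1 := lt_of_lt_of_le one_pos (le_max_right _ _)
      rw [← Real.log_pow, ← Real.log_mul hM.ne' (pow_pos hm _).ne']
      exact Real.log_le_log (fa_pos v hz) (eval_le G v z hg)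
    · refine Finset.sum_le_sum_of_subset_of_nonneg Finset.sdiff_subset ?_
      intro v _ _
      exact add_nonneg (Real.log_nonneg (one_le_Mv G v))
        (mul_nonneg (Nat.cast_nonneg _) (log_max_nonneg _))
  rw [Finset.sum_add_distrib, ← Finset.mul_sum] at harch hbig
  rw [hsplit] at hpf
  nlinarith [harch, hbig, hsmall, hpf]

end Pool.Agent.Lib.MP_4d5ce1_nt.Red
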