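import Pool.Agent.Lib.MP_4d5ce1_nt.Red.Heights

set_option autoImplicit false

open NumberField IsDedekindDomain Polynomial

namespace Pool.Agent.Lib.MP_4d5ce1_nt.Red

lemma bezout_deg {F : Type*} [Field F] (A B : F[X]) (hco : IsCoprime A B) (n : ℕ) (hn : 1 ≤ n)
    (hA : A.natDegree ≤ n) (hB : B.natDegree = n) (c : F[X]) (hc : c.natDegree ≤ 2 * n - 1) :
    ∃ U V : F[X], U.natDegree ≤ n - 1 ∧ V.natDegree ≤ n - 1 ∧ U * A + V * B = c := by
  obtain ⟨u, v, huv⟩ := hco
  have hB0 : B ≠ 0 := by
    rintro rfl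
    simp at hB
    omega
  have key : (c * u) % B * A + (c * v + (c * u) / B * A) * B = c := by
    have h := EuclideanDomain.mod_add_div (c * u) B
    calc (c * u) % B * A + (c * v + (c * u) / B * A) * B
        = ((c * u) % B + B * ((c * u) / B)) * A + c * v * B := by ring
      _ = c * (u * A + v * B) := by rw [h]; ring
      _ = c := by rw [huv, mul_one]
  have hU : ((c * u) % B).natDegree ≤ n - 1 := by
    have := Polynomial.natDegree_mod_lt (c * u) (q := B) (by omega)
    omega
  refine ⟨(c * u) % B, c * v + (c * u) / B * A, hU, ?_, key⟩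
  set U := (c * u) % B with hUdef
  set V := c * v + (c * u) / B * A with hVdef
  by_cases hV0 : V = 0
  · rw [hV0]; simp
  have h1 : V * B = c - U * A := by rw [← key]; ring
  have h2 : (V * B).natDegree = V.natDegree + n := by
    rw [Polynomial.natDegree_mul hV0 hB0, hB]
  have h3 : (c - U * A).natDegree ≤ 2 * n - 1 := by
    refine (Polynomial.natDegree_sub_le _ _).trans (max_le hc ?_)
    refine (Polynomial.natDegree_mul_le).trans ?_
    omega
  rw [← h1, h2] at h3
  omega

lemma bezout_deg' {F : Type*} [Field F] (A B : F[X]) (hco : IsCoprime A B) (n : ℕ) (hn : 1 ≤ n)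
    (hAB : max A.natDegree B.natDegree = n) (c : F[X]) (hc : c.natDegree ≤ 2 * n - 1) :
    ∃ U V : F[X], U.natDegree ≤ n - 1 ∧ V.natDegree ≤ n - 1 ∧ U * A + V * B = c := by
  rcases le_total A.natDegree B.natDegree with h | h
  · rw [max_eq_right h] at hAB
    exact bezout_deg A B hco n hn (by omega) hAB c hc
  · rw [max_eq_left h] at hAB
    obtain ⟨U, V, hU, hV, h⟩ := bezout_deg B A hco.symm n hn (by omega) hAB c hc
    exact ⟨V, U, hV, hU, by rw [← h]; ring⟩

variable {K : Type*} [Field K] [NumberField K]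

/-- The height of a value of a rational function. -/
lemma height_lower (A B : K[X]) (hco : IsCoprime A B) (n : ℕ) (hn : 1 ≤ n)
    (hAB : max A.natDegree B.natDegree = n) :
    ∃ C : ℝ, ∀ z : K, B.eval z ≠ 0 → n * lh z ≤ lh (A.eval z / B.eval z) + C := by
  classical
  obtain ⟨U, V, hU, hV, h1⟩ := bezout_deg' A B hco n hn hAB 1 (by simp)
  obtain ⟨U', V', hU', hV', h2⟩ := bezout_deg' A B hco n hn hAB (X ^ (2 * n - 1)) (by simp)
  have e1 : ∀ z, U.eval z * A.eval z + V.eval z * B.eval z = 1 := by
    intro z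
    have := congrArg (Polynomial.eval z) h1
    simpa using this
  have e2 : ∀ z, U'.eval z * A.eval z + V'.eval z * B.eval z = z ^ (2 * n - 1) := by
    intro z
    have := congrArg (Polynomial.eval z) h2
    simpa using this
  -- finite places
  have hfinp : ∀ (z : K) (v : HeightOneSpectrum (𝓞 K)),
      max (fa v z) 1 ^ n ≤ (Mv U v * Mv V v * (Mv U' v * Mv V' v)) *
        max (fa v (A.eval z)) (fa v (B.eval z)) := by
    intro z v
    set H := max (fa v z) 1 with hH
    set E := max (fa v (A.eval z)) (fa v (B.eval z)) with hE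
    have hH1 : 1 ≤ H := le_max_right _ _
    have hE0 : 0 ≤ E := (fa_nonneg _ _).trans (le_max_left _ _)
    set M := Mv U v * Mv V v * (Mv U' v * Mv V' v) with hM
    have a1 := one_le_Mv U v
    have a2 := one_le_Mv V v
    have a3 := one_le_Mv U' v
    have a4 := one_le_Mv V' v
    have b1 : 1 ≤ Mv U v * Mv V v := one_le_mul_of_one_le_of_one_le a1 a2
    have b2 : 1 ≤ Mv U' v * Mv V' v := one_le_mul_of_one_le_of_one_le a3 a4
    have c1 : Mv U v ≤ M := by
      calc Mv U v ≤ Mv U v * Mv V v := le_mul_of_one_le_right (by linarith) a2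
        _ ≤ M := le_mul_of_one_le_right (by linarith) b2
    have c2 : Mv V v ≤ M := by
      calc Mv V v ≤ Mv U v * Mv V v := le_mul_of_one_le_left (by linarith) a1
        _ ≤ M := le_mul_of_one_le_right (by linarith) b2
    have c3 : Mv U' v ≤ M := by
      calc Mv U' v ≤ Mv U' v * Mv V' v := le_mul_of_one_le_right (by linarith) a4
        _ ≤ M := le_mul_of_one_le_left (by linarith) b1
    have c4 : Mv V' v ≤ M := by
      calc Mv V' v ≤ Mv U' v * Mv V' v := le_mul_of_one_le_left (by linarith) a3
        _ ≤ M := le_mul_of_one_le_left (by linarith) b1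
    have hMH : 0 ≤ M * H ^ (n - 1) := by positivity
    have termb : ∀ (P Q : K[X]), P.natDegree ≤ n - 1 → Mv P v ≤ M → (fa v (Q.eval z) ≤ E) →
        fa v (P.eval z * Q.eval z) ≤ M * H ^ (n - 1) * E := by
      intro P Q hP hPM hQ
      rw [fa_mul]
      refine mul_le_mul ((eval_le P v z hP).trans ?_) hQ (fa_nonneg _ _) hMH
      exact mul_le_mul_of_nonneg_right hPM (by positivity)
    have d1 : (1:ℝ) ≤ M * H ^ (n - 1) * E := by
      calc (1:ℝ) = fa v (U.eval z * A.eval z + V.eval z * B.eval z) := by rw [e1, fa_one]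
        _ ≤ _ := (fa_add_le _ _ _).trans (max_le (termb U A hU c1 (le_max_left _ _))
            (termb V B hV c2 (le_max_right _ _)))
    have d2 : fa v z ^ (2 * n - 1) ≤ M * H ^ (n - 1) * E := by
      calc fa v z ^ (2 * n - 1) = fa v (U'.eval z * A.eval z + V'.eval z * B.eval z) := by
            rw [e2, fa_pow]
        _ ≤ _ := (fa_add_le _ _ _).trans (max_le (termb U' A hU' c3 (le_max_left _ _))
            (termb V' B hV' c4 (le_max_right _ _)))
    have d3 : H ^ (2 * n - 1) ≤ M * H ^ (n - 1) * E := by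
      rcases le_total (fa v z) 1 with h | h
      · rw [hH, max_eq_right h, one_pow]; rw [hH, max_eq_right h] at d1; exact d1
      · rw [hH, max_eq_left h]; rw [hH, max_eq_left h] at d2; exact d2
    have hHp : 0 < H ^ (n - 1) := by positivity
    have : H ^ (2 * n - 1) = H ^ (n - 1) * H ^ n := by
      rw [← pow_add]; congr 1; omega
    rw [this] at d3
    have : H ^ (n - 1) * H ^ n ≤ H ^ (n - 1) * (M * E) := by
      calc _ ≤ M * H ^ (n - 1) * E := d3
        _ = _ := by ring
    exact le_of_mul_le_mul_left this hHp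
  -- infinite places
  have hinfp : ∀ (z : K) (w : InfinitePlace K),
      max (w z) 1 ^ n ≤ (2 * (Lw U w * Lw V w * (Lw U' w * Lw V' w))) *
        max (w (A.eval z)) (w (B.eval z)) := by
    intro z w
    set H := max (w z) 1 with hH
    set E := max (w (A.eval z)) (w (B.eval z)) with hE
    have hH1 : 1 ≤ H := le_max_right _ _
    have hE0 : 0 ≤ E := (apply_nonneg w _).trans (le_max_left _ _)
    set M := Lw U w * Lw V w * (Lw U' w * Lw V' w) with hM
    have a1 := one_le_Lw U w
    have a2 := one_le_Lw V w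
    have a3 := one_le_Lw U' w
    have a4 := one_le_Lw V' w
    have b1 : 1 ≤ Lw U w * Lw V w := one_le_mul_of_one_le_of_one_le a1 a2
    have b2 : 1 ≤ Lw U' w * Lw V' w := one_le_mul_of_one_le_of_one_le a3 a4
    have c1 : Lw U w ≤ M := by
      calc Lw U w ≤ Lw U w * Lw V w := le_mul_of_one_le_right (by linarith) a2
        _ ≤ M := le_mul_of_one_le_right (by linarith) b2
    have c2 : Lw V w ≤ M := by
      calc Lw V w ≤ Lw U w * Lw V w := le_mul_of_one_le_left (by linarith) a1
        _ ≤ M := le_mul_of_one_le_right (by linarith) b2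
    have c3 : Lw U' w ≤ M := by
      calc Lw U' w ≤ Lw U' w * Lw V' w := le_mul_of_one_le_right (by linarith) a4
        _ ≤ M := le_mul_of_one_le_left (by linarith) b1
    have c4 : Lw V' w ≤ M := by
      calc Lw V' w ≤ Lw U' w * Lw V' w := le_mul_of_one_le_left (by linarith) a3
        _ ≤ M := le_mul_of_one_le_left (by linarith) b1
    have hM0 : 0 ≤ M := by
      have : 0 ≤ Lw U w := by linarith
      linarith
    have hMH : 0 ≤ M * H ^ (n - 1) := by positivity
    have termb : ∀ (P Q : K[X]), P.natDegree ≤ n - 1 → Lw P w ≤ M → (w (Q.eval z) ≤ E) →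
        w (P.eval z * Q.eval z) ≤ M * H ^ (n - 1) * E := by
      intro P Q hP hPM hQ
      rw [map_mul]
      refine mul_le_mul ((eval_le_arch P w z hP).trans ?_) hQ (apply_nonneg _ _) hMH
      exact mul_le_mul_of_nonneg_right hPM (by positivity)
    have addb : ∀ x y : K, w (x + y) ≤ w x + w y := fun x y => w.1.add_le x y
    have d1 : (1:ℝ) ≤ 2 * M * H ^ (n - 1) * E := by
      calc (1:ℝ) = w (U.eval z * A.eval z + V.eval z * B.eval z) := by rw [e1, map_one]
        _ ≤ _ := (addb _ _).trans (add_le_add (termb U A hU c1 (le_max_left _ _))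
            (termb V B hV c2 (le_max_right _ _)))
        _ = _ := by ring
    have d2 : (w z) ^ (2 * n - 1) ≤ 2 * M * H ^ (n - 1) * E := by
      calc (w z) ^ (2 * n - 1) = w (U'.eval z * A.eval z + V'.eval z * B.eval z) := by
            rw [e2, map_pow]
        _ ≤ _ := (addb _ _).trans (add_le_add (termb U' A hU' c3 (le_max_left _ _))
            (termb V' B hV' c4 (le_max_right _ _)))
        _ = _ := by ring
    have d3 : H ^ (2 * n - 1) ≤ 2 * M * H ^ (n - 1) * E := by
      rcases le_total (w z) 1 with h | h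
      · rw [hH, max_eq_right h, one_pow]; rw [hH, max_eq_right h] at d1; exact d1
      · rw [hH, max_eq_left h]; rw [hH, max_eq_left h] at d2; exact d2
    have hHp : 0 < H ^ (n - 1) := by positivity
    have : H ^ (2 * n - 1) = H ^ (n - 1) * H ^ n := by
      rw [← pow_add]; congr 1; omega
    rw [this] at d3
    have : H ^ (n - 1) * H ^ n ≤ H ^ (n - 1) * (2 * M * E) := by
      calc _ ≤ 2 * M * H ^ (n - 1) * E := d3
        _ = _ := by ring
    exact le_of_mul_le_mul_left this hHp
  refine ⟨∑ w : InfinitePlace K, (w.mult : ℝ) *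
      Real.log (2 * (Lw U w * Lw V w * (Lw U' w * Lw V' w))) +
    ∑ᶠ v : HeightOneSpectrum (𝓞 K), Real.log (Mv U v * Mv V v * (Mv U' v * Mv V' v)), ?_⟩
  intro z hB
  set x := A.eval z / B.eval z with hx
  have hpf := product_formula hB
  have hMfin : (Function.support fun v : HeightOneSpectrum (𝓞 K) =>
      Real.log (Mv U v * Mv V v * (Mv U' v * Mv V' v))).Finite := by
    refine (((finite_Mv U).union (finite_Mv V)).union
      ((finite_Mv U').union (finite_Mv V'))).subset ?_
    intro v hv
    by_contra hcon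
    simp only [Set.mem_union, Set.mem_ofPred_eq, not_or, not_not] at hcon
    obtain ⟨⟨p1, p2⟩, p3, p4⟩ := hcon
    apply hv
    simp [p1, p2, p3, p4]
  obtain ⟨F, hF⟩ : ∃ F : Finset (HeightOneSpectrum (𝓞 K)),
      F = ((finite_log_fa hB).union ((finite_log z).union
        ((finite_log x).union hMfin))).toFinset := ⟨_, rfl⟩
  have s1 : ∑ᶠ v : HeightOneSpectrum (𝓞 K), Real.log (fa v (B.eval z)) =
      ∑ v ∈ F, Real.log (fa v (B.eval z)) := by
    refine finsum_eq_sum_of_support_subset _ ?_
    intro v hv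
    rw [hF]
    simp only [Set.Finite.coe_toFinset]
    exact Or.inl hv
  have s2 : ∑ᶠ v : HeightOneSpectrum (𝓞 K), Real.log (max (fa v z) 1) =
      ∑ v ∈ F, Real.log (max (fa v z) 1) := by
    refine finsum_eq_sum_of_support_subset _ ?_
    intro v hv
    rw [hF]
    simp only [Set.Finite.coe_toFinset]
    exact Or.inr (Or.inl hv)
  have s3 : ∑ᶠ v : HeightOneSpectrum (𝓞 K), Real.log (max (fa v x) 1) =
      ∑ v ∈ F, Real.log (max (fa v x) 1) := by
    refine finsum_eq_sum_of_support_subset _ ?_
    intro v hv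
    rw [hF]
    simp only [Set.Finite.coe_toFinset]
    exact Or.inr (Or.inr (Or.inl hv))
  have s4 : ∑ᶠ v : HeightOneSpectrum (𝓞 K), Real.log (Mv U v * Mv V v * (Mv U' v * Mv V' v)) =
      ∑ v ∈ F, Real.log (Mv U v * Mv V v * (Mv U' v * Mv V' v)) := by
    refine finsum_eq_sum_of_support_subset _ ?_
    intro v hv
    rw [hF]
    simp only [Set.Finite.coe_toFinset]
    exact Or.inr (Or.inr (Or.inr hv))
  rw [s1] at hpf
  unfold lh
  rw [s2, s3, s4]
  -- termwise
  have tfin : ∀ v ∈ F, n * Real.log (max (fa v z) 1) ≤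
      Real.log (max (fa v x) 1) + Real.log (fa v (B.eval z)) +
        Real.log (Mv U v * Mv V v * (Mv U' v * Mv V' v)) := by
    intro v _
    have hBp := fa_pos v hB
    have hxp : (0:ℝ) < max (fa v x) 1 := lt_of_lt_of_le one_pos (le_max_right _ _)
    have hMp : 0 < Mv U v * Mv V v * (Mv U' v * Mv V' v) := by
      have := Mv_pos U v
      have := Mv_pos V v
      have := Mv_pos U' v
      have := Mv_pos V' v
      positivity
    rw [← Real.log_mul hxp.ne' hBp.ne', ← Real.log_mul (by positivity) hMp.ne', ← Real.log_pow]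
    refine Real.log_le_log (by positivity) ((hfinp z v).trans (le_of_eq ?_))
    rw [max_mul_of_nonneg _ _ hBp.le, hx, fa_div, div_mul_cancel₀ _ hBp.ne', one_mul]
    ring
  have tinf : ∀ w : InfinitePlace K, n * ((w.mult : ℝ) * Real.log (max (w z) 1)) ≤
      (w.mult : ℝ) * Real.log (max (w x) 1) + (w.mult : ℝ) * Real.log (w (B.eval z)) +
        (w.mult : ℝ) * Real.log (2 * (Lw U w * Lw V w * (Lw U' w * Lw V' w))) := by
    intro w
    have hBp : 0 < w (B.eval z) := InfinitePlace.pos_iff.mpr hB
    have hxp : (0:ℝ) < max (w x) 1 := lt_of_lt_of_le one_pos (le_max_right _ _)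
    have hMp : 0 < 2 * (Lw U w * Lw V w * (Lw U' w * Lw V' w)) := by
      have := one_le_Lw U w
      have := one_le_Lw V w
      have := one_le_Lw U' w
      have := one_le_Lw V' w
      positivity
    have : n * Real.log (max (w z) 1) ≤ Real.log (max (w x) 1) + Real.log (w (B.eval z)) +
        Real.log (2 * (Lw U w * Lw V w * (Lw U' w * Lw V' w))) := by
      rw [← Real.log_mul hxp.ne' hBp.ne', ← Real.log_mul (by positivity) hMp.ne', ← Real.log_pow]
      refine Real.log_le_log (by positivity) ((hinfp z w).trans (le_of_eq ?_))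
      rw [max_mul_of_nonneg _ _ hBp.le, hx, map_div₀, div_mul_cancel₀ _ hBp.ne', one_mul]
      ring
    have h2 : (0:ℝ) ≤ (w.mult : ℝ) := Nat.cast_nonneg _
    nlinarith [mul_le_mul_of_nonneg_left this h2]
  have r1 := Finset.sum_le_sum tfin
  have r2 := Finset.sum_le_sum (s := Finset.univ) fun w _ => tinf w
  simp only [Finset.sum_add_distrib, ← Finset.mul_sum] at r1 r2
  nlinarith [r1, r2, hpf]

end Pool.Agent.Lib.MP_4d5ce1_nt.Red
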