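import Pool.Agent.Lib.MP_4d5ce1_nt.Red.VProp

set_option autoImplicit false

open NumberField IsDedekindDomain Polynomial

namespace Pool.Agent.Lib.MP_4d5ce1_nt.Red

/-- The inequality for the zeros of a polynomial with rational coefficients. -/
def VQ (K : Type*) [Field K] [NumberField K] (P : ℚ[X]) : Prop := VV (P.map (algebraMap ℚ K))

variable {K : Type*} [Field K] [NumberField K]

lemma aeval_map_Q {E : Type*} [Field E] [CharZero E] {L : Type*} [Field L] [Algebra E L]
    [Algebra ℚ E] [Algebra ℚ L] (P : ℚ[X]) (β : L) :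
    aeval β (P.map (algebraMap ℚ E)) = aeval β P := by
  have : CharZero L := charZero_of_injective_algebraMap (algebraMap E L).injective
  rw [Polynomial.aeval_def, Polynomial.eval₂_map, Polynomial.aeval_def]
  congr 1
  exact Subsingleton.elim _ _

lemma VQ.of_dvd {P Q : ℚ[X]} (hP0 : P ≠ 0) (h : Q ∣ P) (hV : VQ K P) : VQ K Q := by
  refine VV.of_dvd ?_ (Polynomial.map_dvd _ h) hV
  rwa [Ne, Polynomial.map_eq_zero]

lemma VQ.pull {P A Q : ℚ[X]} (hV : VQ K P) (hP : P.Separable) (hr : 2 ≤ P.natDegree)
    (hA : 1 ≤ A.natDegree)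
    (hcrit : ∀ β : AlgebraicClosure K, aeval β (derivative A) = 0 → aeval (aeval β A) P = 0)
    (hQ : Q.Separable)
    (hroots : ∀ β : AlgebraicClosure K, aeval β Q = 0 → aeval (aeval β A) P = 0) : VQ K Q := by
  have e : ∀ β : AlgebraicClosure K,
      aeval β ((P.map (algebraMap ℚ K)).comp (A.map (algebraMap ℚ K))) = aeval (aeval β A) P := by
    intro β
    rw [← Polynomial.map_comp, aeval_map_Q, Polynomial.aeval_comp]
  refine VV.pull (P := P.map (algebraMap ℚ K)) (A := A.map (algebraMap ℚ K)) hV hP.map ?_ ?_ ?_
    hQ.map ?_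
  · rwa [Polynomial.natDegree_map]
  · rwa [Polynomial.natDegree_map]
  · intro β hβ
    rw [Polynomial.derivative_map, aeval_map_Q] at hβ
    rw [e]
    exact hcrit β hβ
  · intro β hβ
    rw [aeval_map_Q] at hβ
    rw [e]
    exact hroots β hβ

lemma aeval_Q {L : Type*} [Field L] [CharZero L] [Algebra ℚ L] (A : ℚ[X]) (d : ℚ) :
    aeval (d : L) A = ((A.eval d : ℚ) : L) := by
  have : (d : L) = algebraMap ℚ L d := (eq_ratCast _ _).symm
  rw [this, Polynomial.aeval_algebraMap_apply_eq_algebraMap_eval, eq_ratCast]

/-- The polynomial with a given set of rational zeros. -/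
noncomputable def PD (D : Finset ℚ) : ℚ[X] := ∏ β ∈ D, (X - C β)

lemma PD_separable (D : Finset ℚ) : (PD D).Separable := by
  unfold PD
  rw [Polynomial.separable_prod_X_sub_C_iff']
  intro x _ y _ h
  exact h

lemma PD_ne_zero (D : Finset ℚ) : PD D ≠ 0 := (PD_separable D).ne_zero

lemma PD_natDegree (D : Finset ℚ) : (PD D).natDegree = D.card := by
  unfold PD
  rw [Polynomial.natDegree_prod_of_monic _ _ fun i _ => Polynomial.monic_X_sub_C i]
  simp

lemma PD_dvd {D D' : Finset ℚ} (h : D ⊆ D') : PD D ∣ PD D' :=
  Finset.prod_dvd_prod_of_subset _ _ _ h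

lemma PD_aeval {L : Type*} [Field L] [CharZero L] [Algebra ℚ L] (D : Finset ℚ) (β : L) :
    aeval β (PD D) = 0 ↔ ∃ d ∈ D, β = (d : L) := by
  unfold PD
  rw [map_prod, Finset.prod_eq_zero_iff]
  simp only [map_sub, aeval_X, aeval_C, eq_ratCast, sub_eq_zero]

/-- Belyi's second step: sets of rational points. -/
lemma VQ_rational (hbase : VV (X * (X - 1) : K[X])) :
    ∀ (N : ℕ) (D : Finset ℚ), D.card ≤ N → VQ K (PD D) := by
  classical
  -- two points
  have htwo : ∀ D : Finset ℚ, D.card = 2 → VQ K (PD D) := by
    intro D hD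
    obtain ⟨u, w, huw, rfl⟩ := Finset.card_eq_two.mp hD
    have hwu : w - u ≠ 0 := sub_ne_zero.mpr (Ne.symm huw)
    have hb : VQ K (X * (X - 1) : ℚ[X]) := by
      unfold VQ
      simpa using hbase
    have hdeg : (X * (X - 1) : ℚ[X]).natDegree = 2 := by
      have : (X * (X - 1) : ℚ[X]) = X ^ 2 - X := by ring
      rw [this]
      compute_degree!
    have hsep : (X * (X - 1) : ℚ[X]).Separable := by
      have : (X * (X - 1) : ℚ[X]) = PD {0, 1} := by
        unfold PD
        rw [Finset.prod_pair (by norm_num)]
        simp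
      rw [this]
      exact PD_separable _
    have hder : derivative (C (w - u)⁻¹ * (X - C u) : ℚ[X]) = C (w - u)⁻¹ := by
      simp
    refine VQ.pull (P := X * (X - 1)) (A := C (w - u)⁻¹ * (X - C u)) hb hsep (by rw [hdeg]) ?_ ?_
      (PD_separable _) ?_
    · rw [Polynomial.natDegree_C_mul (inv_ne_zero hwu), Polynomial.natDegree_X_sub_C]
    · intro β hβ
      rw [hder, aeval_C] at hβ
      exfalso
      have := (algebraMap ℚ (AlgebraicClosure K)).injective (hβ.trans (map_zero _).symm)
      exact inv_ne_zero hwu this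
    · intro β hβ
      rw [PD_aeval] at hβ
      obtain ⟨d, hd, rfl⟩ := hβ
      rw [aeval_Q, aeval_Q]
      rw [Finset.mem_insert, Finset.mem_singleton] at hd
      rcases hd with rfl | rfl
      · simp
      · simp [inv_mul_cancel₀ hwu]
  intro N
  induction N with
  | zero =>
    intro D hD
    have : D = ∅ := Finset.card_eq_zero.mp (by omega)
    subst this
    exact VQ.of_dvd (PD_ne_zero {0, 1}) (PD_dvd (Finset.empty_subset _))
      (htwo {0, 1} (Finset.card_pair (by norm_num)))
  | succ N ih =>
    intro D hD
    rcases Nat.lt_or_ge D.card (N + 1) with h | h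
    · exact ih D (by omega)
    have hcard : D.card = N + 1 := le_antisymm hD h
    rcases Nat.lt_or_ge D.card 3 with h3 | h3
    · -- at most two points
      obtain ⟨D', hD', hcard'⟩ : ∃ D', D ⊆ D' ∧ D'.card = 2 := by
        obtain ⟨D', h1, h2⟩ := Infinite.exists_superset_card_eq D 2 (by omega)
        exact ⟨D', h1, h2⟩
      exact VQ.of_dvd (PD_ne_zero D') (PD_dvd hD') (htwo D' hcard')
    · -- at least three points
      have hne : D.Nonempty := Finset.card_pos.mp (by omega)
      set u := D.min' hne with hu
      set w := D.max' hne with hw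
      have huD : u ∈ D := Finset.min'_mem _ _
      have hwD : w ∈ D := Finset.max'_mem _ _
      obtain ⟨v, hvD, hvu, hvw⟩ : ∃ v ∈ D, v ≠ u ∧ v ≠ w := by
        have hlt : ({u, w} : Finset ℚ).card < D.card :=
          lt_of_le_of_lt (Finset.card_le_two) (by omega)
        obtain ⟨v, hv, hv'⟩ := Finset.exists_mem_notMem_of_card_lt_card hlt
        refine ⟨v, hv, ?_, ?_⟩ <;>
        · rintro rfl
          simp at hv'
      have huv : u < v := lt_of_le_of_ne (Finset.min'_le _ _ hvD) (Ne.symm hvu)
      have hvw' : v < w := lt_of_le_of_ne (Finset.le_max' _ _ hvD) hvw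
      -- the exponents
      obtain ⟨a, b, hab⟩ : ∃ a b : ℕ, ((a : ℚ) + 1) * (w - v) = ((b : ℚ) + 1) * (v - u) := by
        set r : ℚ := (v - u) / (w - v) with hr
        have hrpos : 0 < r := div_pos (by linarith) (by linarith)
        have hnum : 0 < r.num := Rat.num_pos.mpr hrpos
        refine ⟨r.num.toNat - 1, r.den - 1, ?_⟩
        have h1 : ((r.num.toNat - 1 : ℕ) : ℚ) + 1 = (r.num : ℚ) := by
          have : (r.num.toNat - 1 : ℕ) + 1 = r.num.toNat := by omega
          have h2 : ((r.num.toNat : ℤ) : ℚ) = (r.num : ℚ) := by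
            rw [Int.toNat_of_nonneg hnum.le]
          rw [← h2, ← this]
          push_cast
          simp
        have h2 : ((r.den - 1 : ℕ) : ℚ) + 1 = (r.den : ℚ) := by
          have := r.den_pos
          have h3 : (r.den - 1 : ℕ) + 1 = r.den := by omega
          conv_rhs => rw [← h3]
          push_cast
          rfl
        rw [h1, h2]
        have h3 : (r.num : ℚ) = r * r.den := (Rat.mul_den_eq_num r).symm
        rw [h3, hr]
        have : w - v ≠ 0 := by linarith
        field_simp
      set c : ℚ := ((v - u) ^ (a + 1) * (w - v) ^ (b + 1))⁻¹ with hc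
      have hc0 : c ≠ 0 := by
        have h1 : (v - u) ^ (a + 1) ≠ 0 := pow_ne_zero _ (by linarith)
        have h2 : (w - v) ^ (b + 1) ≠ 0 := pow_ne_zero _ (by linarith)
        exact inv_ne_zero (mul_ne_zero h1 h2)
      set A : ℚ[X] := C c * ((X - C u) ^ (a + 1) * (C w - X) ^ (b + 1)) with hA
      have hAeval : ∀ x, A.eval x = c * ((x - u) ^ (a + 1) * (w - x) ^ (b + 1)) := by
        intro x
        simp [hA]
      have hAu : A.eval u = 0 := by rw [hAeval]; simp
      have hAw : A.eval w = 0 := by rw [hAeval]; simp
      have hAv : A.eval v = 1 := by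
        rw [hAeval, hc]
        have h1 : (v - u) ^ (a + 1) ≠ 0 := pow_ne_zero _ (by linarith)
        have h2 : (w - v) ^ (b + 1) ≠ 0 := pow_ne_zero _ (by linarith)
        exact inv_mul_cancel₀ (mul_ne_zero h1 h2)
      set D1 := D.image fun x => A.eval x with hD1
      have hD1card : D1.card ≤ N := by
        have hsub : D1 ⊆ (D.erase w).image fun x => A.eval x := by
          intro y hy
          rw [hD1, Finset.mem_image] at hy
          obtain ⟨x, hx, rfl⟩ := hy
          rw [Finset.mem_image]
          by_cases hxw : x = w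
          · subst hxw
            refine ⟨u, ?_, ?_⟩
            · rw [Finset.mem_erase]
              exact ⟨by linarith [huv, hvw'], huD⟩
            · rw [hAu, hAw]
          · exact ⟨x, Finset.mem_erase.mpr ⟨hxw, hx⟩, rfl⟩
        refine (Finset.card_le_card hsub).trans (Finset.card_image_le.trans ?_)
        rw [Finset.card_erase_of_mem hwD]
        omega
      have h0D1 : (0 : ℚ) ∈ D1 := by
        rw [hD1, Finset.mem_image]
        exact ⟨u, huD, hAu⟩
      have h1D1 : (1 : ℚ) ∈ D1 := by
        rw [hD1, Finset.mem_image]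
        exact ⟨v, hvD, hAv⟩
      have hD1two : 2 ≤ D1.card := by
        have : ({0, 1} : Finset ℚ) ⊆ D1 := by
          intro x hx
          rw [Finset.mem_insert, Finset.mem_singleton] at hx
          rcases hx with rfl | rfl
          · exact h0D1
          · exact h1D1
        have h2 := Finset.card_le_card this
        rw [Finset.card_pair (by norm_num)] at h2
        exact h2
      have hder : derivative A = C c * ((X - C u) ^ a * (C w - X) ^ b *
          (C ((a : ℚ) + 1) * (C w - X) - C ((b : ℚ) + 1) * (X - C u))) := by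
        have hCa : (C ((a : ℚ) + 1) : ℚ[X]) = (a : ℚ[X]) + 1 := by simp
        have hCb : (C ((b : ℚ) + 1) : ℚ[X]) = (b : ℚ[X]) + 1 := by simp
        rw [hA, hCa, hCb]
        simp only [derivative_mul, derivative_C, derivative_pow, derivative_sub, derivative_X,
          Nat.add_sub_cancel, zero_mul, zero_add, sub_zero, zero_sub]
        push_cast
        rw [hCa, hCb]
        ring
      refine VQ.pull (A := A) (ih D1 hD1card) (PD_separable _) (by rw [PD_natDegree]; exact hD1two) ?_ ?_
        (PD_separable _) ?_
      · -- degree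
        by_contra hcon
        have h0 : A.natDegree = 0 := by omega
        have h1 := Polynomial.derivative_eq_zero.mpr h0
        have h2 := congrArg (Polynomial.eval u) (Polynomial.eq_C_of_natDegree_eq_zero h0)
        have h3 := congrArg (Polynomial.eval v) (Polynomial.eq_C_of_natDegree_eq_zero h0)
        rw [hAu, eval_C] at h2
        rw [hAv, eval_C] at h3
        rw [← h2] at h3
        exact one_ne_zero h3
      · intro β hβ
        have key : ∃ d ∈ D, β = (d : AlgebraicClosure K) := by
          rw [hder] at hβ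
          simp only [map_mul, map_pow, map_sub, aeval_X, aeval_C, eq_ratCast, mul_eq_zero,
            Rat.cast_eq_zero] at hβ
          rcases hβ with h | (h | h) | h
          · exact absurd h hc0
          · exact ⟨u, huD, sub_eq_zero.mp (eq_zero_of_pow_eq_zero h)⟩
          · refine ⟨w, hwD, ?_⟩
            have := eq_zero_of_pow_eq_zero h
            exact (sub_eq_zero.mp this).symm
          · refine ⟨v, hvD, ?_⟩
            have hab' : (((a : ℚ) + 1 : ℚ) : AlgebraicClosure K) * ((w : AlgebraicClosure K) - v) =
                (((b : ℚ) + 1 : ℚ) : AlgebraicClosure K) * (v - u) := by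
              have := congrArg (fun q : ℚ => (q : AlgebraicClosure K)) hab
              push_cast at this ⊢
              exact this
            have hsum : (((a : ℚ) + 1 : ℚ) : AlgebraicClosure K) +
                (((b : ℚ) + 1 : ℚ) : AlgebraicClosure K) ≠ 0 := by
              have : (((a : ℚ) + 1 + ((b : ℚ) + 1) : ℚ) : AlgebraicClosure K) ≠ 0 := by
                rw [Rat.cast_ne_zero]
                positivity
              push_cast at this ⊢
              exact this
            have h4 : ((((a : ℚ) + 1 : ℚ) : AlgebraicClosure K) +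
                (((b : ℚ) + 1 : ℚ) : AlgebraicClosure K)) * (β - v) = 0 := by
              linear_combination (-1 : AlgebraicClosure K) * h + hab'
            exact sub_eq_zero.mp ((mul_eq_zero.mp h4).resolve_left hsum)
        obtain ⟨d, hd, rfl⟩ := key
        rw [aeval_Q, PD_aeval]
        exact ⟨A.eval d, by rw [hD1, Finset.mem_image]; exact ⟨d, hd, rfl⟩, rfl⟩
      · intro β hβ
        rw [PD_aeval] at hβ
        obtain ⟨d, hd, rfl⟩ := hβ
        rw [aeval_Q, PD_aeval]
        exact ⟨A.eval d, by rw [hD1, Finset.mem_image]; exact ⟨d, hd, rfl⟩, rfl⟩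

end Pool.Agent.Lib.MP_4d5ce1_nt.Red
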