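import Pool.Agent.Lib.MP_4d5ce1_nt.Red.Count
import Pool.Agent.Lib.MP_4d5ce1_nt.Red.BelyiLemma

set_option autoImplicit false

open NumberField IsDedekindDomain Polynomial

namespace Pool.Agent.Lib.MP_4d5ce1_nt.Red

variable {K : Type*} [Field K] [NumberField K]

/-- The inequality of the conjecture for the zeros of `P` and the point at infinity. -/
def VV (P : K[X]) : Prop :=
  ∀ ε : ℝ, 0 < ε → ∃ C : ℝ, ∀ z : K, P.eval z ≠ 0 →
    ((P.natDegree : ℝ) - 1 - ε) * lh z ≤ wt (clP P z) + C

/-- Finitely many points do not matter. -/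
lemma absorb {s : Set K} (hs : s.Finite) (c : ℝ) : ∃ C : ℝ, 0 ≤ C ∧ ∀ z ∈ s, c * lh z ≤ C := by
  classical
  refine ⟨∑ x ∈ hs.toFinset, |c * lh x|, Finset.sum_nonneg fun _ _ => abs_nonneg _, ?_⟩
  intro z hz
  refine (le_abs_self _).trans ?_
  exact Finset.single_le_sum (f := fun x => |c * lh x|) (fun _ _ => abs_nonneg _)
    (hs.mem_toFinset.mpr hz)

omit [NumberField K] in
lemma zeros_finite {P : K[X]} (hP : P ≠ 0) : {z : K | P.eval z = 0}.Finite := by
  classical
  refine (P.roots.toFinset.finite_toSet).subset ?_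
  intro z hz
  simp only [Finset.mem_coe, Multiset.mem_toFinset]
  rw [Polynomial.mem_roots hP]
  exact hz

lemma VV.of_dvd {P Q : K[X]} (hP0 : P ≠ 0) (h : Q ∣ P) (hV : VV P) : VV Q := by
  obtain ⟨G, rfl⟩ := h
  have hQ0 : Q ≠ 0 := left_ne_zero_of_mul hP0
  have hG0 : G ≠ 0 := right_ne_zero_of_mul hP0
  have hdeg : (Q * G).natDegree = Q.natDegree + G.natDegree := Polynomial.natDegree_mul hQ0 hG0
  intro ε hε
  obtain ⟨C, hC⟩ := hV ε hε
  obtain ⟨C', hC'0, hC'⟩ := absorb (zeros_finite hG0) ((Q.natDegree : ℝ) - 1 - ε)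
  refine ⟨max (C + cP G) C', ?_⟩
  intro z hz
  by_cases hGz : G.eval z = 0
  · have := hC' z hGz
    have h2 := wt_nonneg (clP Q z)
    have h3 := le_max_right (C + cP G) C'
    linarith
  · have hQG : (Q * G).eval z ≠ 0 := by
      rw [eval_mul]
      exact mul_ne_zero hz hGz
    have h1 := hC z hQG
    obtain ⟨hfin, hw⟩ := wt_small_le G le_rfl z hGz
    have hsub : clP (Q * G) z ⊆ clP Q z ∪ {v : HeightOneSpectrum (𝓞 K) | fa v (G.eval z) < 1} := by
      intro v hv
      by_contra hcon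
      simp only [Set.mem_union, clP, Set.mem_ofPred_eq, not_or, not_lt] at hcon
      obtain ⟨⟨h1, h2⟩, h3⟩ := hcon
      rcases hv with hv | hv
      · linarith
      · rw [eval_mul, fa_mul] at hv
        have := one_le_mul_of_one_le_of_one_le h2 h3
        linarith
    have hQfin := clP_finite Q hz
    have h2 := wt_mono (hQfin.union hfin) hsub
    have h3 := wt_union_le hQfin hfin
    have h4 := le_max_left (C + cP G) C'
    rw [hdeg] at h1
    push_cast at h1
    nlinarith

/-- Transfer along a polynomial map. -/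
lemma VV.comp {P A W : K[X]} (hV : VV P) (hr : 2 ≤ P.natDegree) (hA : 1 ≤ A.natDegree)
    (h1 : P.comp A = derivative A * W) (m : ℕ) (h2 : P.comp A ∣ W ^ m) : VV W := by
  classical
  set n := A.natDegree with hn
  set r := P.natDegree with hr'
  have hPi0 : P.comp A ≠ 0 := by
    intro h
    rw [Polynomial.comp_eq_zero_iff] at h
    rcases h with h | ⟨_, h⟩
    · rw [hr', h, natDegree_zero] at hr
      omega
    · rw [hn, h, natDegree_C] at hA
      omega
  have hD0 : derivative A ≠ 0 := by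
    intro h
    rw [h, zero_mul] at h1
    exact hPi0 h1
  have hW0 : W ≠ 0 := by
    rintro rfl
    rw [mul_zero] at h1
    exact hPi0 h1
  have hWdeg : W.natDegree + (n - 1) = r * n := by
    have h3 := congrArg natDegree h1
    rw [Polynomial.natDegree_comp, Polynomial.natDegree_mul hD0 hW0,
      Polynomial.natDegree_derivative] at h3
    rw [hn, hr', h3, add_comm]
  obtain ⟨C1, hC1⟩ := height_lower A 1 isCoprime_one_right n hA (by
    rw [natDegree_one]; omega)
  obtain ⟨T, hT⟩ := h2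
  set bad : Set (HeightOneSpectrum (𝓞 K)) := {v | Mv A v ≠ 1} ∪ {v | Mv T v ≠ 1} with hbad
  have hbadfin : bad.Finite := (finite_Mv A).union (finite_Mv T)
  intro ε hε
  set ε' : ℝ := min ε 1 / n with hε'
  have hnR : (1:ℝ) ≤ n := by exact_mod_cast hA
  have hε'pos : 0 < ε' := div_pos (lt_min hε one_pos) (by linarith)
  have hnε' : n * ε' = min ε 1 := by rw [hε']; field_simp
  obtain ⟨C, hC⟩ := hV ε' hε'pos
  have hrR : (2:ℝ) ≤ r := by exact_mod_cast hr
  have hε'1 : ε' ≤ 1 := by
    have := min_le_right ε 1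
    nlinarith
  have hcoef : 0 ≤ (r : ℝ) - 1 - ε' := by linarith
  refine ⟨wt bad + C + ((r : ℝ) - 1 - ε') * |C1|, ?_⟩
  intro z hz
  have hWm : P.eval (A.eval z) * T.eval z = W.eval z ^ m := by
    have := congrArg (Polynomial.eval z) hT
    simp only [eval_pow, eval_mul, eval_comp] at this
    exact this.symm
  have hPA : P.eval (A.eval z) ≠ 0 := by
    intro h0
    rw [h0, zero_mul] at hWm
    exact pow_ne_zero m hz hWm.symm
  have e1 := hC _ hPA
  have e2 := hC1 z (by simp)
  have e3 : A.eval z / (1 : K[X]).eval z = A.eval z := by simp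
  rw [e3] at e2
  have hsub : clP P (A.eval z) ⊆ bad ∪ clP W z := by
    intro v hv
    by_contra hcon
    simp only [hbad, clP, Set.mem_union, Set.mem_ofPred_eq, not_or, not_not, not_lt] at hcon
    obtain ⟨⟨bA, bT⟩, hz1, hWz⟩ := hcon
    have hmax : max (fa v z) 1 = 1 := max_eq_right hz1
    have ev : ∀ Q : K[X], Mv Q v = 1 → fa v (Q.eval z) ≤ 1 := by
      intro Q hQ
      have := eval_le Q v z le_rfl
      rw [hmax, hQ, one_pow, mul_one] at this
      exact this
    rcases hv with hv | hv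
    · have := ev A bA
      linarith
    · have h5 : 1 ≤ fa v (W.eval z) ^ m := one_le_pow₀ hWz
      rw [← fa_pow, ← hWm, fa_mul] at h5
      have h6 := ev T bT
      have h7 := fa_nonneg v (P.eval (A.eval z))
      nlinarith
  have hWfin := clP_finite W hz
  have e4 := wt_mono (hbadfin.union hWfin) hsub
  have e5 := wt_union_le hbadfin hWfin
  have e6 : ((r : ℝ) - 1 - ε') * (n * lh z) ≤
      ((r : ℝ) - 1 - ε') * lh (A.eval z) + ((r : ℝ) - 1 - ε') * |C1| := by
    rw [← mul_add]
    refine mul_le_mul_of_nonneg_left ?_ hcoef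
    have := le_abs_self C1
    linarith
  have hlh := lh_nonneg z
  have hWR : (W.natDegree : ℝ) = (r : ℝ) * n - (n - 1) := by
    have : ((W.natDegree + (n - 1) : ℕ) : ℝ) = ((r * n : ℕ) : ℝ) := by rw [hWdeg]
    rw [Nat.cast_add, Nat.cast_sub hA, Nat.cast_mul, Nat.cast_one] at this
    linarith
  have e7 : ((W.natDegree : ℝ) - 1 - ε) * lh z ≤ ((r : ℝ) - 1 - ε') * (n * lh z) := by
    rw [hWR]
    have : ((r : ℝ) - 1 - ε') * (n * lh z) = ((r : ℝ) * n - n - n * ε') * lh z := by ring
    rw [this, hnε']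
    have := min_le_left ε 1
    nlinarith
  linarith

/-- The form in which the transfer is used. -/
lemma VV.pull {P A Q : K[X]} (hV : VV P) (hP : P.Separable) (hr : 2 ≤ P.natDegree)
    (hA : 1 ≤ A.natDegree)
    (hcrit : ∀ β : AlgebraicClosure K, aeval β (derivative A) = 0 → aeval β (P.comp A) = 0)
    (hQ : Q.Separable)
    (hroots : ∀ β : AlgebraicClosure K, aeval β Q = 0 → aeval β (P.comp A) = 0) : VV Q := by
  obtain ⟨W, hW1, hW2, hW3⟩ := belyi_lemma P A hP hA hcrit
  have hW0 : W ≠ 0 := by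
    rintro rfl
    rw [mul_zero] at hW1
    rw [Polynomial.comp_eq_zero_iff] at hW1
    rcases hW1 with h | ⟨_, h⟩
    · rw [h, natDegree_zero] at hr
      omega
    · rw [h, natDegree_C] at hA
      omega
  exact VV.of_dvd hW0 (hW3 Q hQ hroots) (hV.comp hr hA hW1 _ hW2)

/-- The case of three points. -/
lemma VV.three (h : ∀ ε : ℝ, 0 < ε → Holds ε (Set.univ : Set K)) : VV (X * (X - 1) : K[X]) := by
  intro ε hε
  obtain ⟨C, hC⟩ := h ε hε
  refine ⟨C, fun z hz => ?_⟩
  simp only [eval_mul, eval_X, eval_sub, eval_one] at hz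
  have h0 : z ≠ 0 := left_ne_zero_of_mul hz
  have h1 : z ≠ 1 := sub_ne_zero.mp (right_ne_zero_of_mul hz)
  have hdeg : (X * (X - 1) : K[X]).natDegree = 2 := by
    have : (X * (X - 1) : K[X]) = X ^ 2 - X := by ring
    rw [this]
    compute_degree!
  rw [hdeg, ← cl_eq_clP]
  have := hC z (Set.mem_univ _) h0 h1
  push_cast
  linarith

end Pool.Agent.Lib.MP_4d5ce1_nt.Red
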